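import Pool.Agent.helper44.TG.Defs

/-! Periods and Euler numbers.  Proved by helper11. -/

namespace WildT

open MulAction

variable {G : Type} [Group G] {ι : Type}

/-- Equivariant maps: the period of the image divides the period.  Proof: `MulAction.period` is the
minimal period of `z ↦ g • z`; `Function.IsPeriodicPt.minimalPeriod_dvd`. -/
theorem period_map {Z Z' : Type} [MulAction G Z] [MulAction G Z'] {f : Z → Z'}
    (hf : ∀ (g : G) (z : Z), f (g • z) = g • f z) (g : G) (z : Z) :
    period g (f z) ∣ period g z := by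
  rw [← MulAction.pow_smul_eq_iff_period_dvd, ← hf, MulAction.pow_period_smul]

/-- Proof: `MulAction.period_pos_of_orderOf_pos`-type lemma. -/
theorem period_pos' [Finite G] {Z : Type} [MulAction G Z] (g : G) (z : Z) : 0 < period g z := by
  exact MulAction.period_pos_of_orderOf_pos (orderOf_pos g) z

/-- The excess does not increase under equivariant maps.  Proof: `period_map`, `period_pos'`. -/
theorem exz_map [Finite G] {Z Z' : Type} [MulAction G Z] [MulAction G Z'] {f : Z → Z'}
    (hf : ∀ (g : G) (z : Z), f (g • z) = g • f z) (R : Finset ι) (σ : ι → G) (z : Z) :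
    exz R σ (f z) ≤ exz R σ z := by
  unfold exz
  apply sub_le_sub_right
  apply Finset.sum_le_sum
  intro c _
  have h1 : 0 < period (σ c) (f z) := period_pos' _ _
  have h2 : 0 < period (σ c) z := period_pos' _ _
  have h3 : period (σ c) (f z) ≤ period (σ c) z := Nat.le_of_dvd h2 (period_map hf _ _)
  have h4 : (1 : ℚ) / (period (σ c) z : ℚ) ≤ 1 / (period (σ c) (f z) : ℚ) :=
    one_div_le_one_div_of_le (by exact_mod_cast h1) (by exact_mod_cast h3)
  linarith

/-- Injective equivariant maps.  Proof: the periods are equal. -/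
theorem exz_inj {Z Z' : Type} [MulAction G Z] [MulAction G Z'] {f : Z → Z'}
    (hf : ∀ (g : G) (z : Z), f (g • z) = g • f z) (hi : Function.Injective f) (R : Finset ι)
    (σ : ι → G) (z : Z) : exz R σ (f z) = exz R σ z := by
  have hper : ∀ g : G, period g (f z) = period g z := by
    intro g
    apply Nat.dvd_antisymm (period_map hf g z)
    rw [← MulAction.pow_smul_eq_iff_period_dvd]
    apply hi
    rw [hf, MulAction.pow_period_smul]
  unfold exz
  simp only [hper]

/-- A point of a `G`-set and the coset of its stabilizer.  Proof: `exz_inj` for the map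
`G ⧸ stabilizer G z → Z` (`MulAction.ofQuotientStabilizer`). -/
theorem exz_coset {Z : Type} [MulAction G Z] (R : Finset ι) (σ : ι → G) (z : Z) (g : G) :
    exz R σ (g • z) = exz R σ (g : G ⧸ stabilizer G z) := by
  have h := exz_inj (f := MulAction.ofQuotientStabilizer G z)
    (fun g y => MulAction.ofQuotientStabilizer_smul G z g y)
    (MulAction.injective_ofQuotientStabilizer G z) R σ (g : G ⧸ stabilizer G z)
  rw [MulAction.ofQuotientStabilizer_mk] at h
  exact h

open Classical in
/-- Summation over an orbit.  Proof: the fibres of `g ↦ g • z0` over the orbit have the cardinality of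
the stabilizer. -/
theorem sum_orbit [Fintype G] {Z : Type} [Fintype Z] [MulAction G Z] (F : Z → ℚ) (z0 : Z) :
    (Nat.card (stabilizer G z0) : ℚ) *
      ∑ z ∈ Finset.univ.filter (fun z => ∃ g : G, g • z0 = z), F z = ∑ g : G, F (g • z0) := by
  have hcard : ∀ z ∈ Finset.univ.filter (fun z => ∃ g : G, g • z0 = z),
      ((Finset.univ.filter (fun g : G => g • z0 = z)).card : ℚ) =
        (Nat.card (stabilizer G z0) : ℚ) := by
    intro z hz
    obtain ⟨g0, hg0⟩ := (Finset.mem_filter.mp hz).2
    have h1 : Nat.card (stabilizer G z0) =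
        (Finset.univ.filter (fun g : G => g • z0 = z0)).card :=
      Nat.subtype_card _ (fun x => by
        simp only [Finset.mem_filter, Finset.mem_univ, true_and]
        exact (MulAction.mem_stabilizer_iff).symm)
    rw [h1]
    congr 1
    apply Finset.card_bij (fun g _ => g0⁻¹ * g)
    · intro g hg
      simp only [Finset.mem_filter, Finset.mem_univ, true_and] at hg ⊢
      rw [mul_smul, hg, ← hg0, inv_smul_smul]
    · intro a _ b _ hab
      exact mul_left_cancel hab
    · intro b hb
      simp only [Finset.mem_filter, Finset.mem_univ, true_and] at hb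
      refine ⟨g0 * b, ?_, ?_⟩
      · simp only [Finset.mem_filter, Finset.mem_univ, true_and]
        rw [mul_smul, hb, hg0]
      · rw [inv_mul_cancel_left]
  rw [Finset.mul_sum]
  rw [← Finset.sum_fiberwise_of_maps_to (s := Finset.univ)
    (t := Finset.univ.filter (fun z => ∃ g : G, g • z0 = z)) (g := fun g : G => g • z0)
    (fun g _ => Finset.mem_filter.mpr ⟨Finset.mem_univ _, g, rfl⟩) (fun g : G => F (g • z0))]
  refine Finset.sum_congr rfl (fun z hz => ?_)
  have h2 : ∑ g ∈ Finset.univ.filter (fun g : G => g • z0 = z), F (g • z0) =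
      ∑ g ∈ Finset.univ.filter (fun g : G => g • z0 = z), F z := by
    refine Finset.sum_congr rfl (fun g hg => ?_)
    rw [(Finset.mem_filter.mp hg).2]
  rw [h2, Finset.sum_const, nsmul_eq_mul, hcard z hz]

open Classical in
/-- The Euler number of an orbit.  Proof: `sum_orbit`, `exz_coset`. -/
theorem chiJ_orbit [Fintype G] {Z : Type} [Fintype Z] [MulAction G Z] (R : Finset ι) (σ : ι → G)
    (z0 : Z) : ∑ z ∈ Finset.univ.filter (fun z => ∃ g : G, g • z0 = z), exz R σ z =
      chiJ R σ (stabilizer G z0) := by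
  have h1 := sum_orbit (G := G) (fun z => exz R σ z) z0
  have h2 : (Nat.card (stabilizer G z0) : ℚ) ≠ 0 := by
    have : 0 < Nat.card (stabilizer G z0) := Nat.card_pos
    exact_mod_cast this.ne'
  unfold chiJ
  rw [eq_div_iff h2, mul_comm, h1]
  exact Finset.sum_congr rfl (fun g _ => exz_coset R σ z0 g)

/-- Monotonicity.  Proof: `exz_map` for the map `G ⧸ J' → G ⧸ J`, summed over `G`. -/
theorem chiJ_mono [Fintype G] (R : Finset ι) (σ : ι → G) {J' J : Subgroup G} (h : J' ≤ J) :
    (Nat.card J : ℚ) * chiJ R σ J ≤ (Nat.card J' : ℚ) * chiJ R σ J' := by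
  have hJ : (Nat.card J : ℚ) ≠ 0 := by
    have : 0 < Nat.card J := Nat.card_pos
    exact_mod_cast this.ne'
  have hJ' : (Nat.card J' : ℚ) ≠ 0 := by
    have : 0 < Nat.card J' := Nat.card_pos
    exact_mod_cast this.ne'
  unfold chiJ
  rw [mul_div_cancel₀ _ hJ, mul_div_cancel₀ _ hJ']
  apply Finset.sum_le_sum
  intro g _
  have h1 := exz_map (f := Subgroup.quotientMapOfLE h)
    (fun a y => by
      induction y using QuotientGroup.induction_on with
      | H y => rfl) R σ (g : G ⧸ J')
  exact h1

/-- The sum over `G`.  Proof: definition, `Nat.card J ≠ 0`. -/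
theorem chiJ_sum [Fintype G] (R : Finset ι) (σ : ι → G) (J : Subgroup G) :
    ∑ g : G, exz R σ (g : G ⧸ J) = (Nat.card J : ℚ) * chiJ R σ J := by
  have hJ : (Nat.card J : ℚ) ≠ 0 := by
    have : 0 < Nat.card J := Nat.card_pos
    exact_mod_cast this.ne'
  unfold chiJ
  rw [mul_div_cancel₀ _ hJ]

/-- If `0 ≤ v ≤ chiJ J` and `J' ≤ J`, then `v ≤ chiJ J'`.  Proof: `chiJ_mono`, `card J' ≤ card J`. -/
theorem chiJ_le [Fintype G] (R : Finset ι) (σ : ι → G) {J' J : Subgroup G} (h : J' ≤ J) {v : ℚ}
    (hv : 0 ≤ v) (hJ : v ≤ chiJ R σ J) : v ≤ chiJ R σ J' := by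
  have h1 := chiJ_mono R σ h
  have h2 : (0 : ℚ) < (Nat.card J' : ℚ) := by
    have : 0 < Nat.card J' := Nat.card_pos
    exact_mod_cast this
  have h3 : (Nat.card J' : ℚ) ≤ (Nat.card J : ℚ) := by
    have : Nat.card J' ≤ Nat.card J := Subgroup.card_le_of_le h
    exact_mod_cast this
  have h4 : (Nat.card J' : ℚ) * v ≤ (Nat.card J : ℚ) * chiJ R σ J :=
    mul_le_mul h3 hJ hv (by linarith)
  exact le_of_mul_le_mul_left (h4.trans h1) h2

/-- If `chiJ J' ≤ 0` and `J' ≤ J`, then `chiJ J ≤ 0`.  Proof: `chiJ_mono`. -/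
theorem chiJ_nonpos [Fintype G] (R : Finset ι) (σ : ι → G) {J' J : Subgroup G} (h : J' ≤ J)
    (hJ : chiJ R σ J' ≤ 0) : chiJ R σ J ≤ 0 := by
  have h1 := chiJ_mono R σ h
  have h2 : (0 : ℚ) ≤ (Nat.card J' : ℚ) := by positivity
  have h3 : (0 : ℚ) < (Nat.card J : ℚ) := by
    have : 0 < Nat.card J := Nat.card_pos
    exact_mod_cast this
  have h4 : (Nat.card J : ℚ) * chiJ R σ J ≤ 0 :=
    h1.trans (mul_nonpos_of_nonneg_of_nonpos h2 hJ)
  by_contra h5
  push Not at h5
  have := mul_pos h3 h5
  linarith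

/-- The stabilizer of a pair. -/
theorem st2_eq {Z Z' : Type} [MulAction G Z] [MulAction G Z'] (x : Z) (y : Z') :
    stabilizer G (x, y) = stabilizer G x ⊓ stabilizer G y := by
  ext g
  rw [Subgroup.mem_inf, mem_stabilizer_iff, mem_stabilizer_iff, mem_stabilizer_iff,
    Prod.smul_mk, Prod.mk.injEq]

/-- Conjugation.  Proof: conjugate cosets: the map `G ⧸ stabilizer (g • z) → G ⧸ stabilizer z`,
`h ↦ h g`, is an equivariant bijection; `exz_coset` for `z` and `g • z`, and the substitution `h ↦ h * g`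
in the sum over `G`. -/
theorem chiJ_conj [Fintype G] (R : Finset ι) (σ : ι → G) {Z : Type} [MulAction G Z] (g : G)
    (z : Z) : chiJ R σ (stabilizer G (g • z)) = chiJ R σ (stabilizer G z) := by
  have hc : Nat.card (stabilizer G (g • z)) = Nat.card (stabilizer G z) :=
    Nat.card_congr (MulAction.stabilizerEquivStabilizer (a := z) (b := g • z) (g := g)
      rfl).symm.toEquiv
  have hs : ∑ h : G, exz R σ (h : G ⧸ stabilizer G (g • z)) =
      ∑ h : G, exz R σ (h : G ⧸ stabilizer G z) := by
    have h1 : ∀ h : G, exz R σ (h : G ⧸ stabilizer G (g • z)) = exz R σ ((h * g) • z) := by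
      intro h
      rw [← exz_coset, mul_smul]
    have h2 : ∀ h : G, exz R σ (h : G ⧸ stabilizer G z) = exz R σ (h • z) := by
      intro h
      rw [← exz_coset]
    simp only [h1, h2]
    exact Fintype.sum_equiv (Equiv.mulRight g) _ _ (fun h => rfl)
  unfold chiJ
  rw [hc, hs]

/-- Proof: `st2_eq`, `chiJ_conj`. -/
theorem chiJ_st2 [Fintype G] (R : Finset ι) (σ : ι → G) {Z : Type} [MulAction G Z] (g : G)
    (x y : Z) : chiJ R σ (st2 G (g • x) (g • y)) = chiJ R σ (st2 G x y) := by
  have h1 : st2 G (g • x) (g • y) = stabilizer G (g • (x, y)) := by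
    rw [Prod.smul_mk, st2_eq]
  have h2 : st2 G x y = stabilizer G (x, y) := (st2_eq x y).symm
  rw [h1, h2]
  exact chiJ_conj R σ g (x, y)

end WildT
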