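import Mathlib.GroupTheory.GroupAction.Period
import Mathlib.GroupTheory.GroupAction.Quotient
import Mathlib.GroupTheory.Index
import Pool.Agent.helper21.LD.Defs

/-!
# Wild rational functions of large degree, decomposable case: group theory (helper44, helper21,
MP_11236d_an, stage 7): definitions

`G` is a finite group with elements `σ c`, `c ∈ R` (generators of the inertia groups).  For a subgroup
`J` the number `chiJ R σ J` is `2 g - 2` for the curve belonging to `J`.
-/

namespace WildT

open MulAction Equiv

variable {G : Type} [Group G]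

/-- The excess at a point `z` of a `G`-set: the sum of `1 - 1 / period` over the values, minus two. -/
noncomputable def exz {ι : Type} (R : Finset ι) (σ : ι → G) {Z : Type} [MulAction G Z] (z : Z) : ℚ :=
  ∑ c ∈ R, (1 - 1 / (period (σ c) z : ℚ)) - 2

/-- The Euler number of the `G`-set `G ⧸ J`: the sum of the excess over its points (written as an
average over `G`). -/
noncomputable def chiJ [Fintype G] {ι : Type} (R : Finset ι) (σ : ι → G) (J : Subgroup G) : ℚ :=
  (∑ g : G, exz R σ (g : G ⧸ J)) / (Nat.card J : ℚ)

/-- The stabilizer of two points. -/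
abbrev st2 (G : Type) [Group G] {Z : Type} [MulAction G Z] (x y : Z) : Subgroup G :=
  stabilizer G x ⊓ stabilizer G y

/-- An invariant equivalence relation. -/
structure Inv (G : Type) [Group G] {Z : Type} [MulAction G Z] (r : Z → Z → Prop) : Prop where
  eqv : Equivalence r
  map : ∀ (g : G) (x y : Z), r x y → r (g • x) (g • y)

/-- Proper: not everything is related. -/
def Ppr {Z : Type} (r : Z → Z → Prop) : Prop := ∃ x y, ¬ r x y

/-- The data given by a wild function `A` all of whose proper right factors are tame. -/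
structure Sys {Ω ι : Type} [Fintype G] [MulAction G Ω] (R : Finset ι) (σ : ι → G)
    (x0 y0 : Ω) : Prop where
  tr : ∀ x y : Ω, ∃ g : G, g • x = y
  faith : ∀ g : G, (∀ x : Ω, g • x = x) → g = 1
  base : ∀ x : Ω, chiJ R σ (stabilizer G x) = -2
  even : ∀ J : Subgroup G, ∃ k : ℤ, -1 ≤ k ∧ chiJ R σ J = 2 * k
  /-- two points of a proper block have Euler number at least two -/
  tame : ∀ r : Ω → Ω → Prop, Inv G r → Ppr r → ∀ x x' : Ω, x ≠ x' → r x x' →
    2 ≤ chiJ R σ (st2 G x x')
  /-- two points of a large proper block with doubly transitive group: at least four -/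
  tame2 : ∀ r : Ω → Ω → Prop, Inv G r → Ppr r →
    (∀ x a b : Ω, r x a → r x b → a ≠ x → b ≠ x → ∃ g : G, g • x = x ∧ g • a = b) →
    ∀ x x' : Ω, x ≠ x' → r x x' → 28 ≤ Nat.card {z // r x z} → 4 ≤ chiJ R σ (st2 G x x')
  gal : 2 < ∑ c ∈ R, (1 - 1 / (orderOf (σ c) : ℚ))
  ne : x0 ≠ y0
  low : chiJ R σ (st2 G x0 y0) ≤ 0

/-- The permutation group on a `G`-set. -/
abbrev PG (G : Type) [Group G] (Y : Type) [MulAction G Y] : Subgroup (Perm Y) :=
  (MulAction.toPermHom G Y).range

/-- The arcs: the orbit of `(x, y)`. -/
noncomputable abbrev arcs (G : Type) [Group G] {Y : Type} [Fintype Y] [DecidableEq Y]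
    [MulAction G Y] (x y : Y) : Finset (Y × Y) := WildLD.orbOf (PG G Y) x y

/-- `Y` is a quotient of `Ω` with fibres of cardinality at most `C`, not one point. -/
structure Quo (G : Type) [Group G] {Ω Y : Type} [MulAction G Ω] [MulAction G Y] (f : Ω → Y)
    (C : ℕ) : Prop where
  map : ∀ (g : G) (x : Ω), f (g • x) = g • f x
  surj : Function.Surjective f
  fib : ∀ x : Ω, Nat.card {z // f z = f x} ≤ C
  two : ∃ y y' : Y, y ≠ y'

/-- The automorphism group of a digraph. -/
def AutD {Y : Type} (D : Finset (Y × Y)) : Subgroup (Perm Y) where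
  carrier := {g | ∀ x y, (g x, g y) ∈ D ↔ (x, y) ∈ D}
  mul_mem' := by
    intro a b ha hb x y
    rw [Perm.mul_apply, Perm.mul_apply, ha, hb]
  one_mem' := fun x y => Iff.rfl
  inv_mem' := by
    intro a ha x y
    have h := ha (a⁻¹ x) (a⁻¹ y)
    rw [show a (a⁻¹ x) = x from a.apply_symm_apply x,
      show a (a⁻¹ y) = y from a.apply_symm_apply y] at h
    exact h.symm

/-- The radius used for rigidity. -/
def rad : ℕ := 7225344 ^ 2

/-- The bound for the supports of local automorphisms. -/
def Kk : ℕ := 1344 * (rad + 1)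

/-- The bound for the diameter of the support of a local automorphism. -/
def R1 : ℕ := 2 * Kk ^ 2

/-- The bound for the number of points in the rigid case. -/
def BR : ℕ := 672 * (168 * 2688 * (1344 * (rad + 1))) + 168 * (4 * rad + 2)

/-- The bound for the valency. -/
def dmax : ℕ := 84 ^ 87

/-- The factor of the cardinality of the fibres in one step. -/
def Pp : ℕ := Kk * (2 * dmax + 1) ^ R1

end WildT
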