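import Pool.Agent.helper44.TG.Main
import Pool.Agent.helper21.LD.Final

/-! The main theorem on groups, with the primitive case. -/

namespace WildT

open MulAction Equiv WildLD

variable {G : Type} [Group G] [Fintype G] {ι : Type} {Ω : Type} [MulAction G Ω] {R : Finset ι}
  {σ : ι → G} {x0 y0 : Ω}

/-- `2 ^ 2 ^ a`. -/
def tp (a : ℕ) : ℕ := 2 ^ 2 ^ a

theorem tp_def (a : ℕ) : tp a = 2 ^ 2 ^ a := rfl

/-- The bound for the degree (used with `a = 100`; the variable prevents evaluation). -/
def N2 (a : ℕ) : ℕ := N1 + tp a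

theorem N2_def (a : ℕ) : N2 a = N1 + tp a := rfl

theorem N1_le_N2 (a : ℕ) : N1 ≤ N2 a := by
  rw [N2_def]
  exact Nat.le_add_right _ _

theorem tp_le_N2 (a : ℕ) : tp a ≤ N2 a := by
  rw [N2_def]
  exact Nat.le_add_left _ _

/-- **Main theorem on groups, all cases.**  If there is an invariant relation, `main`; otherwise the
group is primitive and `WildLD.large_expl` applies. -/
theorem main2 (h : Sys R σ x0 y0) [Fintype Ω]
    (h2 : ¬ ∀ a b a' b' : Ω, a ≠ b → a' ≠ b' → ∃ g : G, g • a = a' ∧ g • b = b') :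
    Fintype.card Ω ≤ N2 100 := by
  classical
  by_cases himp : ∃ r : Ω → Ω → Prop, Inv G r ∧ Ppr r ∧ ∃ x y, x ≠ y ∧ r x y
  · exact (main h himp).trans (N1_le_N2 100)
  have hP : WildJ.Prim (PG G Ω) := by
    intro r hr hr2
    by_contra hcon
    push Not at hcon
    obtain ⟨⟨x, y, hxy, hne⟩, u, v, huv⟩ := hcon
    exact himp ⟨r, ⟨hr, fun g x y hxy => hr2 _ ⟨g, rfl⟩ x y hxy⟩, ⟨u, v, huv⟩, x, y, hne, hxy⟩
  have hlt : Fintype.card Ω < tp 100 := by
    rw [tp_def]
    refine large_expl hP (tr_PG h.tr) ?_ (h.quo_orb h.quo_id) R (fun c => toPermHom G Ω (σ c))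
      (fun c _ => ⟨σ c, rfl⟩) (h.quo_cost h.quo_id).1 (h.quo_cost h.quo_id).2 ?_
    · intro hcon
      refine h2 fun a b a' b' hab hab' => ?_
      obtain ⟨g, ⟨g', rfl⟩, h3, h4⟩ := hcon a b a' b' hab hab'
      exact ⟨g', h3, h4⟩
    · have hinj : Function.Injective (toPermHom G Ω) := by
        rw [injective_iff_map_eq_one]
        intro g hg
        exact h.faith g fun x => by
          have := congrArg (fun e : Perm Ω => e x) hg
          exact this
      have h5 : ∀ c, orderOf (toPermHom G Ω (σ c)) = orderOf (σ c) := fun c =>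
        orderOf_injective _ hinj _
      simp only [h5]
      exact h.gal
  exact le_trans hlt.le (tp_le_N2 100)

end WildT
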