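import Pool.Agent.helper44.TG.Main2

/-! The size of the bound. -/

namespace WildT

theorem tp_mono {a b : ℕ} (h : a ≤ b) : tp a ≤ tp b := by
  rw [tp_def, tp_def]
  exact Nat.pow_le_pow_right (by norm_num) (Nat.pow_le_pow_right (by norm_num) h)

theorem tp_mul (a : ℕ) : tp a * tp a = tp (a + 1) := by
  rw [tp_def, tp_def, ← pow_add, pow_succ, mul_two]

theorem Num_pow {x e r a : ℕ} (hx : x ≤ 2 ^ e) (h : e * r ≤ 2 ^ a) : x ^ r ≤ tp a := by
  rw [tp_def]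
  calc x ^ r ≤ (2 ^ e) ^ r := Nat.pow_le_pow_left hx r
    _ = 2 ^ (e * r) := (pow_mul 2 e r).symm
    _ ≤ 2 ^ 2 ^ a := Nat.pow_le_pow_right (by norm_num) h

theorem Num_one {x e a : ℕ} (hx : x ≤ 2 ^ e) (h : e ≤ 2 ^ a) : x ≤ tp a := by
  have h1 := Num_pow (r := 1) hx (by rw [mul_one]; exact h)
  rwa [pow_one] at h1

theorem Num_tp {x a k r : ℕ} (hx : x ≤ tp a) (h : r ≤ 2 ^ k) : x ^ r ≤ tp (a + k) := by
  rw [tp_def] at hx
  refine Num_pow hx ?_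
  rw [pow_add]
  exact Nat.mul_le_mul_left _ h

theorem Num_P {K d r P a : ℕ} (hP : P = K * (2 * d + 1) ^ r) (hK : K ≤ tp a)
    (hd : (2 * d + 1) ^ r ≤ tp a) : P ≤ tp (a + 1) := by
  rw [hP, ← tp_mul]
  exact Nat.mul_le_mul hK hd

theorem Num_sum {A B C T : ℕ} (hA : A ≤ T) (hB : B ≤ T) (hC : C ≤ T) (h3 : 3 ≤ T) :
    A + B + C ≤ T * T := by
  calc A + B + C ≤ T + T + T := Nat.add_le_add (Nat.add_le_add hA hB) hC
    _ = 3 * T := by ring
    _ ≤ T * T := Nat.mul_le_mul_right _ h3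

theorem Num_sum2 {A B T : ℕ} (hA : A ≤ T) (hB : B ≤ T) (h2 : 2 ≤ T) : A + B ≤ T * T := by
  calc A + B ≤ T + T := Nat.add_le_add hA hB
    _ = 2 * T := by ring
    _ ≤ T * T := Nat.mul_le_mul_right _ h2

theorem Num_G0 {A B C D F X a b m : ℕ} (ha : 12 * a ≤ tp m) (hb : (b ^ 557) ^ 2 ≤ tp m)
    (hA : A = 12 * a * (b ^ 557) ^ 2) (hB : B = 84 * (84 * X)) (hX : X ≤ tp 15)
    (hT : C + D + F ≤ 2 ^ 40) (hm : 16 ≤ m) : A + B + C + D + F ≤ tp (m + 2) := by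
  rw [← tp_mul]
  have h1 : A ≤ tp (m + 1) := by
    rw [← tp_mul, hA]
    exact Nat.mul_le_mul ha hb
  have h3 : 84 * 84 ≤ tp 15 := Num_one (e := 15) (by norm_num) (by norm_num)
  have h4 : B ≤ tp (m + 1) := by
    rw [hB, ← mul_assoc]
    refine (Nat.mul_le_mul h3 hX).trans ?_
    rw [tp_mul]
    exact tp_mono (by omega)
  have h5 : C + D + F ≤ tp (m + 1) := (Num_one (a := 15) (e := 40) hT (by norm_num)).trans
    (tp_mono (by omega))
  have h6 : 3 ≤ tp (m + 1) :=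
    (Num_one (a := 15) (e := 2) (by norm_num) (by norm_num)).trans (tp_mono (by omega))
  have h7 := Num_sum h1 h4 h5 h6
  rw [add_assoc, add_assoc, ← add_assoc C]
  exact h7

theorem Num_X : (16 * 168 ^ 2 + 1) ^ (8 * 168) ≤ tp 15 :=
  Num_pow (e := 19) (by norm_num) (by norm_num)

theorem Num_G {a b m : ℕ} (ha : 12 * a ≤ tp m) (hb : (b ^ 557) ^ 2 ≤ tp m) (hm : 16 ≤ m) :
    Main_N1G a b ≤ tp (m + 2) := by
  rw [Main_N1G_eq]
  exact Num_G0 ha hb rfl rfl Num_X (by norm_num) hm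

theorem Num_Kk : Kk ≤ 2 ^ 57 := by
  unfold Kk rad
  norm_num

set_option exponentiation.threshold 1000 in
theorem Num_dmax : 2 * dmax + 1 ≤ 2 ^ 611 := by
  unfold dmax
  norm_num

theorem Num_R1 : 611 * R1 ≤ 2 ^ 125 := by
  unfold R1 Kk rad
  norm_num

theorem Num_BR : 12 * BR ≤ 2 ^ 100 := by
  unfold BR rad
  norm_num

theorem Num_Pp (z : ℕ) : Pp ≤ tp 126 :=
  Num_P (a := 125) (BV_def z) (Num_one Num_Kk (by norm_num)) (Num_pow Num_dmax Num_R1)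

theorem Num_Pp2 {P a : ℕ} (h : P ≤ tp a) : (P ^ 557) ^ 2 ≤ tp (a + 11) := by
  rw [← pow_mul]
  exact Num_tp h (by norm_num)

theorem Num_N1 : N1 ≤ tp 139 := by
  rw [Main_N1_eq]
  exact Num_G (m := 137) (Num_one Num_BR (by norm_num)) (Num_Pp2 (Num_Pp 0)) (by norm_num)

/-- **The size of the bound.** -/
theorem N2_le : N2 100 ≤ tp 140 := by
  rw [N2_def, ← tp_mul 139]
  have h1 : tp 100 ≤ tp 139 := tp_mono (by norm_num)
  have h2 : 2 ≤ tp 139 := (Num_one (a := 1) (e := 1) (by norm_num) (by norm_num)).trans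
    (tp_mono (by norm_num))
  exact Num_sum2 Num_N1 h1 h2

end WildT
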