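import Pool.Agent.helper44.TG.ChiB
import Pool.Agent.helper21.LD.BasicB

/-! The digraph of the arcs, on `Ω` and on its quotients. -/

namespace WildT

open MulAction Equiv WildLD

variable {G : Type} [Group G] {Y : Type} [MulAction G Y]

/-- The permutation group is transitive. -/
theorem tr_PG (h : ∀ x y : Y, ∃ g : G, g • x = y) : Tr (PG G Y) := by
  intro x y
  obtain ⟨g, hg⟩ := h x y
  exact ⟨MulAction.toPermHom G Y g, ⟨g, rfl⟩, hg⟩

/-- Proof: unfold `orbOf`, `MonoidHom.mem_range`. -/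
theorem mem_arcs [Fintype Y] [DecidableEq Y] {x y : Y} {p : Y × Y} :
    p ∈ arcs G x y ↔ ∃ g : G, g • x = p.1 ∧ g • y = p.2 := by
  classical
  unfold arcs WildLD.orbOf
  rw [Finset.mem_filter]
  constructor
  · rintro ⟨_, _, ⟨g, rfl⟩, h1, h2⟩
    exact ⟨g, h1, h2⟩
  · rintro ⟨g, h1, h2⟩
    exact ⟨Finset.mem_univ _, _, ⟨g, rfl⟩, h1, h2⟩

/-- **Arcs entering and leaving a set.**

Proof.  `G'` transitive, `D` an orbital with connected graph, `A` not empty and not everything.  By
connectedness there are adjacent points, one in `A` and one not in `A` (a walk leaves `A`), so an arc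
leaves or enters `A`; by `ex_compl` (with `exists_deg`) the number of the arcs leaving `A` is the number
of the arcs entering `A`. -/
theorem enter_leave [Fintype Y] [DecidableEq Y] {G' : Subgroup (Perm Y)} (htr : Tr G')
    {D : Finset (Y × Y)} (hD : Orb G' D) (hc : (Gam D).Connected) (A : Y → Prop)
    (h1 : ∃ x, A x) (h2 : ∃ x, ¬ A x) :
    (∃ x y, (x, y) ∈ D ∧ ¬ A x ∧ A y) ∧ ∃ x y, (x, y) ∈ D ∧ A x ∧ ¬ A y := by
  classical
  obtain ⟨d, _, hd⟩ := exists_deg htr hD
  have hex := ex_compl htr hD hd (Finset.univ.filter A)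
  obtain ⟨x, hx⟩ := h1
  obtain ⟨y, hy⟩ := h2
  obtain ⟨w⟩ := hc.preconnected x y
  obtain ⟨e, _, he1, he2⟩ := w.exists_boundary_dart {z | A z} hx hy
  have he1' : A e.fst := he1
  have he2' : ¬ A e.snd := he2
  have hadj := e.adj
  unfold Gam at hadj
  rw [SimpleGraph.fromRel_adj] at hadj
  have hor : 0 < ex D (Finset.univ.filter A) ∨ 0 < ex D (Finset.univ.filter A)ᶜ := by
    rcases hadj.2 with h | h
    · left
      unfold ex
      refine Finset.card_pos.2 ⟨(e.fst, e.snd), Finset.mem_filter.2 ⟨h, ?_, ?_⟩⟩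
      · exact Finset.mem_filter.2 ⟨Finset.mem_univ _, he1'⟩
      · intro hm
        exact he2' (Finset.mem_filter.1 hm).2
    · right
      unfold ex
      refine Finset.card_pos.2 ⟨(e.snd, e.fst), Finset.mem_filter.2 ⟨h, ?_, ?_⟩⟩
      · rw [Finset.mem_compl]
        intro hm
        exact he2' (Finset.mem_filter.1 hm).2
      · rw [Finset.mem_compl, not_not]
        exact Finset.mem_filter.2 ⟨Finset.mem_univ _, he1'⟩
  have hA : 0 < ex D (Finset.univ.filter A) := by
    rcases hor with h | h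
    · exact h
    · rwa [hex] at h
  have hB : 0 < ex D (Finset.univ.filter A)ᶜ := by
    rw [hex]
    exact hA
  constructor
  · unfold ex at hB
    obtain ⟨p, hp⟩ := Finset.card_pos.1 hB
    rw [Finset.mem_filter, Finset.mem_compl, Finset.mem_compl, not_not, Finset.mem_filter,
      Finset.mem_filter] at hp
    exact ⟨p.1, p.2, hp.1, fun ha => hp.2.1 ⟨Finset.mem_univ _, ha⟩, hp.2.2.2⟩
  · unfold ex at hA
    obtain ⟨p, hp⟩ := Finset.card_pos.1 hA
    rw [Finset.mem_filter, Finset.mem_filter, Finset.mem_filter] at hp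
    exact ⟨p.1, p.2, hp.1, hp.2.1.2, fun ha => hp.2.2 ⟨Finset.mem_univ _, ha⟩⟩

/-- Reachability in the graph of an orbital is an invariant equivalence relation. -/
theorem inv_reach [Fintype Y] [DecidableEq Y] (x y : Y) (hxy : x ≠ y) :
    Inv G (fun u v => (Gam (arcs G x y)).Reachable u v) := by
  have hD : Orb (PG G Y) (arcs G x y) := orbOf_orb hxy
  refine ⟨SimpleGraph.reachable_is_equivalence _, ?_⟩
  intro g a b hab
  have hadj : ∀ a b : Y, (Gam (arcs G x y)).Adj a b → (Gam (arcs G x y)).Adj (g • a) (g • b) := by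
    intro a b h
    unfold Gam at h ⊢
    rw [SimpleGraph.fromRel_adj] at h ⊢
    refine ⟨fun he => h.1 ((MulAction.injective g) he), ?_⟩
    rcases h.2 with h2 | h2
    · exact Or.inl (hD.inv (MulAction.toPermHom G Y g) ⟨g, rfl⟩ _ _ h2)
    · exact Or.inr (hD.inv (MulAction.toPermHom G Y g) ⟨g, rfl⟩ _ _ h2)
  exact hab.map (⟨fun z => g • z, fun {a b} h => hadj a b h⟩ :
    Gam (arcs G x y) →g Gam (arcs G x y))

variable [Fintype G] {ι : Type} {Ω : Type} [MulAction G Ω] {R : Finset ι} {σ : ι → G} {x0 y0 : Ω}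

theorem Sys.quo_tr (h : Sys R σ x0 y0) {f : Ω → Y} {C : ℕ} (hf : Quo G f C) (x y : Y) :
    ∃ g : G, g • x = y := by
  obtain ⟨u, rfl⟩ := hf.surj x
  obtain ⟨v, rfl⟩ := hf.surj y
  obtain ⟨g, hg⟩ := h.tr u v
  exact ⟨g, by rw [← hf.map, hg]⟩

/-- The arcs of a quotient form an orbital.  Proof: `orbOf_orb`, `Sys.quo_ne`. -/
theorem Sys.quo_orb (h : Sys R σ x0 y0) [Fintype Y] [DecidableEq Y] {f : Ω → Y} {C : ℕ}
    (hf : Quo G f C) : Orb (PG G Y) (arcs G (f x0) (f y0)) := by
  exact orbOf_orb (h.quo_ne hf)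

/-- The graph of a quotient is connected.

Proof.  The relation (`f u` and `f v` are in the same connected component) on `Ω` is invariant
(`inv_reach`, `hf.map`) and holds for `x0`, `y0`; by `not_block` it is not proper; `surj`. -/
theorem Sys.quo_conn (h : Sys R σ x0 y0) [Fintype Y] [DecidableEq Y] {f : Ω → Y} {C : ℕ}
    (hf : Quo G f C) : (Gam (arcs G (f x0) (f y0))).Connected := by
  have hne := h.quo_ne hf
  have hinv := inv_reach (G := G) (f x0) (f y0) hne
  have hY : Nonempty Y := ⟨f x0⟩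
  refine ⟨?_⟩
  intro a b
  by_contra hab
  have hr : Inv G (fun u v : Ω => (Gam (arcs G (f x0) (f y0))).Reachable (f u) (f v)) := by
    refine ⟨⟨fun u => SimpleGraph.Reachable.refl _, fun hu => hu.symm, fun hu hv => hu.trans hv⟩, ?_⟩
    intro g u v huv
    rw [hf.map, hf.map]
    exact hinv.map g _ _ huv
  have hp : Ppr (fun u v : Ω => (Gam (arcs G (f x0) (f y0))).Reachable (f u) (f v)) := by
    obtain ⟨u, hu⟩ := hf.surj a
    obtain ⟨v, hv⟩ := hf.surj b
    refine ⟨u, v, ?_⟩
    show ¬ (Gam (arcs G (f x0) (f y0))).Reachable (f u) (f v)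
    rw [hu, hv]
    exact hab
  refine h.not_block hr hp 1 ?_
  rw [one_smul, one_smul]
  apply SimpleGraph.Adj.reachable
  unfold Gam
  rw [SimpleGraph.fromRel_adj]
  exact ⟨hne, Or.inl (mem_orbOf _ _)⟩

/-- `Ω` is a quotient of itself. -/
theorem Sys.quo_id (h : Sys R σ x0 y0) [Finite Ω] : Quo G (id : Ω → Ω) 1 := by
  refine ⟨fun _ _ => rfl, fun x => ⟨x, rfl⟩, fun x => ?_, ⟨x0, y0, h.ne⟩⟩
  have : Subsingleton {z : Ω // id z = id x} := ⟨fun a b => Subtype.ext (a.2.trans b.2.symm)⟩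
  exact Finite.card_le_one_iff_subsingleton.2 this

/-- The Euler number of every arc is not positive.  Proof: `chiJ_st2`, `low`. -/
theorem Sys.arc_low (h : Sys R σ x0 y0) [Fintype Ω] [DecidableEq Ω] {x y : Ω}
    (hxy : (x, y) ∈ arcs G x0 y0) : chiJ R σ (st2 G x y) ≤ 0 := by
  obtain ⟨g, h1, h2⟩ := mem_arcs.1 hxy
  have h1' : g • x0 = x := h1
  have h2' : g • y0 = y := h2
  rw [← h1', ← h2', chiJ_st2]
  exact h.low

/-- The ends of an arc are not in a proper block.  Proof: `not_block`. -/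
theorem Sys.arc_not (h : Sys R σ x0 y0) [Fintype Ω] [DecidableEq Ω] {x y : Ω}
    (hxy : (x, y) ∈ arcs G x0 y0) {r : Ω → Ω → Prop} (hr : Inv G r) (hp : Ppr r) : ¬ r x y := by
  obtain ⟨g, h1, h2⟩ := mem_arcs.1 hxy
  have h1' : g • x0 = x := h1
  have h2' : g • y0 = y := h2
  rw [← h1', ← h2']
  exact h.not_block hr hp g

/-- Arcs of `Ω` are mapped to arcs of the quotient, and every arc of the quotient is an image. -/
theorem quo_arc {f : Ω → Y} (hmap : ∀ (g : G) (x : Ω), f (g • x) = g • f x) [Fintype Ω]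
    [DecidableEq Ω] [Fintype Y] [DecidableEq Y] (x0 y0 : Ω) (p : Y × Y) :
    p ∈ arcs G (f x0) (f y0) ↔ ∃ q ∈ arcs G x0 y0, f q.1 = p.1 ∧ f q.2 = p.2 := by
  rw [mem_arcs]
  constructor
  · rintro ⟨g, h1, h2⟩
    refine ⟨(g • x0, g • y0), mem_arcs.2 ⟨g, rfl, rfl⟩, ?_, ?_⟩
    · rw [← h1, ← hmap]
    · rw [← h2, ← hmap]
  · rintro ⟨q, hq, h1, h2⟩
    obtain ⟨g, h3, h4⟩ := mem_arcs.1 hq
    exact ⟨g, by rw [← hmap, h3, h1], by rw [← hmap, h4, h2]⟩

/-- The number of the arcs at `x` is the index of `st2 G x y` in the stabilizer of `x`.  Proof: the arcs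
starting at `x` are the pairs `(x, g y)` with `g x = x` (the orbit of `y` under the stabilizer;
orbit-stabilizer theorem). -/
theorem Sys.deg_eq (h : Sys R σ x0 y0) [Fintype Ω] [DecidableEq Ω] {d : ℕ}
    (hd : (arcs G x0 y0).card = Fintype.card Ω * d) {x y : Ω} (hxy : (x, y) ∈ arcs G x0 y0) :
    Nat.card (stabilizer G x) = d * Nat.card (st2 G x y) := by
  classical
  obtain ⟨g0, h1, h2⟩ := mem_arcs.1 hxy
  have h1' : g0 • x0 = x := h1
  have h2' : g0 • y0 = y := h2
  have hD : Orb (PG G Ω) (arcs G x0 y0) := orbOf_orb h.ne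
  have hdeg := outdeg (tr_PG h.tr) hD hd x
  have e1 : orbit (stabilizer G x) y ≃ {p // p ∈ (arcs G x0 y0).filter fun p => p.1 = x} :=
    { toFun := fun z => ⟨(x, z.1), by
        obtain ⟨k, hk⟩ := z.2
        have hk' : (k : G) • y = z.1 := hk
        have hkx : (k : G) • x = x := k.2
        refine Finset.mem_filter.2 ⟨mem_arcs.2 ⟨(k : G) * g0, ?_, ?_⟩, rfl⟩
        · rw [mul_smul, h1', hkx]
        · rw [mul_smul, h2', hk']⟩
      invFun := fun p => ⟨p.1.2, by
        obtain ⟨hp1, hp2⟩ := Finset.mem_filter.1 p.2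
        obtain ⟨g, h3, h4⟩ := mem_arcs.1 hp1
        have hx : (g * g0⁻¹) • x = x := by
          rw [← h1', mul_smul, inv_smul_smul, h3, hp2, h1']
        refine ⟨⟨g * g0⁻¹, hx⟩, ?_⟩
        show (g * g0⁻¹) • y = p.1.2
        rw [← h2', mul_smul, inv_smul_smul, h4]⟩
      left_inv := fun z => rfl
      right_inv := fun p => by
        obtain ⟨hp1, hp2⟩ := Finset.mem_filter.1 p.2
        exact Subtype.ext (Prod.ext hp2.symm rfl) }
  have e2 : stabilizer (stabilizer G x) y ≃ st2 G x y :=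
    { toFun := fun k => ⟨k.1.1, k.1.2, k.2⟩
      invFun := fun g => ⟨⟨g.1, g.2.1⟩, g.2.2⟩
      left_inv := fun k => rfl
      right_inv := fun g => rfl }
  have e3 := MulAction.orbitProdStabilizerEquivGroup (stabilizer G x) y
  rw [← Nat.card_congr e3, Nat.card_prod, Nat.card_congr e1, Nat.card_congr e2,
    Nat.card_eq_fintype_card, Fintype.card_coe, hdeg]

/-- The two conditions on the quotient needed in `WildLD.exists_h`.

Proof.  (1) `quo_sum`: `∑ y, exz y = -2`, exchange the sums; `MulAction.period` is the minimal period of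
`y ↦ σ c • y`.  (2) `quo_low` and `chiJ_orbit` for the point `(f x0, f y0)` of `Y × Y` (its stabilizer is
`st2`): the sum of the excess over the arcs is not positive; the period of a pair is the least common
multiple of the periods (`Function.minimalPeriod_prodMap`). -/
theorem Sys.quo_cost (h : Sys R σ x0 y0) [Fintype Y] [DecidableEq Y] {f : Ω → Y} {C : ℕ}
    (hf : Quo G f C) :
    (∑ c ∈ R, ∑ x : Y, (1 - 1 / (Function.minimalPeriod (toPermHom G Y (σ c)) x : ℚ)) =
      2 * Fintype.card Y - 2) ∧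
    ∑ c ∈ R, ∑ p ∈ arcs G (f x0) (f y0),
      (1 - 1 / (Nat.lcm (Function.minimalPeriod (toPermHom G Y (σ c)) p.1)
        (Function.minimalPeriod (toPermHom G Y (σ c)) p.2) : ℚ)) ≤
      2 * (arcs G (f x0) (f y0)).card := by
  classical
  have hper : ∀ (c : ι) (y : Y), Function.minimalPeriod (toPermHom G Y (σ c)) y = period (σ c) y :=
    fun _ _ => rfl
  constructor
  · have h1 := h.quo_sum hf
    unfold exz at h1
    rw [Finset.sum_sub_distrib, Finset.sum_comm, Finset.sum_const, Finset.card_univ,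
      nsmul_eq_mul] at h1
    simp only [hper]
    linarith
  · have h1 := chiJ_orbit R σ (f x0, f y0)
    have h2 : chiJ R σ (stabilizer G (f x0) ⊓ stabilizer G (f y0)) ≤ 0 := h.quo_low hf
    rw [← st2_eq, ← h1] at h2
    have h3 : ∑ z ∈ arcs G (f x0) (f y0), exz R σ z ≤ 0 := by
      refine le_of_eq_of_le (Finset.sum_congr ?_ fun _ _ => rfl) h2
      ext p
      simp only [Finset.mem_filter, Finset.mem_univ, true_and]
      rw [mem_arcs]
      constructor
      · rintro ⟨g, h4, h5⟩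
        exact ⟨g, Prod.ext h4 h5⟩
      · rintro ⟨g, rfl⟩
        exact ⟨g, rfl, rfl⟩
    unfold exz at h3
    rw [Finset.sum_sub_distrib, Finset.sum_comm, Finset.sum_const, nsmul_eq_mul] at h3
    have hlcm : ∀ (c : ι) (p : Y × Y), period (σ c) p =
        Nat.lcm (Function.minimalPeriod (toPermHom G Y (σ c)) p.1)
          (Function.minimalPeriod (toPermHom G Y (σ c)) p.2) := by
      intro c p
      exact Function.minimalPeriod_prodMap (fun y : Y => σ c • y) (fun y : Y => σ c • y) p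
    simp only [hlcm] at h3
    linarith

end WildT
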