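import Mathlib.Algebra.Order.Field.Basic
import Mathlib.Algebra.BigOperators.Group.Finset.Basic
import Mathlib.Algebra.Order.BigOperators.Group.Finset
import Mathlib.Data.Rat.Defs
import Mathlib.Tactic

/-! Elementary arithmetic.  Proved by helper11. -/

namespace WildT

private theorem Ari_nn {a : ℕ} (ha : 1 ≤ a) : (0 : ℚ) ≤ 1 - 1 / (a : ℚ) := by
  have h1 : (1 : ℚ) ≤ a := by exact_mod_cast ha
  have h2 : 1 / (a : ℚ) ≤ 1 := by
    rw [div_le_one (by linarith)]; exact h1
  linarith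

private theorem Ari_lt {a : ℕ} (ha : 1 ≤ a) : 1 - 1 / (a : ℚ) < 1 := by
  have h1 : (0 : ℚ) < a := by exact_mod_cast (by omega : 0 < a)
  have h2 : 0 < 1 / (a : ℚ) := by positivity
  linarith

private theorem Ari_ge {a b : ℕ} (hb : 1 ≤ b) (hab : b ≤ a) :
    1 - 1 / (b : ℚ) ≤ 1 - 1 / (a : ℚ) := by
  have h1 : (0 : ℚ) < b := by exact_mod_cast (by omega : 0 < b)
  have h2 : (b : ℚ) ≤ a := by exact_mod_cast hab
  have h3 : 1 / (a : ℚ) ≤ 1 / (b : ℚ) := one_div_le_one_div_of_le h1 h2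
  linarith

private theorem Ari_fact (s : ℕ) (h1 : s < 2 ^ 23) (h2 : 23 < s) :
    Nat.factorial s < 2 ^ (s ^ 2) := by
  calc Nat.factorial s ≤ s ^ s := Nat.factorial_le_pow s
    _ ≤ (2 ^ 23) ^ s := Nat.pow_le_pow_left h1.le s
    _ = 2 ^ (23 * s) := by rw [← pow_mul]
    _ < 2 ^ (s ^ 2) := by
      apply Nat.pow_lt_pow_right (by norm_num)
      rw [sq]
      exact Nat.mul_lt_mul_of_pos_right h2 (by omega)

/-- **Signatures.**  If `∑ (1 - 1 / o') ≤ 2` and `o` agrees with `o'` wherever `o' ≤ 6`, then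
`∑ (1 - 1 / o) ≤ 2`.

Proof.  If all `o' ≤ 6`, the sums agree.  Otherwise `o' c0 ≥ 7`; the other terms have
`∑ (1 - 1 / o') ≤ 2 - 6 / 7 = 8 / 7`, so at most two other `o'` are different from one (each
contributes at least `1 / 2`).  If at most one other is different from one: the sum for `o` has at most
two nonzero terms (where `o' = 1` also `o = 1`), each less than one.  If two others, `a` and `b`:
`1 / a + 1 / b ≥ 6 / 7 > 5 / 6`, so `a = b = 2`, and the sum for `o` is at most
`1 / 2 + 1 / 2 + 1`. -/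
theorem sig {ι : Type} (R : Finset ι) (o o' : ι → ℕ) (ho : ∀ c ∈ R, 1 ≤ o c)
    (ho' : ∀ c ∈ R, 1 ≤ o' c) (he : ∀ c ∈ R, o' c ≤ 6 → o c = o' c)
    (hs : ∑ c ∈ R, (1 - 1 / (o' c : ℚ)) ≤ 2) : ∑ c ∈ R, (1 - 1 / (o c : ℚ)) ≤ 2 := by
  classical
  by_cases hall : ∀ c ∈ R, o' c ≤ 6
  · have h1 : ∑ c ∈ R, (1 - 1 / (o c : ℚ)) = ∑ c ∈ R, (1 - 1 / (o' c : ℚ)) :=
      Finset.sum_congr rfl (fun c hc => by rw [he c hc (hall c hc)])
    rw [h1]
    exact hs
  · push Not at hall
    obtain ⟨c0, hc0, h7⟩ := hall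
    set N := (R.erase c0).filter (fun c => 2 ≤ o' c) with hN
    have hNR : ∀ c ∈ N, c ∈ R ∧ c ≠ c0 ∧ 2 ≤ o' c := by
      intro c hc
      rw [hN, Finset.mem_filter, Finset.mem_erase] at hc
      exact ⟨hc.1.2, hc.1.1, hc.2⟩
    have hsplit : ∀ f : ι → ℚ, (∀ c ∈ R.erase c0, ¬ 2 ≤ o' c → f c = 0) →
        ∑ c ∈ R, f c = f c0 + ∑ c ∈ N, f c := by
      intro f hf
      rw [← Finset.add_sum_erase R f hc0, hN, Finset.sum_filter]
      congr 1
      refine Finset.sum_congr rfl (fun c hc => ?_)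
      split_ifs with h
      · rfl
      · exact hf c hc h
    have h1 : ∑ c ∈ R, (1 - 1 / (o' c : ℚ)) =
        (1 - 1 / (o' c0 : ℚ)) + ∑ c ∈ N, (1 - 1 / (o' c : ℚ)) := by
      apply hsplit
      intro c hc h
      have h2 := ho' c (Finset.mem_of_mem_erase hc)
      have h3 : o' c = 1 := by omega
      rw [h3]
      norm_num
    have h1' : ∑ c ∈ R, (1 - 1 / (o c : ℚ)) =
        (1 - 1 / (o c0 : ℚ)) + ∑ c ∈ N, (1 - 1 / (o c : ℚ)) := by
      apply hsplit
      intro c hc h
      have h2 := ho' c (Finset.mem_of_mem_erase hc)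
      have h3 : o' c = 1 := by omega
      rw [he c (Finset.mem_of_mem_erase hc) (by omega), h3]
      norm_num
    have h7' : (6 : ℚ) / 7 ≤ 1 - 1 / (o' c0 : ℚ) := by
      have := Ari_ge (a := o' c0) (b := 7) (by norm_num) (by omega)
      norm_num at this ⊢
      linarith
    have hle : ∑ c ∈ N, (1 - 1 / (o' c : ℚ)) ≤ 8 / 7 := by linarith
    have hge : (N.card : ℚ) * (1 / 2) ≤ ∑ c ∈ N, (1 - 1 / (o' c : ℚ)) := by
      have h2 : ∑ _c ∈ N, ((1 : ℚ) / 2) ≤ ∑ c ∈ N, (1 - 1 / (o' c : ℚ)) := by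
        apply Finset.sum_le_sum
        intro c hc
        have := Ari_ge (a := o' c) (b := 2) (by norm_num) (hNR c hc).2.2
        norm_num at this ⊢
        linarith
      rwa [Finset.sum_const, nsmul_eq_mul] at h2
    have hcard : N.card ≤ 2 := by
      by_contra hcon
      have h3 : (3 : ℚ) ≤ (N.card : ℚ) := by exact_mod_cast (by omega : 3 ≤ N.card)
      linarith
    have hc0lt := Ari_lt (ho c0 hc0)
    rw [h1']
    have hcases : N.card = 0 ∨ N.card = 1 ∨ N.card = 2 := by omega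
    rcases hcases with h0 | h0 | h0
    · rw [Finset.card_eq_zero.mp h0, Finset.sum_empty]
      linarith
    · obtain ⟨a, ha⟩ := Finset.card_eq_one.mp h0
      have haN : a ∈ N := by rw [ha]; exact Finset.mem_singleton_self a
      have := Ari_lt (ho a (hNR a haN).1)
      rw [ha, Finset.sum_singleton]
      linarith
    · obtain ⟨a, b, hab, hN2⟩ := Finset.card_eq_two.mp h0
      have haN : a ∈ N := by rw [hN2]; exact Finset.mem_insert_self a _
      have hbN : b ∈ N := by
        rw [hN2]; exact Finset.mem_insert_of_mem (Finset.mem_singleton_self b)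
      obtain ⟨haR, _, ha2⟩ := hNR a haN
      obtain ⟨hbR, _, hb2⟩ := hNR b hbN
      rw [hN2, Finset.sum_pair hab] at hle
      rw [hN2, Finset.sum_pair hab]
      have hA2 := Ari_ge (a := o' a) (b := 2) (by norm_num) ha2
      have hB2 := Ari_ge (a := o' b) (b := 2) (by norm_num) hb2
      have ha : o' a = 2 := by
        by_contra hne
        have h3 := Ari_ge (a := o' a) (b := 3) (by norm_num) (by omega)
        norm_num at h3 hB2 hle
        linarith
      have hb : o' b = 2 := by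
        by_contra hne
        have h3 := Ari_ge (a := o' b) (b := 3) (by norm_num) (by omega)
        norm_num at h3 hA2 hle
        linarith
      have ha' : o a = 2 := by rw [he a haR (by omega), ha]
      have hb' : o b = 2 := by rw [he b hbR (by omega), hb]
      rw [ha', hb']
      have h2' : (1 : ℚ) - 1 / ((2 : ℕ) : ℚ) = 1 / 2 := by norm_num
      rw [h2']
      linarith

/-- **The possible numbers of arcs between two orbits.**  `(m - 1) L = d' t (t - 1)`.

Proof.  From `hL1`, `hL2`: `(m - 1) d' t ≤ d' t (t - 1) + 168 (m - 1)`, so `d' t (m - t) ≤ 168 (m - 1)`, and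
`t (m - t) < 168 m`.  If `2 t ≤ m`: `t m / 2 ≤ t (m - t) < 168 m`, so `t < 336`; if `t ≥ 2`, then `L ≥ 1` and
`m - 1 ≤ 84 * 336 * 335 < 84 * 336 ^ 2`, a contradiction.  If `2 t > m`: `u = m - t < 336`.  The integer
`Lc = d' m - 2 d' t + L` satisfies `(m - 1) Lc = d' u (u - 1)`; if `u ≥ 2`, it is positive, so
`m - 1 ≤ d' u (u - 1) < 84 * 336 ^ 2`, a contradiction. -/
theorem des_arith {m t d' L : ℕ} (ht1 : 1 ≤ t) (htm : t ≤ m) (hd' : 1 ≤ d') (hd84 : d' ≤ 84)
    (hL1 : (m - 1) * L = d' * t * (t - 1)) (hL2 : d' * t ≤ L + 168)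
    (hm : 84 * 336 ^ 2 + 1 < m) : t = 1 ∨ t + 1 = m ∨ t = m := by
  by_contra hcon
  push Not at hcon
  obtain ⟨h1, h2, h3⟩ := hcon
  have ht2 : 2 ≤ t := by omega
  have htm2 : t + 2 ≤ m := by omega
  obtain ⟨u, hu⟩ : ∃ u, m = t + u := ⟨m - t, by omega⟩
  have hu2 : 2 ≤ u := by omega
  obtain ⟨s, hs⟩ : ∃ s, t = s + 1 := ⟨t - 1, by omega⟩
  obtain ⟨M, hM⟩ : ∃ M, m = M + 1 := ⟨m - 1, by omega⟩
  have e1 : m - 1 = M := by omega
  have e2 : t - 1 = s := by omega
  rw [e1, e2] at hL1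
  have hMs : M = s + u := by omega
  -- d' t u ≤ 168 M
  have k1 : d' * t * u ≤ 168 * M := by
    have k2 : M * (d' * t) ≤ M * (L + 168) := Nat.mul_le_mul_left M hL2
    have k3 : M * (d' * t) = d' * t * s + d' * t * u := by rw [hMs]; ring
    have k4 : M * (L + 168) = d' * t * s + 168 * M := by rw [Nat.mul_add, hL1]; ring
    omega
  have k5 : t * u ≤ 168 * M := by
    have k6 : 1 * (t * u) ≤ d' * (t * u) := Nat.mul_le_mul_right _ hd'
    have k7 : d' * (t * u) = d' * t * u := by ring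
    omega
  have hbig : 84 * 336 ^ 2 < M := by omega
  by_cases hc : 2 * t ≤ m
  · have k8 : t < 336 := by
      by_contra hge
      have k9 : 336 ≤ t := by omega
      have k10 : t ≤ u := by omega
      have k11 : t * (t + u) ≤ 2 * (t * u) := by nlinarith
      have k12 : 336 * (t + u) ≤ t * (t + u) := Nat.mul_le_mul_right _ k9
      omega
    have hL : 1 ≤ L := by
      by_contra h0
      have h0' : L = 0 := by omega
      rw [h0', Nat.mul_zero] at hL1
      have : 0 < d' * t * s := by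
        apply Nat.mul_pos (Nat.mul_pos hd' ht1)
        omega
      omega
    have k13 : M * 1 ≤ M * L := Nat.mul_le_mul_left M hL
    have k14 : d' * t * s ≤ 84 * 336 * 336 :=
      Nat.mul_le_mul (Nat.mul_le_mul hd84 (by omega)) (by omega)
    omega
  · have k8 : u < 336 := by
      by_contra hge
      have k9 : 336 ≤ u := by omega
      have k10 : u ≤ t := by omega
      have k11 : u * (t + u) ≤ 2 * (t * u) := by nlinarith
      have k12 : 336 * (t + u) ≤ u * (t + u) := Nat.mul_le_mul_right _ k9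
      omega
    have hLc : (M : ℤ) * ((d' : ℤ) * m - 2 * d' * t + L) = d' * u * (u - 1) := by
      have hL1' : (M : ℤ) * L = d' * t * s := by exact_mod_cast hL1
      have hMs' : (M : ℤ) = s + u := by exact_mod_cast hMs
      have hs' : (t : ℤ) = s + 1 := by exact_mod_cast hs
      have hu' : (m : ℤ) = t + u := by exact_mod_cast hu
      have hexp : (M : ℤ) * ((d' : ℤ) * m - 2 * d' * t + L) =
          M * ((d' : ℤ) * m - 2 * d' * t) + M * L := by ring
      rw [hexp, hL1', hu', hMs', hs']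
      ring
    have hpos : (0 : ℤ) < d' * u * (u - 1) := by
      have a1 : (1 : ℤ) ≤ d' := by exact_mod_cast hd'
      have a2 : (2 : ℤ) ≤ u := by exact_mod_cast hu2
      have a3 : (0 : ℤ) < d' * u := by positivity
      exact mul_pos a3 (by linarith)
    have hMpos : (0 : ℤ) < M := by exact_mod_cast (by omega : 0 < M)
    have hLcpos : (0 : ℤ) < (d' : ℤ) * m - 2 * d' * t + L := by
      by_contra hneg
      push Not at hneg
      have := mul_nonpos_of_nonneg_of_nonpos hMpos.le hneg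
      linarith
    have k13 : (M : ℤ) ≤ M * ((d' : ℤ) * m - 2 * d' * t + L) := by
      nlinarith
    have k14 : (d' : ℤ) * u * (u - 1) ≤ 84 * 336 * 336 := by
      have k15 : d' * u * (u - 1) ≤ 84 * 336 * 336 :=
        Nat.mul_le_mul (Nat.mul_le_mul hd84 (by omega)) (by omega)
      have k16 : ((d' * u * (u - 1) : ℕ) : ℤ) = (d' : ℤ) * u * (u - 1) := by
        push_cast [Nat.cast_sub (by omega : 1 ≤ u)]
        ring
      rw [← k16]
      exact_mod_cast k15
    have k17 : (M : ℤ) ≤ 84 * 336 * 336 := by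
      calc (M : ℤ) ≤ M * ((d' : ℤ) * m - 2 * d' * t + L) := k13
        _ = d' * u * (u - 1) := hLc
        _ ≤ 84 * 336 * 336 := k14
    have k18 : M ≤ 84 * 336 * 336 := by exact_mod_cast k17
    omega

/-- `2 ^ r` is larger than `s!` for `r = s ^ 2`, `s = 7225344`.  Proof: `s! ≤ s ^ s` and `s < 2 ^ 23`, so
`s! < 2 ^ (23 s) ≤ 2 ^ (s ^ 2)`. -/
theorem fact_lt : Nat.factorial 7225344 < 2 ^ (7225344 ^ 2) := by
  exact Ari_fact 7225344 (by norm_num) (by norm_num)

end WildT
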