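import Pool.Agent.helper44.TG.Twn

/-! The quotient by a normal subgroup of the automorphism group halves the valency. -/

namespace WildT

open Equiv WildLD

variable {Y : Type} [Fintype Y] [DecidableEq Y]

/-- **Halving.**  `NN` is normalised by the automorphism group, `g ∈ NN` acts trivially on some `NN`-orbit
and not on all.  Then for every arc `(x, y)` there is another arc `(x, y')` with `y'` in the `NN`-orbit of
`y`.

Proof.  Let `A y` say that `g` acts nontrivially on the `NN`-orbit of `y`; it depends only on the orbit.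
`enter_leave`: an arc `(x, y)` with `¬ A x`, `A y`.  So `g` fixes all points `n x`, `n ∈ NN`, and moves some `n y`.
`n⁻¹ g n ∈ NN` moves `y` and fixes `x` (it fixes `n' x` for all `n' ∈ NN`, because `g` fixes `n n' x`).  So
`(x, y') = n⁻¹ g n (x, y)` is an arc with `y' ≠ y`.  All arcs are images of this one under elements of
`G ≤ AutD D`, which normalise `NN`. -/
theorem halve {G : Subgroup (Perm Y)} (htr : Tr G) {D : Finset (Y × Y)} (hD : Orb G D)
    (hc : (Gam D).Connected) {NN : Subgroup (Perm Y)} (hNN : NN ≤ AutD D)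
    (hn : ∀ a ∈ AutD D, ∀ g ∈ NN, a * g * a⁻¹ ∈ NN) {g : Perm Y} (hg : g ∈ NN) (h1 : g ≠ 1)
    (h2 : ∃ x, ∀ n ∈ NN, g (n x) = n x) {x y : Y} (hxy : (x, y) ∈ D) :
    ∃ y', y' ≠ y ∧ (∃ n ∈ NN, n y = y') ∧ (x, y') ∈ D := by
  obtain ⟨u, hu⟩ := h2
  obtain ⟨v, hv⟩ : ∃ v, g v ≠ v := by
    by_contra hcon
    push Not at hcon
    exact h1 (Equiv.ext hcon)
  obtain ⟨⟨x0, y0, h0, hx0, hy0⟩, -⟩ := enter_leave htr hD hc (fun y => ∃ n ∈ NN, g (n y) ≠ n y)
    ⟨v, 1, NN.one_mem, hv⟩ ⟨u, by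
      rintro ⟨n, hn1, hn2⟩
      exact hn2 (hu n hn1)⟩
  push Not at hx0
  obtain ⟨n, hnN, hny⟩ := hy0
  set k : Perm Y := n⁻¹ * g * n with hk
  have hkN : k ∈ NN := NN.mul_mem (NN.mul_mem (NN.inv_mem hnN) hg) hnN
  have hkx : k x0 = x0 := by
    rw [hk, Perm.mul_apply, Perm.mul_apply, hx0 n hnN]
    exact n.symm_apply_apply x0
  have hky : k y0 ≠ y0 := by
    intro h
    apply hny
    rw [hk, Perm.mul_apply, Perm.mul_apply] at h
    have h3 := congrArg n h
    rw [show n (n⁻¹ (g (n y0))) = g (n y0) from n.apply_symm_apply _] at h3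
    exact h3
  have hkD : (x0, k y0) ∈ D := by
    have h3 := (hNN hkN x0 y0).2 h0
    rwa [hkx] at h3
  obtain ⟨a, haG, hax, hay⟩ := hD.tr (x0, y0) h0 (x, y) hxy
  have haA : a ∈ AutD D := (autD_orb hD).1 haG
  have hax' : a x0 = x := hax
  have hay' : a y0 = y := hay
  refine ⟨a (k y0), ?_, ⟨a * k * a⁻¹, hn a haA k hkN, ?_⟩, ?_⟩
  · intro h
    rw [← hay'] at h
    exact hky (a.injective h)
  · rw [← hay', Perm.mul_apply, Perm.mul_apply, show a⁻¹ (a y0) = y0 from a.symm_apply_apply _]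
  · rw [← hax']
    exact (haA x0 (k y0)).2 hkD

/-- **The quotient relation.**

Proof.  `local_aut`: `g'`; `R = 2 K ^ 2`; `NN` from `exists_NN`; `e x y` says that `y` is in the `NN`-orbit of `x`.
`g' ∈ NN` by `twn_local`.  The `NN`-orbits are contained in the classes of `Twn D R`, so they have at most
`(2 d + 1) ^ R` elements (`twn_card`), and the ends of an arc are not in one orbit (`twn_arc`; the
cardinality of `Y` is larger than `(2 d + 1) ^ R` by `hb`, `K ≥ 1`).  `g'` moves at most `K` points, which lie in at most `K`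
orbits with together at most `K (2 d + 1) ^ R < card Y` points, so there is an orbit on which `g'` is
trivial: `halve`.  Third last property: if `z = n x` with `n ∈ NN`, then `(x, n⁻¹ w)` is an arc. -/
theorem loc_quot {G : Subgroup (Perm Y)} (htr : Tr G) {D : Finset (Y × Y)} (hD : Orb G D)
    (hc : (Gam D).Connected) {d : ℕ} (hd : D.card = Fintype.card Y * d) {K : ℕ} {g : Perm Y}
    (hg : g ∈ AutD D) (h1 : g ≠ 1) (hK : (Fx g)ᶜ.card ≤ K)
    (hb : K * (2 * d + 1) ^ (2 * K ^ 2) < Fintype.card Y) :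
    ∃ e : Y → Y → Prop, Equivalence e ∧ (∀ a ∈ AutD D, ∀ x y, e x y → e (a x) (a y)) ∧
      (∀ x, Nat.card {z // e x z} ≤ (2 * d + 1) ^ (2 * K ^ 2)) ∧ (∀ x y, (x, y) ∈ D → ¬ e x y) ∧
      (∀ x z w, e x z → (z, w) ∈ D → ∃ w', e w w' ∧ (x, w') ∈ D) ∧
      ∀ x y, (x, y) ∈ D → ∃ y', y' ≠ y ∧ e y y' ∧ (x, y') ∈ D := by
  classical
  set C : ℕ := (2 * d + 1) ^ (2 * K ^ 2) with hC
  have hC1 : 1 ≤ C := Nat.one_le_pow _ _ (by omega)
  have hK1 : 1 ≤ K := by
    obtain ⟨v, hv⟩ : ∃ v, g v ≠ v := by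
      by_contra hcon
      push Not at hcon
      exact h1 (Equiv.ext hcon)
    have h2 : 0 < (Fx g)ᶜ.card := by
      apply Finset.card_pos.2
      refine ⟨v, ?_⟩
      rw [Finset.mem_compl, Fx, Finset.mem_filter]
      exact fun h => hv h.2
    omega
  have hbK : K < Fintype.card Y := lt_of_le_of_lt (Nat.le_mul_of_pos_right K hC1) hb
  have hbC : C < Fintype.card Y := lt_of_le_of_lt (Nat.le_mul_of_pos_left C hK1) hb
  obtain ⟨g', hg', hg1, hgK, hgR⟩ := local_aut hc hg h1 hK hbK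
  obtain ⟨NN, hNN, hnorm⟩ := exists_NN htr hD (2 * K ^ 2)
  have hNA : NN ≤ AutD D := fun n hn => ((hNN n).1 hn).1
  have hgN : g' ∈ NN := (hNN g').2 ⟨hg', fun x => twn_local hg' hgR htr hD x⟩
  have hcard : ∀ x, Nat.card {z // ∃ n ∈ NN, n x = z} ≤ C := by
    intro x
    refine le_trans ?_ (twn_card htr hD hc hd (2 * K ^ 2) x)
    refine Nat.card_le_card_of_injective
      (fun z : {z // ∃ n ∈ NN, n x = z} => (⟨z.1, by
        obtain ⟨n, hn, hz⟩ := z.2
        rw [← hz]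
        exact ((hNN n).1 hn).2 x⟩ : {z // Twn D (2 * K ^ 2) x z})) ?_
    intro z z' h
    exact Subtype.ext (congrArg (fun t => t.1) h)
  have hex : ∃ x, ∀ n ∈ NN, g' (n x) = n x := by
    by_contra hcon
    push Not at hcon
    have hsub : (Finset.univ : Finset Y) ⊆ (Fx g')ᶜ.biUnion
        (fun u => Finset.univ.filter fun z => ∃ n ∈ NN, n u = z) := by
      intro x _
      obtain ⟨n, hn, hx⟩ := hcon x
      rw [Finset.mem_biUnion]
      refine ⟨n x, ?_, ?_⟩
      · rw [Finset.mem_compl, Fx, Finset.mem_filter]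
        exact fun h => hx h.2
      · rw [Finset.mem_filter]
        exact ⟨Finset.mem_univ _, n⁻¹, NN.inv_mem hn, n.symm_apply_apply x⟩
    have h3 := Finset.card_le_card hsub
    rw [Finset.card_univ] at h3
    have h4 : ((Fx g')ᶜ.biUnion
        (fun u => Finset.univ.filter fun z => ∃ n ∈ NN, n u = z)).card ≤ (Fx g')ᶜ.card * C := by
      apply Finset.card_biUnion_le_card_mul
      intro u _
      have h5 := hcard u
      rw [Nat.card_eq_fintype_card, Fintype.card_subtype] at h5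
      exact h5
    have h5 : (Fx g')ᶜ.card * C ≤ K * C := Nat.mul_le_mul_right _ hgK
    omega
  refine ⟨fun x y => ∃ n ∈ NN, n x = y, ⟨?_, ?_, ?_⟩, ?_, hcard, ?_, ?_, ?_⟩
  · intro x
    exact ⟨1, NN.one_mem, rfl⟩
  · rintro x y ⟨n, hn, rfl⟩
    exact ⟨n⁻¹, NN.inv_mem hn, n.symm_apply_apply x⟩
  · rintro x y z ⟨n, hn, rfl⟩ ⟨n', hn', rfl⟩
    exact ⟨n' * n, NN.mul_mem hn' hn, rfl⟩
  · rintro a ha x y ⟨n, hn, rfl⟩
    refine ⟨a * n * a⁻¹, hnorm a ha n hn, ?_⟩
    rw [Perm.mul_apply, Perm.mul_apply, show a⁻¹ (a x) = x from a.symm_apply_apply _]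
  · rintro x y hxy ⟨n, hn, hny⟩
    apply twn_arc htr hD hc hd hbC hxy
    rw [← hny]
    exact ((hNN n).1 hn).2 x
  · rintro x z w ⟨n, hn, rfl⟩ hzw
    have hn' := NN.inv_mem hn
    refine ⟨n⁻¹ w, ⟨n⁻¹, hn', rfl⟩, ?_⟩
    have h3 := (hNA hn' (n x) w).2 hzw
    rwa [show n⁻¹ (n x) = x from n.symm_apply_apply _] at h3
  · intro x y hxy
    obtain ⟨y', h3, h4, h5⟩ := halve htr hD hc hNA hnorm hgN hg1 hex hxy
    exact ⟨y', h3, h4, h5⟩

end WildT
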