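import Pool.Agent.helper44.TG.Cut
import Pool.Agent.helper44.TG.Ari
import Pool.Agent.helper21.LD.Burn
import Pool.Agent.helper21.LD.DichA
import Pool.Agent.helper21.LD.Gro
import Pool.Agent.helper21.LD.LinC
import Pool.Agent.helper21.LD.FinB

/-! Digraphs without automorphisms of small support. -/

namespace WildT

open Equiv WildLD

variable {Y : Type} [Fintype Y] [DecidableEq Y]

theorem Rig_mem_Bl {D : Finset (Y × Y)} {v y : Y} {r : ℕ} :
    y ∈ Bl D v r ↔ (Gam D).dist v y ≤ r := by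
  simp [Bl]

theorem Rig_mem_Sp {D : Finset (Y × Y)} {v y : Y} {r : ℕ} :
    y ∈ Sp D v r ↔ (Gam D).dist v y = r := by
  simp [Sp]

theorem Rig_step {D : Finset (Y × Y)} (hc : (Gam D).Connected) (v : Y) {x y : Y}
    (h : (x, y) ∈ D) : (Gam D).dist v x ≤ (Gam D).dist v y + 1 ∧
      (Gam D).dist v y ≤ (Gam D).dist v x + 1 := by
  by_cases hxy : x = y
  · rw [hxy]
    omega
  · have h1 : (Gam D).Adj x y := by
      unfold Gam
      rw [SimpleGraph.fromRel_adj]
      exact ⟨hxy, Or.inl h⟩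
    have h2 := SimpleGraph.dist_eq_one_iff_adj.2 h1
    have h3 := SimpleGraph.dist_eq_one_iff_adj.2 h1.symm
    have h4 := hc.dist_triangle (u := v) (v := x) (w := y)
    have h5 := hc.dist_triangle (u := v) (v := y) (w := x)
    omega

/-- **Cut trick.**  If no automorphism `≠ 1` moves only points of the ball `Bl D v r`, then an automorphism
fixing `v` and all the points of the sphere `Sp D v r` fixes the ball pointwise.

Proof.  `a` maps the ball to itself (`autD_dist`).  An arc with one end in the ball and the other one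
outside has its first end in the sphere (distances of adjacent points differ by at most one,
`Connected`); but `glue` needs that the end OUTSIDE the set `T` is fixed by `a`, so take
`T` = the complement of the ball: the end outside `T` is in the sphere, fixed.  So `a` on the complement,
identity on the ball, is an automorphism `a'`; `a * a'⁻¹` is an automorphism which agrees with `a` on the
ball and is the identity outside. -/
theorem cut_ball {D : Finset (Y × Y)} (hc : (Gam D).Connected) {v : Y} {r : ℕ}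
    (hno : ∀ g ∈ AutD D, (∀ x, x ∉ Bl D v r → g x = x) → g = 1) {a : Perm Y} (ha : a ∈ AutD D)
    (hv : a v = v) (hs : ∀ x ∈ Sp D v r, a x = x) : ∀ x ∈ Bl D v r, a x = x := by
  classical
  have hd : ∀ x, (Gam D).dist v (a x) = (Gam D).dist v x := by
    intro x
    have h1 := autD_dist ha v x
    rw [hv] at h1
    exact h1
  have hT : ∀ x, x ∈ (Bl D v r)ᶜ ↔ a x ∈ (Bl D v r)ᶜ := by
    intro x
    rw [Finset.mem_compl, Finset.mem_compl, Rig_mem_Bl, Rig_mem_Bl, hd]
  have key : ∀ x y, (x, y) ∈ D → (x ∈ (Bl D v r)ᶜ → y ∉ (Bl D v r)ᶜ → a y = y) ∧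
      (x ∉ (Bl D v r)ᶜ → y ∈ (Bl D v r)ᶜ → a x = x) := by
    intro x y hxy
    have h1 := Rig_step hc v hxy
    rw [Finset.mem_compl, Finset.mem_compl, Rig_mem_Bl, Rig_mem_Bl]
    constructor
    · intro hx hy
      apply hs
      rw [Rig_mem_Sp]
      omega
    · intro hx hy
      apply hs
      rw [Rig_mem_Sp]
      omega
  obtain ⟨a', ha', h1, h2⟩ := glue ha (Bl D v r)ᶜ hT key
  have h3 : a * a'⁻¹ = 1 := by
    apply hno _ (mul_mem ha (inv_mem ha'))
    intro x hx
    have hx' : x ∈ (Bl D v r)ᶜ := Finset.mem_compl.2 hx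
    obtain ⟨z, hz⟩ : ∃ z, a' z = x := ⟨a'⁻¹ x, a'.apply_symm_apply x⟩
    have hz' : a'⁻¹ x = z := by rw [Perm.inv_eq_iff_eq, hz]
    rw [Perm.mul_apply, hz']
    by_cases hzT : z ∈ (Bl D v r)ᶜ
    · rw [← h1 z hzT, hz]
    · exfalso
      have h4 := h2 z hzT
      rw [h4] at hz
      rw [hz] at hzT
      exact hzT hx'
  have h4 : a = a' := by
    rw [mul_inv_eq_one] at h3
    exact h3
  intro x hx
  rw [h4]
  apply h2
  rw [Finset.mem_compl]
  exact fun h => h hx

theorem Rig_mem_PS {G : Subgroup (Perm Y)} {W : Finset Y} {g : Perm Y} :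
    g ∈ PS G W ↔ g ∈ G ∧ ∀ w ∈ W, g w = w := Iff.rfl

theorem Rig_index {A A' : Subgroup (Perm Y)} {S : Finset Y}
    (hS : ∀ g ∈ A, ∀ x, x ∈ S ↔ g x ∈ S) (hA' : ∀ g ∈ A, (∀ x ∈ S, g x = x) → g ∈ A') :
    Nat.card A ≤ S.card.factorial * Nat.card A' := by
  classical
  have hφ : ∀ g : A, ∃ p : Perm S, ∀ x : S, (p x : Y) = g.1 x := by
    intro g
    refine ⟨g.1.subtypePerm (p := fun x => x ∈ S) fun x => (hS g.1 g.2 x).symm, ?_⟩
    intro x
    rfl
  choose φ hφ using hφ
  have h0 : ∀ p : Perm S, ∃ t : Perm Y, (∃ g ∈ A, ∀ x : S, (p x : Y) = g x) →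
      t ∈ A ∧ ∀ x : S, (p x : Y) = t x := by
    intro p
    by_cases h : ∃ g ∈ A, ∀ x : S, (p x : Y) = g x
    · obtain ⟨g, hg, hy⟩ := h
      exact ⟨g, fun _ => ⟨hg, hy⟩⟩
    · exact ⟨1, fun h' => absurd h' h⟩
  choose t ht using h0
  have hf : ∀ g : A, (t (φ g))⁻¹ * g.1 ∈ A' := by
    intro g
    obtain ⟨h1, h2⟩ := ht (φ g) ⟨g.1, g.2, hφ g⟩
    refine hA' _ (mul_mem (inv_mem h1) g.2) ?_
    intro x hx
    have h3 := h2 ⟨x, hx⟩
    have h4 := hφ g ⟨x, hx⟩
    rw [Perm.mul_apply, Perm.inv_eq_iff_eq, ← h3, ← h4]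
  have hinj : Function.Injective (fun g : A => ((φ g, ⟨_, hf g⟩) : Perm S × A')) := by
    intro g g' hgg
    simp only [Prod.mk.injEq, Subtype.mk.injEq] at hgg
    obtain ⟨h1, h2⟩ := hgg
    rw [h1] at h2
    exact Subtype.ext (mul_left_cancel h2)
  have h1 := Nat.card_le_card_of_injective _ hinj
  rw [Nat.card_prod] at h1
  have h2 : Nat.card (Perm S) = S.card.factorial := by
    rw [Nat.card_eq_fintype_card, Fintype.card_perm, Fintype.card_coe]
  rw [h2] at h1
  exact h1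

/-- **Index.**  Proof: an element of `PS (AutD D) {v}` permutes the sphere; two elements with the same
action on the sphere differ by an element fixing `v` and the sphere, which lies in
`PS (AutD D) (Bl D v r)` by `cut_ball`.  So the index is at most the number of the permutations of the
sphere. -/
theorem cut_index {D : Finset (Y × Y)} (hc : (Gam D).Connected) {v : Y} {r : ℕ}
    (hno : ∀ g ∈ AutD D, (∀ x, x ∉ Bl D v r → g x = x) → g = 1) :
    Nat.card (PS (AutD D) {v}) ≤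
      (Sp D v r).card.factorial * Nat.card (PS (AutD D) (Bl D v r)) := by
  apply Rig_index (S := Sp D v r)
  · intro g hg x
    obtain ⟨h1, h2⟩ := Rig_mem_PS.1 hg
    have h3 := h2 v (Finset.mem_singleton_self v)
    have h4 := autD_dist h1 v x
    rw [h3] at h4
    rw [Rig_mem_Sp, Rig_mem_Sp, h4]
  · intro g hg hx
    obtain ⟨h1, h2⟩ := Rig_mem_PS.1 hg
    exact Rig_mem_PS.2 ⟨h1, cut_ball hc hno h1 (h2 v (Finset.mem_singleton_self v)) hx⟩

theorem Rig_card {D : Finset (Y × Y)} {v : Y} {R K : ℕ} (hK : (Bl D v R).card ≤ K)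
    {g : Perm Y} (hg : ∀ x, x ∉ Bl D v R → g x = x) : (Fx g)ᶜ.card ≤ K := by
  classical
  refine le_trans (Finset.card_le_card ?_) hK
  intro x hx
  rw [Finset.mem_compl] at hx
  by_contra hcon
  apply hx
  unfold Fx
  rw [Finset.mem_filter]
  exact ⟨Finset.mem_univ _, hg x hcon⟩

theorem Rig_main {R K N : ℕ} (hR : 1 ≤ R) (hK1 : 168 * (4 * R + 2) ≤ K)
    (hK2 : 1344 * (R + 1) ≤ K) (hN : N.factorial < 2 ^ R) (hN7 : 7225344 ≤ N)
    {G : Subgroup (Perm Y)} (htr : Tr G) {D : Finset (Y × Y)} (hD : Orb G D)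
    (hc : (Gam D).Connected) {ι : Type} (I : Finset ι) (σ : ι → Perm Y) (hσ : ∀ i ∈ I, σ i ∈ G)
    (h1 : ∑ i ∈ I, ∑ x : Y, (1 - 1 / (Function.minimalPeriod (σ i) x : ℚ)) =
      2 * Fintype.card Y - 2)
    (h2 : ∑ i ∈ I, ∑ p ∈ D, (1 - 1 / (Nat.lcm (Function.minimalPeriod (σ i) p.1)
      (Function.minimalPeriod (σ i) p.2) : ℚ)) ≤ 2 * D.card)
    (h3 : 2 < ∑ i ∈ I, (1 - 1 / (orderOf (σ i) : ℚ)))
    (hno : ∀ g ∈ AutD D, (Fx g)ᶜ.card ≤ K → g = 1) :
    Fintype.card Y ≤ 672 * (168 * 2688 * (1344 * (R + 1))) + 168 * (4 * R + 2) := by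
  obtain ⟨k, hk⟩ : ∃ k, k = 168 * (4 * R + 2) := ⟨_, rfl⟩
  obtain ⟨B, hB⟩ : ∃ B, B = 672 * (168 * 2688 * (1344 * (R + 1))) := ⟨_, rfl⟩
  rw [← hk, ← hB]
  obtain ⟨d, hd1, hd⟩ := exists_deg htr hD
  obtain ⟨i, hi, j, hne1, hFx, hex⟩ := exists_h htr hD hd I σ h1 h2 h3
  set h := σ i ^ j with hh
  have hhG : h ∈ G := pow_mem (hσ i hi) j
  obtain ⟨hle, hDA⟩ := autD_orb hD
  have htrA : Tr (AutD D) := by
    intro x y
    obtain ⟨g, hg, hgx⟩ := htr x y
    exact ⟨g, hle hg, hgx⟩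
  obtain ⟨he, hcard, ρ, _, hu, hb, hor⟩ := dichotomy htr hD hd hc hne1 hFx hex
  by_cases hρ : ρ ≤ 4 * R + 2
  · have hρk : 168 * ρ ≤ k := by
      rw [hk]
      exact Nat.mul_le_mul_left _ hρ
    rcases hor with h4 | h4
    · exfalso
      apply hne1
      apply hno h (hle hhG)
      omega
    · omega
  · push Not at hρ
    have hgr : ∀ v, ∀ r ≤ 2 * R, (Bl D v r).card ≤ 1344 * (r + 1) := by
      intro v r hr
      exact growth htr hD hc hu hb (by omega) v
    have hd2 : d ≤ 2688 := by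
      obtain ⟨v, _⟩ := hFx
      have h4 := (Bl_one htr hD hd hc v).1
      have h5 := hgr v 1 (by omega)
      omega
    by_contra hcon
    push Not at hcon
    have h6 : 168 * d * (1344 * (R + 1)) < (Fx h).card := by
      have h7 : 168 * d * (1344 * (R + 1)) ≤ 168 * 2688 * (1344 * (R + 1)) :=
        Nat.mul_le_mul_right _ (Nat.mul_le_mul_left _ hd2)
      obtain ⟨B1, hB1⟩ : ∃ B1, B1 = 168 * 2688 * (1344 * (R + 1)) := ⟨_, rfl⟩
      rw [← hB1] at h7 hB
      omega
    obtain ⟨v, hv⟩ := deep htr hD hd hc he (R := R) (b := 1344 * (R + 1))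
      (fun v => hgr v R (by omega)) h6
    have h8 : h ∈ PS (AutD D) (Bl D v R) := Rig_mem_PS.2 ⟨hle hhG, hv⟩
    have h9 := chain htrA hDA hc h8 hne1
    have h10 : (Bl D v R).card ≤ K := le_trans (hgr v R (by omega)) hK2
    have h11 := cut_index (D := D) hc (v := v) (r := R) (fun g hg hgx => hno g hg (Rig_card h10 hgx))
    have h12 : (Sp D v R).card ≤ N :=
      le_trans (spheres htr hD hc (hgr v R (by omega))) hN7
    have h13 : (Sp D v R).card.factorial ≤ N.factorial := Nat.factorial_le h12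
    have h14 : 0 < Nat.card (PS (AutD D) (Bl D v R)) := Nat.card_pos
    have h15 : 2 ^ R * Nat.card (PS (AutD D) (Bl D v R)) ≤
        N.factorial * Nat.card (PS (AutD D) (Bl D v R)) :=
      le_trans h9 (le_trans h11 (Nat.mul_le_mul_right _ h13))
    have h16 := Nat.le_of_mul_le_mul_right h15 h14
    exact absurd h16 (not_le.2 hN)

theorem Rig_arith {x : ℕ} : 168 * (4 * x + 2) ≤ 1344 * (x + 1) := by omega

theorem Rig_fact : Nat.factorial 7225344 < 2 ^ rad := by
  rw [rad]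
  exact fact_lt

theorem Rig_rad : 1 ≤ rad := by
  unfold rad
  exact Nat.one_le_pow _ _ (by norm_num)

/-- **Rigidity.**  If no automorphism `≠ 1` has support of at most `Kk` points, the number of the points is at
most `BR`.

Proof.  `exists_h`: `h = σ i ^ k`; it lies in `G ≤ AutD D`.  `dichotomy`: `ρ`.
If `ρ ≤ 4 rad + 2`: the support of `h` has at most `168 (4 rad + 2) ≤ Kk` points, which is excluded, or
`card Y ≤ 168 (4 rad + 2) ≤ BR`.
If `ρ > 4 rad + 2`: `growth` for the radii `1` and `rad`: `d ≤ card (Bl D v 1) ≤ 2688` (`Bl_one`),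
`card (Bl D v rad) ≤ 1344 (rad + 1) = Kk`; `spheres`: `card (Sp D v rad) ≤ 7225344`.  If
`card Y > 672 * (168 * 2688 * (1344 * (rad + 1)))`, then `deep` (with `b = 1344 (rad + 1)`) gives `v` such that `h`
fixes the ball of radius `rad` around `v`; so `h ∈ PS (AutD D) (Bl D v rad)`, `h ≠ 1`, and `chain` (for the group
`AutD D`, which is transitive, `autD_orb`) gives `2 ^ rad * card (PS (Bl)) ≤ card (PS {v})`.  `cut_index` (an
automorphism moving only points of the ball has support at most `Kk`) and `fact_lt`: contradiction. -/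
theorem rigid_bound {G : Subgroup (Perm Y)} (htr : Tr G) {D : Finset (Y × Y)} (hD : Orb G D)
    (hc : (Gam D).Connected) {ι : Type} (I : Finset ι) (σ : ι → Perm Y) (hσ : ∀ i ∈ I, σ i ∈ G)
    (h1 : ∑ i ∈ I, ∑ x : Y, (1 - 1 / (Function.minimalPeriod (σ i) x : ℚ)) =
      2 * Fintype.card Y - 2)
    (h2 : ∑ i ∈ I, ∑ p ∈ D, (1 - 1 / (Nat.lcm (Function.minimalPeriod (σ i) p.1)
      (Function.minimalPeriod (σ i) p.2) : ℚ)) ≤ 2 * D.card)
    (h3 : 2 < ∑ i ∈ I, (1 - 1 / (orderOf (σ i) : ℚ)))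
    (hno : ∀ g ∈ AutD D, (Fx g)ᶜ.card ≤ Kk → g = 1) : Fintype.card Y ≤ BR := by
  have hK : Kk = 1344 * (rad + 1) := by
    delta Kk
    exact Eq.refl _
  have hB : BR = 672 * (168 * 2688 * (1344 * (rad + 1))) + 168 * (4 * rad + 2) := by
    delta BR
    exact Eq.refl _
  have hF := Rig_fact
  have hR1 := Rig_rad
  rw [hK] at hno
  rw [hB]
  generalize rad = x at *
  exact Rig_main hR1 Rig_arith le_rfl hF le_rfl htr hD hc I σ hσ h1 h2 h3 hno

end WildT
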