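import Pool.Agent.helper44.TG.LemT
import Pool.Agent.helper44.TG.Hlv
import Pool.Agent.helper44.TG.Rig

/-! Bounded valency implies bounded degree. -/

namespace WildT

open MulAction Equiv WildLD

variable {G : Type} [Group G] [Fintype G] {ι : Type} {Ω : Type} [MulAction G Ω] {R : Finset ι}
  {σ : ι → G} {x0 y0 : Ω}

omit [Fintype G] in
/-- The number of points is at most the bound for the fibres times the number of points of the
quotient. -/
theorem BV_count [Fintype Ω] {Y : Type} [Fintype Y] [DecidableEq Y] [MulAction G Y] {f : Ω → Y}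
    {C : ℕ} (hf : Quo G f C) : Fintype.card Ω ≤ C * Fintype.card Y := by
  classical
  have h1 := Finset.card_le_mul_card_image (f := f) (Finset.univ : Finset Ω) C (by
    intro a ha
    obtain ⟨x, -, hx⟩ := Finset.mem_image.1 ha
    have h2 := hf.fib x
    rw [Nat.card_eq_fintype_card, Fintype.card_subtype, hx] at h2
    exact h2)
  rw [Finset.card_univ] at h1
  exact le_trans h1 (Nat.mul_le_mul_left _ (Finset.card_le_univ _))

omit [Fintype G] in
theorem BV_one [Finite Ω] {Y : Type} [MulAction G Y] {f : Ω → Y}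
    {C : ℕ} (hf : Quo G f C) : 1 ≤ C := by
  obtain ⟨y, -, -⟩ := hf.two
  obtain ⟨x, -⟩ := hf.surj y
  refine le_trans ?_ (hf.fib x)
  have : Nonempty {z // f z = f x} := ⟨⟨x, rfl⟩⟩
  exact Nat.card_pos

theorem BV_gen (K D d E E' P : ℕ) (h : d ≤ D) (hE : E = E') (hP : P = K * (2 * D + 1) ^ E) :
    K * (2 * d + 1) ^ E' ≤ P := by
  subst hE
  rw [hP]
  exact Nat.mul_le_mul_left _ (Nat.pow_le_pow_left (by omega) _)

theorem BV_gen1 (K D E P : ℕ) (hK : 1 ≤ K) (hP : P = K * (2 * D + 1) ^ E) : 1 ≤ P := by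
  rw [hP]
  exact Nat.mul_pos hK (Nat.pow_pos (Nat.succ_pos _))

theorem BV_gen2 (K D E P : ℕ) (hK : 1 ≤ K) (h : K * (2 * D + 1) ^ E ≤ P) :
    (2 * D + 1) ^ E ≤ P :=
  le_trans (Nat.le_mul_of_pos_left _ hK) h

/-- The definition of `Pp` (the variable keeps the kernel from evaluating the power). -/
theorem BV_def (z : ℕ) : Pp = Kk * (2 * dmax + 1) ^ ((fun _ : ℕ => R1) z) := rfl

theorem BV_Pp {d : ℕ} (hd : d ≤ dmax) : Kk * (2 * d + 1) ^ (2 * Kk ^ 2) ≤ Pp :=
  BV_gen Kk dmax d ((fun _ : ℕ => R1) d) (2 * Kk ^ 2) Pp hd rfl (BV_def d)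

theorem BV_Kk : 1 ≤ Kk := by
  unfold Kk
  omega

theorem BV_Pp0 (z : ℕ) : 1 ≤ Pp :=
  BV_gen1 Kk dmax ((fun _ : ℕ => R1) z) Pp BV_Kk (BV_def z)

theorem BV_Pp1 : 1 ≤ Pp := BV_Pp0 0

theorem BV_C' {d : ℕ} (hd : d ≤ dmax) : (2 * d + 1) ^ (2 * Kk ^ 2) ≤ Pp :=
  BV_gen2 Kk d (2 * Kk ^ 2) Pp BV_Kk (BV_Pp hd)

theorem BV_fin (n x B P : ℕ) (h : x ≤ 12 * B * (1 * P ^ n) ^ 2) : x ≤ 12 * B * (P ^ n) ^ 2 := by
  rw [Nat.one_mul] at h
  exact h

theorem BV_BR : 1 ≤ BR := by
  unfold BR
  omega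

theorem BV_arith {x B C P Q : ℕ} (hB : 1 ≤ B) (hC : 1 ≤ C) (hP : 1 ≤ P) (hQ : 1 ≤ Q)
    (h : x ≤ C * P ∨ x ≤ C * B ∨ x ≤ 12 * C ^ 2) : x ≤ 12 * B * (C * (Q * P)) ^ 2 := by
  have h1 : C ≤ C * (Q * P) := Nat.le_mul_of_pos_right _ (Nat.mul_pos hQ hP)
  have h2 : C * P ≤ C * (Q * P) := Nat.mul_le_mul_left _ (Nat.le_mul_of_pos_left _ hQ)
  have h3 : 1 ≤ C * (Q * P) := le_trans hC h1
  have h4 : C * (Q * P) ≤ (C * (Q * P)) ^ 2 := by
    rw [pow_two]; exact Nat.le_mul_of_pos_right _ h3
  have h5 : C ^ 2 ≤ (C * (Q * P)) ^ 2 := Nat.pow_le_pow_left h1 2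
  generalize (C * (Q * P)) ^ 2 = Z at *
  have h6 : 12 * Z ≤ 12 * B * Z := by
    rw [Nat.mul_assoc]
    exact Nat.mul_le_mul_left _ (Nat.le_mul_of_pos_left _ hB)
  rcases h with h | h | h
  · omega
  · have h7 : C * B ≤ Z * B := Nat.mul_le_mul_right _ (by omega)
    have h8 : 12 * B * Z = 12 * (Z * B) := by ring
    omega
  · omega

/-- **Composition with the quotient by an invariant relation.**

Proof.  `Y' = Quotient` of the setoid `e` with the induced action (`he.map`; define the instance with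
`Quotient.map`), `f' = Quotient.mk ∘ f`.  Fibres: the fibre of `f'` over the class of `f x` is the union of the
fibres of `f` over the at most `C'` points of the class, so it has at most `C * C'` points.  `two`: `hne`
(`f x0` and `f y0` are not related).  Valency: every point `x` of `Y` has `d` outgoing arcs (`outdeg`).  The
out-neighbours of the class of `x` in `Y'` are the classes of the ends of these arcs: an arc of `Y'` starting
at the class of `x` is the image of an arc `(z, w)` with `e x z` (`quo_arc`), and by `hcov` also of an arc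
`(x, w')`.  By `h2` every such class contains at least two ends of arcs starting at `x`, so there are at most
`d / 2` classes. -/
theorem quo_quo {Y : Type} [Fintype Y] [DecidableEq Y] [MulAction G Y] {f : Ω → Y} {C : ℕ}
    (hf : Quo G f C) [Finite Ω] {e : Y → Y → Prop} (he : Inv G e) {C' : ℕ}
    (hC' : ∀ x, Nat.card {z // e x z} ≤ C') (hne : ¬ e (f x0) (f y0)) {d : ℕ}
    (htr : ∀ x y : Y, ∃ g : G, g • x = y)
    (hd : (arcs G (f x0) (f y0)).card = Fintype.card Y * d)
    (hcov : ∀ x z w, e x z → (z, w) ∈ arcs G (f x0) (f y0) →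
      ∃ w', e w w' ∧ (x, w') ∈ arcs G (f x0) (f y0))
    (h2 : ∀ x y, (x, y) ∈ arcs G (f x0) (f y0) →
      ∃ y', y' ≠ y ∧ e y y' ∧ (x, y') ∈ arcs G (f x0) (f y0)) :
    ∃ (Y' : Type) (_ : Fintype Y') (_ : DecidableEq Y') (_ : MulAction G Y') (f' : Ω → Y') (d' : ℕ),
      Quo G f' (C * C') ∧ (arcs G (f' x0) (f' y0)).card = Fintype.card Y' * d' ∧ 2 * d' ≤ d := by
  classical
  have : Fintype Ω := Fintype.ofFinite Ω
  let s : Setoid Y := ⟨e, he.eqv⟩
  let act : MulAction G (Quotient s) :=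
    { smul := fun g => Quotient.map (fun x => g • x) (fun x y h => he.map g x y h)
      one_smul := by
        intro q
        induction q using Quotient.ind with
        | _ x => exact congrArg (Quotient.mk s) (one_smul G x)
      mul_smul := by
        intro g g' q
        induction q using Quotient.ind with
        | _ x => exact congrArg (Quotient.mk s) (mul_smul g g' x) }
  let ft : Fintype (Quotient s) := Fintype.ofFinite _
  let dq : DecidableEq (Quotient s) := Classical.decEq _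
  have hmk : ∀ (g : G) (x : Y), g • (Quotient.mk s x) = Quotient.mk s (g • x) := fun _ _ => rfl
  have hmkf : ∀ (g : G) (x : Ω), Quotient.mk s (f (g • x)) = g • Quotient.mk s (f x) := by
    intro g x
    rw [hf.map, hmk]
  have hne' : Quotient.mk s (f x0) ≠ Quotient.mk s (f y0) := fun h => hne (Quotient.exact h)
  have hneY : f x0 ≠ f y0 := fun h => hne (by rw [h]; exact he.eqv.refl _)
  have htr' : ∀ x y : Quotient s, ∃ g : G, g • x = y := by
    intro x y
    induction x using Quotient.ind with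
    | _ x =>
      induction y using Quotient.ind with
      | _ y =>
        obtain ⟨g, hg⟩ := htr x y
        exact ⟨g, by rw [hmk, hg]⟩
  have horb : Orb (PG G (Quotient s)) (arcs G (Quotient.mk s (f x0)) (Quotient.mk s (f y0))) :=
    orbOf_orb hne'
  have horbY : Orb (PG G Y) (arcs G (f x0) (f y0)) := orbOf_orb hneY
  obtain ⟨d', -, hd2⟩ := exists_deg (tr_PG htr') horb
  refine ⟨Quotient s, ft, dq, act, fun x => Quotient.mk s (f x), d', ?_, hd2, ?_⟩
  · refine ⟨hmkf, ?_, ?_, ⟨_, _, hne'⟩⟩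
    · intro q
      induction q using Quotient.ind with
      | _ y =>
        obtain ⟨x, hx⟩ := hf.surj y
        refine ⟨x, ?_⟩
        show Quotient.mk s (f x) = _
        rw [hx]
    · intro x
      rw [Nat.card_eq_fintype_card, Fintype.card_subtype]
      have h1 := Finset.card_le_mul_card_image (f := f)
        (Finset.univ.filter fun z : Ω => Quotient.mk s (f z) = Quotient.mk s (f x)) C (by
          intro a ha
          obtain ⟨x', -, hx'⟩ := Finset.mem_image.1 ha
          have h2 := hf.fib x'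
          rw [Nat.card_eq_fintype_card, Fintype.card_subtype, hx'] at h2
          refine le_trans (Finset.card_le_card ?_) h2
          intro z hz
          rw [Finset.mem_filter] at hz ⊢
          exact ⟨Finset.mem_univ _, hz.2⟩)
      have h3 : ((Finset.univ.filter fun z : Ω => Quotient.mk s (f z) =
          Quotient.mk s (f x)).image f).card ≤ C' := by
        have h4 := hC' (f x)
        rw [Nat.card_eq_fintype_card, Fintype.card_subtype] at h4
        refine le_trans (Finset.card_le_card ?_) h4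
        intro y hy
        obtain ⟨z, hz, hzy⟩ := Finset.mem_image.1 hy
        rw [Finset.mem_filter] at hz ⊢
        refine ⟨Finset.mem_univ _, ?_⟩
        rw [← hzy]
        exact he.eqv.symm (Quotient.exact hz.2)
      exact le_trans h1 (Nat.mul_le_mul_left _ h3)
  · have h1 := outdeg (tr_PG htr') horb hd2 (Quotient.mk s (f x0))
    have h2' := outdeg (tr_PG htr) horbY hd (f x0)
    set S := (arcs G (f x0) (f y0)).filter fun p => p.1 = f x0 with hS
    set T := (arcs G (Quotient.mk s (f x0)) (Quotient.mk s (f y0))).filter fun p =>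
      p.1 = Quotient.mk s (f x0) with hT
    have hmaps : ∀ p ∈ S, (Quotient.mk s p.1, Quotient.mk s p.2) ∈ T := by
      intro p hp
      rw [hS, Finset.mem_filter, mem_arcs] at hp
      obtain ⟨⟨g, hg1, hg2⟩, hp1⟩ := hp
      rw [hT, Finset.mem_filter, mem_arcs]
      refine ⟨⟨g, ?_, ?_⟩, ?_⟩
      · rw [hmk, hg1]
      · rw [hmk, hg2]
      · rw [hp1]
    rw [← h1, ← h2', Finset.card_eq_sum_card_fiberwise
      (f := fun p : Y × Y => (Quotient.mk s p.1, Quotient.mk s p.2)) (s := S) (t := T)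
      (fun p hp => Finset.mem_coe.2 (hmaps p (Finset.mem_coe.1 hp)))]
    have h5 : ∑ _q ∈ T, 2 = 2 * T.card := by
      rw [Finset.sum_const, smul_eq_mul, Nat.mul_comm]
    rw [← h5]
    apply Finset.sum_le_sum
    intro q hq
    rw [hT, Finset.mem_filter, mem_arcs] at hq
    obtain ⟨⟨g, hg1, hg2⟩, hq1⟩ := hq
    rw [hmk] at hg1 hg2
    have hzx : e (f x0) (g • f x0) := by
      have : Quotient.mk s (f x0) = Quotient.mk s (g • f x0) := by rw [hg1, hq1]
      exact Quotient.exact this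
    have hzw : (g • f x0, g • f y0) ∈ arcs G (f x0) (f y0) := mem_arcs.2 ⟨g, rfl, rfl⟩
    obtain ⟨w', hw1, hw2⟩ := hcov (f x0) (g • f x0) (g • f y0) hzx hzw
    obtain ⟨y', hy1, hy2, hy3⟩ := h2 (f x0) w' hw2
    have e1 : Quotient.mk s w' = q.2 := by
      rw [← hg2]
      exact (Quotient.sound hw1).symm
    have e2 : Quotient.mk s y' = q.2 := by
      rw [← e1]
      exact (Quotient.sound hy2).symm
    have hmem : ∀ w, Quotient.mk s w = q.2 → (f x0, w) ∈ arcs G (f x0) (f y0) →
        (f x0, w) ∈ S.filter fun p : Y × Y => (Quotient.mk s p.1, Quotient.mk s p.2) = q := by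
      intro w hw hw'
      rw [Finset.mem_filter, hS, Finset.mem_filter]
      exact ⟨⟨hw', rfl⟩, Prod.ext hq1.symm hw⟩
    refine Finset.one_lt_card.2 ⟨_, hmem w' e1 hw2, _, hmem y' e2 hy3, ?_⟩
    intro hh
    exact hy1 (congrArg Prod.snd hh).symm

/-- **Bounded valency.**

Proof.  Induction on `j`.  `j = 0`: `d = 0`, but `arcs` is not empty.  Step: let `D = arcs (f x0) (f y0)`,
`G' = PG G Y`.  If `card Y ≤ Pp`: `card Ω ≤ C * card Y ≤ C * Pp` (`fib`, `surj`).  Let `Pp < card Y`, so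
`Kk * (2 d + 1) ^ R1 < card Y`.
(1) There is `g ∈ AutD D`, `g ≠ 1`, with `(Fx g)ᶜ.card ≤ Kk`: `loc_quot` with `K = Kk` gives `e`; it is invariant under
`G` (`autD_orb`), `quo_quo` gives `Y'`, `f'`, `d'` with fibres at most `C * Pp` and `d' < 2 ^ j`; induction.
(2) Otherwise, if `∑ (1 - 1 / orderOf (toPermHom G Y (σ c))) ≤ 2`: `lemT`.  Otherwise `rigid_bound` with `quo_cost`:
`card Y ≤ BR`, so `card Ω ≤ C * BR`. -/
theorem bv (h : Sys R σ x0 y0) [Fintype Ω] (j : ℕ) : ∀ {Y : Type} [Fintype Y] [DecidableEq Y]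
    [MulAction G Y] {f : Ω → Y} {C d : ℕ} (_ : Quo G f C)
    (_ : (arcs G (f x0) (f y0)).card = Fintype.card Y * d) (_ : d ≤ dmax) (_ : d < 2 ^ j),
    Fintype.card Ω ≤ 12 * BR * (C * Pp ^ j) ^ 2 := by
  classical
  induction j with
  | zero =>
    intro Y _ _ _ f C d hf hd hd1 hd2
    exfalso
    have h0 : d = 0 := by
      have : d < 1 := by simpa using hd2
      omega
    rw [h0, Nat.mul_zero] at hd
    obtain ⟨p, hp⟩ := (h.quo_orb hf).ne
    rw [Finset.card_eq_zero.1 hd] at hp
    exact absurd hp (Finset.notMem_empty _)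
  | succ j ih =>
    intro Y _ _ _ f C d hf hd hd1 hd2
    have hC1 : 1 ≤ C := BV_one hf
    have hcount := BV_count hf
    have hPj : 1 ≤ Pp ^ j := Nat.one_le_pow _ _ BV_Pp1
    rw [pow_succ Pp j]
    rcases le_or_gt (Fintype.card Y) Pp with hsm | hbig
    · exact BV_arith BV_BR hC1 BV_Pp1 hPj
        (Or.inl (le_trans hcount (Nat.mul_le_mul_left _ hsm)))
    · have horb := h.quo_orb hf
      have hconn := h.quo_conn hf
      have htrY : ∀ x y : Y, ∃ g : G, g • x = y := h.quo_tr hf
      have htr := tr_PG htrY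
      by_cases hex : ∃ g ∈ AutD (arcs G (f x0) (f y0)), g ≠ 1 ∧ (Fx g)ᶜ.card ≤ Kk
      · obtain ⟨g, hg, hg1, hgK⟩ := hex
        obtain ⟨e, he1, he2, he3, he4, he5, he6⟩ := loc_quot htr horb hconn hd hg hg1 hgK
          (lt_of_le_of_lt (BV_Pp hd1) hbig)
        have hinv : Inv G e := by
          refine ⟨he1, ?_⟩
          intro a x y hxy
          exact he2 (toPermHom G Y a) ((autD_orb horb).1 ⟨a, rfl⟩) x y hxy
        have hmem : (f x0, f y0) ∈ arcs G (f x0) (f y0) := mem_arcs.2 ⟨1, by simp, by simp⟩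
        obtain ⟨Y', _, _, _, f', d', hq, hq1, hq2⟩ := quo_quo hf hinv he3 (he4 _ _ hmem) htrY hd
          he5 he6
        have h3 := ih hq hq1 (by omega) (by
          have : (2 : ℕ) ^ (j + 1) = 2 * 2 ^ j := by ring
          omega)
        refine le_trans h3 (Nat.mul_le_mul_left _ (Nat.pow_le_pow_left ?_ 2))
        have h4 := BV_C' hd1
        calc C * (2 * d + 1) ^ (2 * Kk ^ 2) * Pp ^ j ≤ C * Pp * Pp ^ j :=
              Nat.mul_le_mul_right _ (Nat.mul_le_mul_left _ h4)
          _ = C * (Pp ^ j * Pp) := by rw [Nat.mul_assoc, Nat.mul_comm Pp]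
      · by_cases hs : ∑ c ∈ R, (1 - 1 / (orderOf (toPermHom G Y (σ c)) : ℚ)) ≤ 2
        · exact BV_arith BV_BR hC1 BV_Pp1 hPj (Or.inr (Or.inr (lemT h hf hs)))
        · push Not at hex hs
          have h5 := rigid_bound htr horb hconn R (fun c => toPermHom G Y (σ c))
            (fun c _ => ⟨σ c, rfl⟩) (h.quo_cost hf).1 (h.quo_cost hf).2 hs
            (fun g hg hgK => by
              by_contra hne
              exact absurd hgK (not_le.2 (hex g hg hne)))
          exact BV_arith BV_BR hC1 BV_Pp1 hPj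
            (Or.inr (Or.inl (le_trans hcount (Nat.mul_le_mul_left _ h5))))

/-- The case `Y = Ω`.  Proof: `quo_id`, `d ≤ dmax = 84 ^ 87 < 2 ^ 557`. -/
theorem bv_id (h : Sys R σ x0 y0) [Fintype Ω] [DecidableEq Ω] {d : ℕ}
    (hd : (arcs G x0 y0).card = Fintype.card Ω * d) (hd1 : d ≤ dmax) :
    Fintype.card Ω ≤ 12 * BR * (Pp ^ 557) ^ 2 := by
  have hlt : dmax < 2 ^ 557 := by
    unfold dmax
    rw [show (557 : ℕ) = 200 + 200 + 157 from rfl, pow_add, pow_add]
    norm_num
  exact BV_fin 557 _ BR Pp (bv h 557 h.quo_id hd hd1 (lt_of_le_of_lt hd1 hlt))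

end WildT
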