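import Pool.Agent.helper44.TG.ChiA

/-! Burnside's lemma and the inequality between arithmetic and geometric mean. -/

namespace WildT

open MulAction

variable {G : Type} [Group G] [Fintype G] {ι : Type}

private theorem Brn_count {o m : ℕ} (hm : 0 < m) (h : m ∣ o) :
    (((Finset.range o).filter fun k => m ∣ k).card : ℚ) = o / (m : ℚ) := by
  obtain ⟨q, rfl⟩ := h
  have h1 : (Finset.range (m * q)).filter (fun k => m ∣ k) = (Finset.range q).image (m * ·) := by
    ext k
    simp only [Finset.mem_filter, Finset.mem_range, Finset.mem_image]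
    constructor
    · rintro ⟨hk, r, rfl⟩
      exact ⟨r, Nat.lt_of_mul_lt_mul_left hk, rfl⟩
    · rintro ⟨r, hr, rfl⟩
      exact ⟨Nat.mul_lt_mul_of_pos_left hr hm, dvd_mul_right _ _⟩
  rw [h1, Finset.card_image_of_injective _ (fun a b hab => Nat.eq_of_mul_eq_mul_left hm hab),
    Finset.card_range]
  have hm' : (m : ℚ) ≠ 0 := by exact_mod_cast hm.ne'
  push_cast
  field_simp

/-- For a set `S` of points of a `G`-set: the sum of `1 / period g z` over `S` is the average over
`k < orderOf g` of the number of the points of `S` fixed by `g ^ k`.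

Proof.  For every `z` the number of the `k < orderOf g` with `g ^ k • z = z` is
`orderOf g / period g z` (`MulAction.pow_smul_eq_iff_period_dvd`, `MulAction.period_dvd_orderOf`; compare
`count_period` in helper21/LD/Burn.lean); exchange the sums. -/
theorem sum_period {Z : Type} [MulAction G Z] [DecidableEq Z] (g : G) (S : Finset Z) :
    ∑ z ∈ S, 1 / (period g z : ℚ) =
      (∑ k ∈ Finset.range (orderOf g), ((S.filter fun z => g ^ k • z = z).card : ℚ)) /
        orderOf g := by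
  have ho : (0 : ℚ) < orderOf g := by exact_mod_cast orderOf_pos g
  rw [eq_div_iff ho.ne', Finset.sum_mul]
  have h5 : ∀ z : Z, 1 / (period g z : ℚ) * orderOf g =
      ∑ k ∈ Finset.range (orderOf g), (if g ^ k • z = z then (1 : ℚ) else 0) := by
    intro z
    rw [Finset.sum_boole]
    have h6 : (Finset.range (orderOf g)).filter (fun k => g ^ k • z = z) =
        (Finset.range (orderOf g)).filter (fun k => period g z ∣ k) :=
      Finset.filter_congr fun k _ => pow_smul_eq_iff_period_dvd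
    rw [h6, Brn_count (Nat.pos_of_dvd_of_pos (period_dvd_orderOf g z) (orderOf_pos g))
      (period_dvd_orderOf g z)]
    ring
  rw [Finset.sum_congr rfl (fun z _ => h5 z), Finset.sum_comm]
  refine Finset.sum_congr rfl fun k _ => ?_
  rw [Finset.sum_boole]

/-- The sum of the excess over a finite set of points. -/
theorem Brn_exz {Z : Type} [MulAction G Z] [DecidableEq Z] (R : Finset ι) (σ : ι → G)
    (S : Finset Z) :
    ∑ z ∈ S, exz R σ z = (S.card : ℚ) * ((R.card : ℚ) - 2) -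
      ∑ c ∈ R, (∑ k ∈ Finset.range (orderOf (σ c)),
        ((S.filter fun z => σ c ^ k • z = z).card : ℚ)) / orderOf (σ c) := by
  unfold exz
  rw [Finset.sum_sub_distrib, Finset.sum_comm]
  have h1 : ∀ c ∈ R, ∑ z ∈ S, (1 - 1 / (period (σ c) z : ℚ)) = (S.card : ℚ) -
      (∑ k ∈ Finset.range (orderOf (σ c)),
        ((S.filter fun z => σ c ^ k • z = z).card : ℚ)) / orderOf (σ c) := by
    intro c _
    rw [Finset.sum_sub_distrib, sum_period, Finset.sum_const, nsmul_eq_mul, mul_one]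
  rw [Finset.sum_congr rfl h1, Finset.sum_sub_distrib, Finset.sum_const, Finset.sum_const,
    nsmul_eq_mul, nsmul_eq_mul]
  ring

section

variable {W X1 X2 : Type} [Fintype X1] [Fintype X2] [DecidableEq X1] [DecidableEq X2]
  [DecidableEq W] [MulAction G W] [MulAction G X1] [MulAction G X2]

/-- The pairs of points of `X1`, `X2` with the same image in `W`. -/
def fp (p1 : X1 → W) (p2 : X2 → W) : Finset (X1 × X2) := Finset.univ.filter fun p => p1 p.1 = p2 p.2

/-- Fixed points in a fibre product: with `a w`, `b w` the numbers of the fixed points over `w`, the number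
of the fixed pairs is `∑ a w b w`, summed over the image `V` of `p1`.

Proof.  A fixed pair over `w` is a pair of fixed points over `w`.  (`Finset.card_eq_sum_card_fiberwise`.) -/
theorem card_fp [Fintype W] (p1 : X1 → W) (p2 : X2 → W) (g : G) :
    ((fp p1 p2).filter fun p => g • p = p).card =
      ∑ w : W, (Finset.univ.filter fun u => p1 u = w ∧ g • u = u).card *
        (Finset.univ.filter fun u => p2 u = w ∧ g • u = u).card := by
  rw [Finset.card_eq_sum_card_fiberwise (f := fun p => p1 p.1) (t := Finset.univ)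
    (fun p _ => Finset.mem_coe.2 (Finset.mem_univ _))]
  refine Finset.sum_congr rfl fun w _ => ?_
  rw [← Finset.card_product]
  congr 1
  ext ⟨a, b⟩
  simp only [fp, Finset.mem_filter, Finset.mem_product, Finset.mem_univ, true_and, Prod.smul_mk,
    Prod.mk.injEq]
  constructor
  · rintro ⟨⟨h1, h2, h3⟩, h4⟩
    exact ⟨⟨h4, h2⟩, by rw [← h1]; exact h4, h3⟩
  · rintro ⟨⟨h1, h2⟩, h3, h4⟩
    exact ⟨⟨by rw [h1, h3], h2, h4⟩, h1⟩

theorem Brn_card [Fintype W] {p1 : X1 → W} {p2 : X2 → W} {κ1 κ2 : ℕ}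
    (h1 : ∀ w, (Finset.univ.filter fun u => p1 u = w).card = κ1)
    (h2 : ∀ w, (Finset.univ.filter fun u => p2 u = w).card = κ2) :
    ((fp p1 p2).card : ℚ) = Fintype.card W * κ1 * κ2 := by
  have h3 : (fp p1 p2).card = ∑ w : W, κ1 * κ2 := by
    rw [Finset.card_eq_sum_card_fiberwise (f := fun p => p1 p.1) (t := Finset.univ)
      (fun p _ => Finset.mem_coe.2 (Finset.mem_univ _))]
    refine Finset.sum_congr rfl fun w _ => ?_
    rw [← h1 w, ← h2 w, ← Finset.card_product]
    congr 1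
    ext ⟨a, b⟩
    simp only [fp, Finset.mem_filter, Finset.mem_product, Finset.mem_univ, true_and]
    constructor
    · rintro ⟨h3, h4⟩
      exact ⟨h4, by rw [← h3]; exact h4⟩
    · rintro ⟨h3, h4⟩
      exact ⟨by rw [h3, h4], h3⟩
  rw [h3, Finset.sum_const, Finset.card_univ, smul_eq_mul]
  push_cast
  ring

/-- The defect of the inequality as a sum of squares. -/
theorem Brn_id [Fintype W] {p1 : X1 → W} {p2 : X2 → W} {κ1 κ2 : ℕ}
    (h1 : ∀ w, (Finset.univ.filter fun u => p1 u = w).card = κ1)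
    (h2 : ∀ w, (Finset.univ.filter fun u => p2 u = w).card = κ2) (R : Finset ι) (σ : ι → G) :
    2 * κ1 * κ2 * ∑ p ∈ fp p1 p2, exz R σ p -
      ((κ2 : ℚ) ^ 2 * ∑ p ∈ fp p1 p1, exz R σ p + (κ1 : ℚ) ^ 2 * ∑ p ∈ fp p2 p2, exz R σ p) =
      ∑ c ∈ R, (∑ k ∈ Finset.range (orderOf (σ c)), ∑ w : W,
        ((κ2 : ℚ) * ((Finset.univ.filter fun u => p1 u = w ∧ σ c ^ k • u = u).card : ℚ) -
          κ1 * ((Finset.univ.filter fun u => p2 u = w ∧ σ c ^ k • u = u).card : ℚ)) ^ 2) /
            orderOf (σ c) := by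
  have key : ∀ g : G, ∑ w : W,
      ((κ2 : ℚ) * ((Finset.univ.filter fun u => p1 u = w ∧ g • u = u).card : ℚ) -
        κ1 * ((Finset.univ.filter fun u => p2 u = w ∧ g • u = u).card : ℚ)) ^ 2 =
      (κ2 : ℚ) ^ 2 * (((fp p1 p1).filter fun p => g • p = p).card : ℚ) +
        (κ1 : ℚ) ^ 2 * (((fp p2 p2).filter fun p => g • p = p).card : ℚ) -
        2 * κ1 * κ2 * (((fp p1 p2).filter fun p => g • p = p).card : ℚ) := by
    intro g
    rw [card_fp, card_fp, card_fp]
    push_cast
    rw [Finset.mul_sum, Finset.mul_sum, Finset.mul_sum, ← Finset.sum_add_distrib,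
      ← Finset.sum_sub_distrib]
    refine Finset.sum_congr rfl fun w _ => ?_
    ring
  have hsum : ∀ c ∈ R, (∑ k ∈ Finset.range (orderOf (σ c)), ∑ w : W,
        ((κ2 : ℚ) * ((Finset.univ.filter fun u => p1 u = w ∧ σ c ^ k • u = u).card : ℚ) -
          κ1 * ((Finset.univ.filter fun u => p2 u = w ∧ σ c ^ k • u = u).card : ℚ)) ^ 2) /
            orderOf (σ c) =
      (κ2 : ℚ) ^ 2 * ((∑ k ∈ Finset.range (orderOf (σ c)),
        (((fp p1 p1).filter fun z => σ c ^ k • z = z).card : ℚ)) / orderOf (σ c)) +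
      (κ1 : ℚ) ^ 2 * ((∑ k ∈ Finset.range (orderOf (σ c)),
        (((fp p2 p2).filter fun z => σ c ^ k • z = z).card : ℚ)) / orderOf (σ c)) -
      2 * κ1 * κ2 * ((∑ k ∈ Finset.range (orderOf (σ c)),
        (((fp p1 p2).filter fun z => σ c ^ k • z = z).card : ℚ)) / orderOf (σ c)) := by
    intro c _
    rw [Finset.sum_congr rfl fun k _ => key (σ c ^ k), Finset.sum_sub_distrib,
      Finset.sum_add_distrib, ← Finset.mul_sum, ← Finset.mul_sum, ← Finset.mul_sum]
    ring
  rw [Finset.sum_congr rfl hsum, Finset.sum_sub_distrib, Finset.sum_add_distrib,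
    ← Finset.mul_sum, ← Finset.mul_sum, ← Finset.mul_sum, Brn_exz, Brn_exz, Brn_exz,
    Brn_card h1 h2, Brn_card h1 h1, Brn_card h2 h2]
  ring

/-- **The inequality.**  `p1`, `p2` equivariant with all fibres of cardinality `κ1`, `κ2`.

Proof.  For every `g = σ c` and every `k`: with `a w`, `b w` as in `card_fp` for `g ^ k`,
`2 κ1 κ2 a b ≤ κ2 ^ 2 a ^ 2 + κ1 ^ 2 b ^ 2`; sum over `w` and `k` (`card_fp` for `(p1, p2)`, `(p1, p1)`,
`(p2, p2)`; `sum_period`): `2 κ1 κ2 ∑ 1 / period ≤ κ2 ^ 2 ∑ 1 / period + κ1 ^ 2 ∑ 1 / period` over the three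
fibre products.  Their cardinalities are `N κ1 κ2`, `N κ1 ^ 2`, `N κ2 ^ 2` with `N = card W`
(`card_fp` for `g = 1`), so the terms `1` and `- 2` of the excess contribute the same number to both
sides. -/
theorem burnside_ineq [Fintype W] {p1 : X1 → W} {p2 : X2 → W}
    (hp1 : ∀ (g : G) (u : X1), p1 (g • u) = g • p1 u)
    (hp2 : ∀ (g : G) (u : X2), p2 (g • u) = g • p2 u) {κ1 κ2 : ℕ}
    (h1 : ∀ w, (Finset.univ.filter fun u => p1 u = w).card = κ1)
    (h2 : ∀ w, (Finset.univ.filter fun u => p2 u = w).card = κ2) (R : Finset ι) (σ : ι → G) :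
    (κ2 : ℚ) ^ 2 * ∑ p ∈ fp p1 p1, exz R σ p + (κ1 : ℚ) ^ 2 * ∑ p ∈ fp p2 p2, exz R σ p ≤
      2 * κ1 * κ2 * ∑ p ∈ fp p1 p2, exz R σ p := by
  rw [← sub_nonneg, Brn_id h1 h2 R σ]
  refine Finset.sum_nonneg fun c _ => div_nonneg ?_ (Nat.cast_nonneg _)
  exact Finset.sum_nonneg fun k _ => Finset.sum_nonneg fun w _ => sq_nonneg _

/-- **The strict inequality.**  Proof: as before; for the given `c`, `k`, `w` (replace `k` by its remainder
modulo the order) the elementary inequality is strict. -/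
theorem burnside_strict [Fintype W] {p1 : X1 → W} {p2 : X2 → W}
    (hp1 : ∀ (g : G) (u : X1), p1 (g • u) = g • p1 u)
    (hp2 : ∀ (g : G) (u : X2), p2 (g • u) = g • p2 u) {κ1 κ2 : ℕ}
    (h1 : ∀ w, (Finset.univ.filter fun u => p1 u = w).card = κ1)
    (h2 : ∀ w, (Finset.univ.filter fun u => p2 u = w).card = κ2) (R : Finset ι) (σ : ι → G)
    {c : ι} (hc : c ∈ R) (k : ℕ) (w : W)
    (hne : κ2 * (Finset.univ.filter fun u => p1 u = w ∧ σ c ^ k • u = u).card ≠
      κ1 * (Finset.univ.filter fun u => p2 u = w ∧ σ c ^ k • u = u).card) :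
    (κ2 : ℚ) ^ 2 * ∑ p ∈ fp p1 p1, exz R σ p + (κ1 : ℚ) ^ 2 * ∑ p ∈ fp p2 p2, exz R σ p <
      2 * κ1 * κ2 * ∑ p ∈ fp p1 p2, exz R σ p := by
  rw [← sub_pos, Brn_id h1 h2 R σ]
  have hnn : ∀ c' ∈ R, 0 ≤ (∑ k ∈ Finset.range (orderOf (σ c')), ∑ w : W,
        ((κ2 : ℚ) * ((Finset.univ.filter fun u => p1 u = w ∧ σ c' ^ k • u = u).card : ℚ) -
          κ1 * ((Finset.univ.filter fun u => p2 u = w ∧ σ c' ^ k • u = u).card : ℚ)) ^ 2) /
            (orderOf (σ c') : ℚ) := fun c' _ => div_nonneg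
    (Finset.sum_nonneg fun k _ => Finset.sum_nonneg fun w _ => sq_nonneg _) (Nat.cast_nonneg _)
  refine Finset.sum_pos' hnn ⟨c, hc, div_pos ?_ (by exact_mod_cast orderOf_pos (σ c))⟩
  refine Finset.sum_pos' (fun k _ => Finset.sum_nonneg fun w _ => sq_nonneg _)
    ⟨k % orderOf (σ c), Finset.mem_range.2 (Nat.mod_lt _ (orderOf_pos (σ c))), ?_⟩
  refine Finset.sum_pos' (fun w _ => sq_nonneg _) ⟨w, Finset.mem_univ _, ?_⟩
  rw [pow_mod_orderOf]
  refine lt_of_le_of_ne (sq_nonneg _) (Ne.symm (pow_ne_zero 2 (sub_ne_zero.2 ?_)))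
  exact_mod_cast hne

end

end WildT
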