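import Pool.Agent.helper44.TG.ChiA

/-! Euler numbers of invariant sets, and first consequences for a system. -/

namespace WildT

open MulAction

variable {G : Type} [Group G] [Fintype G] {ι : Type}

/-- **Invariant sets.**  A nonempty invariant set whose points have stabilizers with Euler number at
least `v ≥ 0` has excess sum at least `v`.

Proof.  Strong induction on the cardinality of `S`: `S` is the disjoint union of the orbit of a point
`z0 ∈ S` (contained in `S`, with sum `chiJ (stabilizer z0) ≥ v` by `chiJ_orbit`) and of an invariant set,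
whose sum is nonnegative (if it is not empty, by induction at least `v`). -/
theorem sum_ge {Z : Type} [Fintype Z] [MulAction G Z] (R : Finset ι) (σ : ι → G) (S : Finset Z)
    (hS : ∀ (g : G), ∀ z ∈ S, g • z ∈ S) (hne : S.Nonempty) {v : ℚ} (hv : 0 ≤ v)
    (h : ∀ z ∈ S, v ≤ chiJ R σ (stabilizer G z)) : v ≤ ∑ z ∈ S, exz R σ z := by
  classical
  have key : ∀ n : ℕ, ∀ S : Finset Z, S.card = n → (∀ (g : G), ∀ z ∈ S, g • z ∈ S) → S.Nonempty →
      (∀ z ∈ S, v ≤ chiJ R σ (stabilizer G z)) → v ≤ ∑ z ∈ S, exz R σ z := by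
    intro n
    induction n using Nat.strong_induction_on with
    | _ n ih =>
      intro S hn hS hne h
      obtain ⟨z0, hz0⟩ := hne
      set O : Finset Z := Finset.univ.filter (fun z => ∃ g : G, g • z0 = z) with hO
      have hOS : O ⊆ S := by
        intro z hz
        rw [hO, Finset.mem_filter] at hz
        obtain ⟨-, g, rfl⟩ := hz
        exact hS g z0 hz0
      have hz0O : z0 ∈ O := by
        rw [hO, Finset.mem_filter]
        exact ⟨Finset.mem_univ _, 1, one_smul _ _⟩
      have hsum : ∑ z ∈ S, exz R σ z = ∑ z ∈ S \ O, exz R σ z + ∑ z ∈ O, exz R σ z :=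
        (Finset.sum_sdiff hOS).symm
      have hOsum : ∑ z ∈ O, exz R σ z = chiJ R σ (stabilizer G z0) := by
        rw [hO]
        convert chiJ_orbit R σ z0
      have h0 : v ≤ chiJ R σ (stabilizer G z0) := h z0 hz0
      have hrest : 0 ≤ ∑ z ∈ S \ O, exz R σ z := by
        rcases (S \ O).eq_empty_or_nonempty with he | hne'
        · rw [he, Finset.sum_empty]
        · have hlt : (S \ O).card < n := by
            rw [← hn]
            apply Finset.card_lt_card
            rw [Finset.ssubset_iff_subset_ne]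
            refine ⟨Finset.sdiff_subset, ?_⟩
            intro heq
            have : z0 ∈ S \ O := by rw [heq]; exact hz0
            exact (Finset.mem_sdiff.mp this).2 hz0O
          refine le_trans hv (ih _ hlt (S \ O) rfl ?_ hne' ?_)
          · intro g z hz
            rw [Finset.mem_sdiff] at hz ⊢
            refine ⟨hS g z hz.1, ?_⟩
            intro hgz
            apply hz.2
            rw [hO, Finset.mem_filter] at hgz ⊢
            obtain ⟨-, k, hk⟩ := hgz
            refine ⟨Finset.mem_univ _, g⁻¹ * k, ?_⟩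
            rw [mul_smul, hk, inv_smul_smul]
          · intro z hz
            exact h z (Finset.mem_sdiff.mp hz).1
      rw [hsum, hOsum]
      linarith
  exact key S.card S rfl hS hne h

/-- The kernel relation of an equivariant map is invariant. -/
theorem inv_of_map {Z Z' : Type} [MulAction G Z] [MulAction G Z'] {f : Z → Z'}
    (hf : ∀ (g : G) (z : Z), f (g • z) = g • f z) : Inv G (fun x y => f x = f y) := by
  refine ⟨⟨fun _ => rfl, fun h => h.symm, fun h1 h2 => h1.trans h2⟩, ?_⟩
  intro g x y h
  show f (g • x) = f (g • y)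
  rw [hf, hf]
  exact congrArg _ h

variable {Ω : Type} [MulAction G Ω] {R : Finset ι} {σ : ι → G} {x0 y0 : Ω}

/-- Subgroups of the stabilizer of two points of a proper block.  Proof: `tame`, `chiJ_le`. -/
theorem Sys.L2 (h : Sys R σ x0 y0) {r : Ω → Ω → Prop} (hr : Inv G r) (hp : Ppr r) {x x' : Ω}
    (hne : x ≠ x') (hx : r x x') {J' : Subgroup G} (hJ : J' ≤ st2 G x x') :
    2 ≤ chiJ R σ J' := by
  exact chiJ_le R σ hJ (by norm_num) (h.tame r hr hp x x' hne hx)

/-- `-2 ≤ chiJ J`.  Proof: `even`. -/
theorem Sys.ge (h : Sys R σ x0 y0) (J : Subgroup G) : -2 ≤ chiJ R σ J := by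
  obtain ⟨k, hk, h1⟩ := h.even J
  rw [h1]
  have : (-1 : ℚ) ≤ (k : ℚ) := by exact_mod_cast hk
  linarith

/-- Subgroups containing a point stabilizer have Euler number `-2`.

Proof.  `chiJ_mono`: `card J * chiJ J ≤ card (stabilizer x) * (-2) < 0`, so `chiJ J < 0`; by `even` it is an
even integer and at least `-2`. -/
theorem Sys.over (h : Sys R σ x0 y0) {x : Ω} {J : Subgroup G} (hJ : stabilizer G x ≤ J) :
    chiJ R σ J = -2 := by
  have h1 := chiJ_mono R σ hJ
  rw [h.base x] at h1
  have hs : (0 : ℚ) < (Nat.card (stabilizer G x) : ℚ) := by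
    exact_mod_cast Nat.card_pos
  have hj : (0 : ℚ) < (Nat.card J : ℚ) := by
    exact_mod_cast Nat.card_pos
  have hneg : chiJ R σ J < 0 := by
    by_contra hcon
    push Not at hcon
    have : 0 ≤ (Nat.card J : ℚ) * chiJ R σ J := mul_nonneg hj.le hcon
    linarith
  obtain ⟨k, hk, h2⟩ := h.even J
  rw [h2] at hneg ⊢
  have hk0 : k < 0 := by
    have : (k : ℚ) < 0 := by linarith
    exact_mod_cast this
  have : k = -1 := by omega
  rw [this]
  norm_num

/-- An arc is not contained in a proper block.  Proof: `tame` and `low`. -/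
theorem Sys.not_block (h : Sys R σ x0 y0) {r : Ω → Ω → Prop} (hr : Inv G r) (hp : Ppr r) (g : G) :
    ¬ r (g • x0) (g • y0) := by
  intro hg
  have h1 := hr.map g⁻¹ _ _ hg
  rw [inv_smul_smul, inv_smul_smul] at h1
  have h2 := h.tame r hr hp x0 y0 h.ne h1
  have h3 := h.low
  linarith

/-- The sum of the excess over a quotient is `-2`.

Proof.  `G` is transitive on `Y` (`surj`, `tr`, `map`), so `chiJ_orbit` for a point `f x`; its stabilizer
contains the stabilizer of `x`; `over`. -/
theorem Sys.quo_sum (h : Sys R σ x0 y0) {Y : Type} [Fintype Y] [MulAction G Y] {f : Ω → Y}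
    {C : ℕ} (hf : Quo G f C) : ∑ y : Y, exz R σ y = -2 := by
  classical
  have h3 : stabilizer G x0 ≤ stabilizer G (f x0) := by
    intro g hg
    rw [mem_stabilizer_iff] at hg ⊢
    rw [← hf.map, hg]
  have h4 := h.over h3
  have h1 := chiJ_orbit R σ (f x0)
  rw [Finset.filter_true_of_mem (fun y _ => ?_)] at h1
  · rw [h1]
    exact h4
  · obtain ⟨x, rfl⟩ := hf.surj y
    obtain ⟨g, hg⟩ := h.tr x0 x
    exact ⟨g, by rw [← hf.map, hg]⟩

/-- The fibres of a quotient are proper blocks, so the ends of an arc have different images.  Proof: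
`inv_of_map`, `Ppr` by `two` and `surj`, `not_block`. -/
theorem Sys.quo_ne (h : Sys R σ x0 y0) {Y : Type} [MulAction G Y] {f : Ω → Y}
    {C : ℕ} (hf : Quo G f C) : f x0 ≠ f y0 := by
  intro heq
  have hr : Inv G (fun x y => f x = f y) := inv_of_map hf.map
  have hp : Ppr (fun x y => f x = f y) := by
    obtain ⟨y, y', hne⟩ := hf.two
    obtain ⟨x, rfl⟩ := hf.surj y
    obtain ⟨x', rfl⟩ := hf.surj y'
    exact ⟨x, x', hne⟩
  have := h.not_block hr hp 1
  rw [one_smul, one_smul] at this
  exact this heq

/-- The Euler number of the arcs of a quotient is not positive.  Proof: the stabilizer of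
`(f x0, f y0)` contains `st2 x0 y0`; `chiJ_nonpos`. -/
theorem Sys.quo_low (h : Sys R σ x0 y0) {Y : Type} [MulAction G Y] {f : Ω → Y}
    {C : ℕ} (hf : Quo G f C) : chiJ R σ (st2 G (f x0) (f y0)) ≤ 0 := by
  refine chiJ_nonpos R σ ?_ h.low
  intro g hg
  rw [Subgroup.mem_inf, mem_stabilizer_iff, mem_stabilizer_iff] at hg ⊢
  refine ⟨?_, ?_⟩
  · rw [← hf.map, hg.1]
  · rw [← hf.map, hg.2]

end WildT
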