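import Pool.Agent.helper44.TG.Arc

/-! Automorphisms with small support: reduction to a bounded region. -/

namespace WildT

open Equiv WildLD

variable {Y : Type} [Fintype Y] [DecidableEq Y]

/-- A permutation which maps arcs to arcs is an automorphism.  Proof: the induced injective map of the
finite set `D` into itself is surjective. -/
theorem mem_AutD {D : Finset (Y × Y)} {g : Perm Y} (h : ∀ x y, (x, y) ∈ D → (g x, g y) ∈ D) :
    g ∈ AutD D := by
  classical
  have hinj : Function.Injective (fun p : Y × Y => (g p.1, g p.2)) := by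
    intro p q hpq
    have h1 : g p.1 = g q.1 := congrArg Prod.fst hpq
    have h2 : g p.2 = g q.2 := congrArg Prod.snd hpq
    exact Prod.ext (g.injective h1) (g.injective h2)
  have hsub : D.image (fun p : Y × Y => (g p.1, g p.2)) ⊆ D := by
    intro q hq
    obtain ⟨p, hp, rfl⟩ := Finset.mem_image.1 hq
    exact h p.1 p.2 hp
  have heq : D.image (fun p : Y × Y => (g p.1, g p.2)) = D := by
    apply Finset.eq_of_subset_of_card_le hsub
    rw [Finset.card_image_of_injective D hinj]
  intro x y
  constructor
  · intro hxy
    rw [← heq] at hxy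
    obtain ⟨p, hp, hpq⟩ := Finset.mem_image.1 hxy
    have h1 : p = (x, y) := hinj hpq
    rw [← h1]
    exact hp
  · exact h x y

theorem Cut_adj {D : Finset (Y × Y)} {g : Perm Y} (hg : g ∈ AutD D) {x y : Y}
    (h : (Gam D).Adj x y) : (Gam D).Adj (g x) (g y) := by
  unfold Gam at h ⊢
  rw [SimpleGraph.fromRel_adj] at h ⊢
  refine ⟨fun he => h.1 (g.injective he), ?_⟩
  rcases h.2 with h2 | h2
  · exact Or.inl ((hg x y).2 h2)
  · exact Or.inr ((hg y x).2 h2)

theorem Cut_dist_le {D : Finset (Y × Y)} {g : Perm Y} (hg : g ∈ AutD D) {x y : Y}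
    (hr : (Gam D).Reachable x y) :
    (Gam D).Reachable (g x) (g y) ∧ (Gam D).dist (g x) (g y) ≤ (Gam D).dist x y := by
  obtain ⟨w, hw⟩ := hr.exists_walk_length_eq_dist
  let φ : (Gam D) →g (Gam D) := ⟨g, fun h => Cut_adj hg h⟩
  have h1 : (w.map φ).length = (Gam D).dist x y := by rw [SimpleGraph.Walk.length_map, hw]
  refine ⟨⟨w.map φ⟩, ?_⟩
  rw [← h1]
  exact SimpleGraph.dist_le (w.map φ)

/-- Automorphisms preserve the distance. -/
theorem autD_dist {D : Finset (Y × Y)} {g : Perm Y} (hg : g ∈ AutD D) (x y : Y) :
    (Gam D).dist (g x) (g y) = (Gam D).dist x y := by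
  by_cases hr : (Gam D).Reachable x y
  · obtain ⟨h1, h2⟩ := Cut_dist_le hg hr
    have h3 := (Cut_dist_le ((AutD D).inv_mem hg) h1).2
    have e1 : g⁻¹ (g x) = x := g.symm_apply_apply x
    have e2 : g⁻¹ (g y) = y := g.symm_apply_apply y
    rw [e1, e2] at h3
    exact le_antisymm h2 h3
  · have hr' : ¬ (Gam D).Reachable (g x) (g y) := by
      intro h
      apply hr
      have h1 := (Cut_dist_le ((AutD D).inv_mem hg) h).1
      have e1 : g⁻¹ (g x) = x := g.symm_apply_apply x
      have e2 : g⁻¹ (g y) = y := g.symm_apply_apply y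
      rw [e1, e2] at h1
      exact h1
    rw [SimpleGraph.dist_eq_zero_of_not_reachable hr, SimpleGraph.dist_eq_zero_of_not_reachable hr']

/-- A group `G` contained in the automorphism group: the orbital of `G` is an orbital of the
automorphism group. -/
theorem autD_orb {G : Subgroup (Perm Y)} {D : Finset (Y × Y)} (hD : Orb G D) :
    G ≤ AutD D ∧ Orb (AutD D) D := by
  have hle : G ≤ AutD D := fun g hg => mem_AutD (hD.inv g hg)
  refine ⟨hle, hD.ne, hD.irr, fun g hg x y h => (hg x y).2 h, ?_⟩
  intro p hp q hq
  obtain ⟨g, hg, h⟩ := hD.tr p hp q hq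
  exact ⟨g, hle hg, h⟩

/-- **Gluing.**  `g` an automorphism, `T` a set with `g T = T`, such that for every arc with one end in `T` and
the other one outside, both ends of the arc which are outside `T` are fixed by `g`.  Then `g` on `T`,
identity outside, is an automorphism.

Proof.  It is a permutation (`Equiv.Perm.ofSubtype`, or an involved definition by cases with `g T = T`).
An arc with both ends in `T`, or both outside, or one in and the other one outside is mapped to an
arc. -/
theorem glue {D : Finset (Y × Y)} {g : Perm Y} (hg : g ∈ AutD D) (T : Finset Y)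
    (hT : ∀ x, x ∈ T ↔ g x ∈ T)
    (h : ∀ x y, (x, y) ∈ D → (x ∈ T → y ∉ T → g y = y) ∧ (x ∉ T → y ∈ T → g x = x)) :
    ∃ g' ∈ AutD D, (∀ x ∈ T, g' x = g x) ∧ ∀ x, x ∉ T → g' x = x := by
  classical
  let g' : Perm Y := Perm.ofSubtype (g.subtypePerm (p := fun x => x ∈ T) fun x => (hT x).symm)
  have h1 : ∀ x ∈ T, g' x = g x := by
    intro x hx
    have h2 := Perm.ofSubtype_apply_of_mem
      (g.subtypePerm (p := fun x => x ∈ T) fun x => (hT x).symm) hx
    exact h2
  have h2 : ∀ x, x ∉ T → g' x = x := by
    intro x hx
    exact Perm.ofSubtype_apply_of_not_mem _ hx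
  refine ⟨g', mem_AutD ?_, h1, h2⟩
  intro x y hxy
  by_cases hx : x ∈ T
  · by_cases hy : y ∈ T
    · rw [h1 x hx, h1 y hy]
      exact (hg x y).2 hxy
    · have h3 := (h x y hxy).1 hx hy
      rw [h1 x hx, h2 y hy, ← h3]
      rw [h3]
      have h4 := (hg x y).2 hxy
      rw [h3] at h4
      exact h4
  · by_cases hy : y ∈ T
    · have h3 := (h x y hxy).2 hx hy
      rw [h2 x hx, h1 y hy]
      have h4 := (hg x y).2 hxy
      rw [h3] at h4
      exact h4
    · rw [h2 x hx, h2 y hy]
      exact hxy

/-- A moved point and its image are close.  Proof: a shortest walk (`exists_geo`) from `u` to a fixed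
point (there is one because `K < card Y`) passes through different points; let `w` be the first
fixed point on it; the points before it are moved, so `dist u w ≤ K`; and
`dist (g u) w = dist (g u) (g w) = dist u w`. -/
theorem move_near {D : Finset (Y × Y)} (hc : (Gam D).Connected) {g : Perm Y} (hg : g ∈ AutD D)
    {K : ℕ} (hK : (Fx g)ᶜ.card ≤ K) (hb : K < Fintype.card Y) (u : Y) :
    (Gam D).dist u (g u) ≤ 2 * K := by
  classical
  obtain ⟨f, hf⟩ : ∃ f, g f = f := by
    by_contra hcon
    push Not at hcon
    have h1 : (Fx g)ᶜ = Finset.univ := by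
      ext x
      simp [Fx, hcon x]
    rw [h1, Finset.card_univ] at hK
    omega
  obtain ⟨γ, h0, h1, h2⟩ := exists_geo hc u f
  have hex : ∃ i, g (γ i) = γ i := ⟨_, by rw [h1]; exact hf⟩
  let i := Nat.find hex
  have hi : g (γ i) = γ i := Nat.find_spec hex
  have hin : i ≤ (Gam D).dist u f := Nat.find_min' hex (by rw [h1]; exact hf)
  have hlt : ∀ j, j < i → g (γ j) ≠ γ j := fun j hj => Nat.find_min hex hj
  have hcard : i ≤ K := by
    have h3 : ((Finset.range i).image γ).card = i := by
      rw [Finset.card_image_of_injOn, Finset.card_range]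
      intro a ha b hb hab
      rw [Finset.mem_coe, Finset.mem_range] at ha hb
      have hab' : γ a = γ b := hab
      rcases le_total a b with hle | hle
      · have h4 := h2 a b hle (by omega)
        rw [hab', SimpleGraph.dist_self] at h4
        omega
      · have h4 := h2 b a hle (by omega)
        rw [hab', SimpleGraph.dist_self] at h4
        omega
    have h4 : (Finset.range i).image γ ⊆ (Fx g)ᶜ := by
      intro x hx
      obtain ⟨j, hj, rfl⟩ := Finset.mem_image.1 hx
      rw [Finset.mem_compl]
      intro hx2
      exact hlt j (Finset.mem_range.1 hj) (by simpa [Fx] using hx2)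
    have h5 := Finset.card_le_card h4
    omega
  have h3 : (Gam D).dist u (γ i) = i := by
    have h4 := h2 0 i (Nat.zero_le _) hin
    rw [h0] at h4
    simpa using h4
  have h4 : (Gam D).dist (g u) (γ i) = i := by
    have h5 := autD_dist hg u (γ i)
    rw [hi] at h5
    rw [h5, h3]
  have h5 := hc.dist_triangle (u := u) (v := γ i) (w := g u)
  rw [h3, SimpleGraph.dist_comm (u := γ i), h4] at h5
  omega

/-- **Local automorphisms.**

Proof.  Let `T = (Fx g)ᶜ`, `u0 ∈ T`, and let `T1` be the set of the `v ∈ T` which can be joined to `u0` by a chain of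
elements of `T` in which consecutive elements are adjacent in `Gam D`, or one is the image of the other
under `g` (`Relation.EqvGen` or `ReflTransGen` of a symmetric relation).  `g T1 = T1`, and a point outside
`T1` adjacent to a point of `T1` is not in `T`, so it is fixed: `glue` gives `g'`, with support `T1`.
(`g'` moves exactly the points of `T1`.)  Two points of `T1` are joined by a chain of different elements
of `T1` (a walk in the finite graph on `T1` can be made a path), so by at most `K - 1` steps, each of
length at most `2 K` (`move_near`; adjacent points have distance one and `K ≥ 1`). -/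
theorem local_aut {D : Finset (Y × Y)} (hc : (Gam D).Connected) {g : Perm Y} (hg : g ∈ AutD D)
    (h1 : g ≠ 1) {K : ℕ} (hK : (Fx g)ᶜ.card ≤ K) (hb : K < Fintype.card Y) :
    ∃ g' ∈ AutD D, g' ≠ 1 ∧ (Fx g')ᶜ.card ≤ K ∧
      ∀ u v, g' u ≠ u → g' v ≠ v → (Gam D).dist u v ≤ 2 * K ^ 2 := by
  classical
  obtain ⟨u0, hu0⟩ : ∃ u, g u ≠ u := by
    by_contra hcon
    push Not at hcon
    exact h1 (Equiv.ext hcon)
  have hK1 : 1 ≤ K := by
    have h2 : 0 < (Fx g)ᶜ.card := Finset.card_pos.2 ⟨u0, by simp [Fx, hu0]⟩
    omega
  let r : Y → Y → Prop := fun x y => g x ≠ x ∧ g y ≠ y ∧ ((Gam D).Adj x y ∨ g x = y ∨ g y = x)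
  have hrs : ∀ x y, r x y → r y x := by
    intro x y h
    refine ⟨h.2.1, h.1, ?_⟩
    rcases h.2.2 with h3 | h3 | h3
    · exact Or.inl h3.symm
    · exact Or.inr (Or.inr h3)
    · exact Or.inr (Or.inl h3)
  let T1 : Finset Y := Finset.univ.filter fun v => Relation.ReflTransGen r u0 v
  have hmem : ∀ v, v ∈ T1 ↔ Relation.ReflTransGen r u0 v := by
    intro v
    simp [T1]
  have hT1 : ∀ v, v ∈ T1 → g v ≠ v := by
    intro v hv
    rw [hmem] at hv
    rcases Relation.ReflTransGen.cases_tail hv with h3 | ⟨c, _, h3⟩
    · rw [h3]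
      exact hu0
    · exact h3.2.1
  have hstep : ∀ x y, x ∈ T1 → r x y → y ∈ T1 := by
    intro x y hx hxy
    rw [hmem] at hx ⊢
    exact hx.tail hxy
  have hgg : ∀ v, g v ≠ v ↔ g (g v) ≠ g v := by
    intro v
    constructor
    · intro h3 h4
      exact h3 (g.injective h4)
    · intro h3 h4
      exact h3 (congrArg g h4)
  obtain ⟨g', hg', hin, hout⟩ := glue hg T1 (by
      intro x
      constructor
      · intro hx
        have h3 := hT1 x hx
        exact hstep x (g x) hx ⟨h3, (hgg x).1 h3, Or.inr (Or.inl rfl)⟩
      · intro hx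
        have h3 := hT1 (g x) hx
        exact hstep (g x) x hx ⟨h3, (hgg x).2 h3, Or.inr (Or.inr rfl)⟩) (by
      intro x y hxy
      constructor
      · intro hx hy
        by_contra hcon
        apply hy
        refine hstep x y hx ⟨hT1 x hx, hcon, Or.inl ?_⟩
        unfold Gam
        rw [SimpleGraph.fromRel_adj]
        exact ⟨fun h3 => hy (h3 ▸ hx), Or.inl hxy⟩
      · intro hx hy
        by_contra hcon
        apply hx
        refine hstep y x hy ⟨hT1 y hy, hcon, Or.inl ?_⟩
        unfold Gam
        rw [SimpleGraph.fromRel_adj]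
        exact ⟨fun h3 => hx (h3 ▸ hy), Or.inr hxy⟩)
  have hu0T : u0 ∈ T1 := by
    rw [hmem]
  have hsup : ∀ v, g' v ≠ v → v ∈ T1 := by
    intro v hv
    by_contra hcon
    exact hv (hout v hcon)
  refine ⟨g', hg', ?_, ?_, ?_⟩
  · intro h3
    have h4 := hin u0 hu0T
    rw [h3] at h4
    exact hu0 h4.symm
  · refine le_trans (Finset.card_le_card ?_) hK
    intro v hv
    rw [Finset.mem_compl] at hv ⊢
    intro h3
    apply hv
    have h4 : g v = v := by simpa [Fx] using h3
    have h5 : g' v = v := by
      by_contra hcon
      exact hT1 v (hsup v hcon) h4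
    simpa [Fx] using h5
  · intro u v hu hv
    have huT := hsup u hu
    have hvT := hsup v hv
    let H : SimpleGraph Y := SimpleGraph.fromRel r
    have hreach : ∀ x, x ∈ T1 → H.Reachable u0 x := by
      intro x hx
      rw [hmem] at hx
      induction hx with
      | refl => exact SimpleGraph.Reachable.refl u0
      | tail _ h3 ih =>
        rename_i b c _
        by_cases hbc : b = c
        · rw [← hbc]
          exact ih
        · exact ih.trans (SimpleGraph.Adj.reachable (by
            show (SimpleGraph.fromRel r).Adj b c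
            rw [SimpleGraph.fromRel_adj]
            exact ⟨hbc, Or.inl h3⟩))
    have hadj : ∀ x y, H.Adj x y → r x y := by
      intro x y h3
      have h4 : (SimpleGraph.fromRel r).Adj x y := h3
      rw [SimpleGraph.fromRel_adj] at h4
      rcases h4.2 with h5 | h5
      · exact h5
      · exact hrs y x h5
    have huv : H.Reachable u v := (hreach u huT).symm.trans (hreach v hvT)
    have hone : ∀ x y, H.Adj x y → (Gam D).dist x y ≤ 2 * K := by
      intro x y h3
      rcases (hadj x y h3).2.2 with h4 | h4 | h4
      · rw [SimpleGraph.dist_eq_one_iff_adj.2 h4]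
        omega
      · rw [← h4]
        exact move_near hc hg hK hb x
      · rw [← h4, SimpleGraph.dist_comm]
        exact move_near hc hg hK hb y
    have hwalk : ∀ {a b : Y} (w : H.Walk a b), (Gam D).dist a b ≤ w.length * (2 * K) := by
      intro a b w
      induction w with
      | nil => simp
      | cons h3 p ih =>
        rename_i a' b' c'
        have h4 := hc.dist_triangle (u := a') (v := b') (w := c')
        have h5 := hone a' b' h3
        rw [SimpleGraph.Walk.length_cons, add_mul, one_mul]
        omega
    have hsupp : ∀ {a b : Y} (w : H.Walk a b), g a ≠ a → ∀ x ∈ w.support, g x ≠ x := by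
      intro a b w
      induction w with
      | nil =>
        intro h3 x hx
        rw [SimpleGraph.Walk.support_nil, List.mem_singleton] at hx
        rw [hx]
        exact h3
      | cons h3 p ih =>
        intro h4 x hx
        rw [SimpleGraph.Walk.support_cons, List.mem_cons] at hx
        rcases hx with h5 | h5
        · rw [h5]
          exact h4
        · exact ih (hadj _ _ h3).2.1 x h5
    obtain ⟨w⟩ := huv
    let w' := w.toPath
    have hnd : (w' : H.Walk u v).support.Nodup := w'.2.support_nodup
    have hlen : (w' : H.Walk u v).length + 1 ≤ K := by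
      rw [← SimpleGraph.Walk.length_support, ← List.toFinset_card_of_nodup hnd]
      refine le_trans (Finset.card_le_card ?_) hK
      intro x hx
      rw [List.mem_toFinset] at hx
      have h3 := hsupp (w' : H.Walk u v) (hT1 u huT) x hx
      rw [Finset.mem_compl]
      intro h4
      exact h3 (by simpa [Fx] using h4)
    have h3 := hwalk (w' : H.Walk u v)
    refine le_trans h3 ?_
    have h4 : (w' : H.Walk u v).length ≤ K := by omega
    calc (w' : H.Walk u v).length * (2 * K) ≤ K * (2 * K) := Nat.mul_le_mul_right _ h4
      _ = 2 * K ^ 2 := by ring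

end WildT
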