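import Pool.Agent.helper44.TG.Sup
import Pool.Agent.helper44.TG.Ari

/-! The arcs between two orbits of the group generated by the small elements.  Proofs by helper52. -/

namespace WildT

open MulAction Equiv WildLD

section Des

variable {G : Type} [Group G] [Fintype G] {Ω : Type} [MulAction G Ω] [Fintype Ω] [DecidableEq Ω]

/-- The arcs are mapped to arcs. -/
theorem Des_map {x0 y0 : Ω} (g : G) {x y : Ω} :
    (g • x, g • y) ∈ arcs G x0 y0 ↔ (x, y) ∈ arcs G x0 y0 := by
  have key : ∀ (g : G) {x y : Ω}, (x, y) ∈ arcs G x0 y0 → (g • x, g • y) ∈ arcs G x0 y0 := by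
    intro g x y hxy
    obtain ⟨a, h1, h2⟩ := mem_arcs.1 hxy
    have h1' : a • x0 = x := h1
    have h2' : a • y0 = y := h2
    refine mem_arcs.2 ⟨g * a, ?_, ?_⟩
    · show (g * a) • x0 = g • x
      rw [mul_smul, h1']
    · show (g * a) • y0 = g • y
      rw [mul_smul, h2']
  refine ⟨fun h => ?_, key g⟩
  have h1 := key g⁻¹ h
  rwa [inv_smul_smul, inv_smul_smul] at h1

theorem Des_rM (g : G) {x y : Ω} : rM G (g • x) (g • y) ↔ rM G x y := by
  refine ⟨fun h => ?_, rM_inv.map g x y⟩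
  have h1 := rM_inv.map g⁻¹ _ _ h
  rwa [inv_smul_smul, inv_smul_smul] at h1

theorem Des_rMm {m : G} (hm : m ∈ MS G Ω) {x y : Ω} : rM G x (m • y) ↔ rM G x y := by
  have h0 : rM G y (m • y) := ⟨m, hm, rfl⟩
  exact ⟨fun h => rM_inv.eqv.trans h (rM_inv.eqv.symm h0), fun h => rM_inv.eqv.trans h h0⟩

/-- Cardinalities of predicates which correspond under a group element. -/
theorem Des_card (g : G) (P Q : Ω → Prop) (h : ∀ z, Q (g • z) ↔ P z) :
    Nat.card {z // P z} = Nat.card {z // Q z} := by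
  refine Nat.card_congr ⟨fun z => ⟨g • z.1, (h _).2 z.2⟩, fun z => ⟨g⁻¹ • z.1, ?_⟩, ?_, ?_⟩
  · rw [← h, smul_inv_smul]
    exact z.2
  · intro z
    exact Subtype.ext (inv_smul_smul _ _)
  · intro z
    exact Subtype.ext (smul_inv_smul _ _)

theorem Des_m (htr : ∀ x y : Ω, ∃ g : G, g • x = y) (x y : Ω) :
    Nat.card {z // rM G x z} = Nat.card {z // rM G y z} := by
  obtain ⟨g, rfl⟩ := htr x y
  exact Des_card g _ _ fun z => Des_rM g

theorem Des_T {x0 y0 : Ω} {x y : Ω} (hxy : (x, y) ∈ arcs G x0 y0) :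
    Nat.card {v // (x, v) ∈ arcs G x0 y0 ∧ rM G y v} =
      Nat.card {v // (x0, v) ∈ arcs G x0 y0 ∧ rM G y0 v} := by
  obtain ⟨g, h1, h2⟩ := mem_arcs.1 hxy
  have h1' : g • x0 = x := h1
  have h2' : g • y0 = y := h2
  subst h1' h2'
  refine (Des_card g _ _ fun v => ?_).symm
  rw [Des_map, Des_rM]

/-- The number of the arcs starting at `x` is `d`. -/
theorem Des_d {x0 y0 : Ω} (htr : ∀ x y : Ω, ∃ g : G, g • x = y) {d : ℕ}
    (hd : (arcs G x0 y0).card = Fintype.card Ω * d) (x : Ω) :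
    Nat.card {y // (x, y) ∈ arcs G x0 y0} = d := by
  classical
  have h1 : ∀ x', Nat.card {y // (x', y) ∈ arcs G x0 y0} =
      Nat.card {y // (x, y) ∈ arcs G x0 y0} := by
    intro x'
    obtain ⟨g, rfl⟩ := htr x' x
    exact Des_card g _ _ fun z => Des_map g
  have h2 : (arcs G x0 y0).card =
      ∑ x' : Ω, Nat.card {y // (x', y) ∈ arcs G x0 y0} := by
    rw [Finset.card_eq_sum_card_fiberwise (f := Prod.fst) (t := Finset.univ)
      (fun _ _ => Finset.mem_coe.2 (Finset.mem_univ _))]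
    refine Finset.sum_congr rfl fun x' _ => ?_
    rw [Nat.card_eq_fintype_card, Fintype.card_subtype]
    refine Finset.card_bij' (fun p _ => p.2) (fun y _ => (x', y)) ?_ ?_ ?_ ?_
    · intro p hp
      rw [Finset.mem_filter] at hp ⊢
      refine ⟨Finset.mem_univ _, ?_⟩
      rw [← hp.2]
      exact hp.1
    · intro y hy
      rw [Finset.mem_filter] at hy ⊢
      exact ⟨hy.2, rfl⟩
    · intro p hp
      rw [Finset.mem_filter] at hp
      rw [← hp.2]
    · intro y _
      rfl
  rw [Finset.sum_congr rfl fun x' _ => h1 x', Finset.sum_const, Finset.card_univ, smul_eq_mul,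
    hd] at h2
  have h3 : 0 < Fintype.card Ω := Fintype.card_pos_iff.2 ⟨x⟩
  exact (Nat.eq_of_mul_eq_mul_left h3 h2).symm

/-- In-degree and out-degree between two classes. -/
theorem Des_tt {x0 y0 : Ω} (htr : ∀ x y : Ω, ∃ g : G, g • x = y) (x y : Ω) :
    Nat.card {v // (x, v) ∈ arcs G x0 y0 ∧ rM G y v} =
      Nat.card {u // (u, y) ∈ arcs G x0 y0 ∧ rM G x u} := by
  classical
  have h1 : ∀ u, rM G x u → Nat.card {v // (u, v) ∈ arcs G x0 y0 ∧ rM G y v} =
      Nat.card {v // (x, v) ∈ arcs G x0 y0 ∧ rM G y v} := by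
    rintro u ⟨m, hm, rfl⟩
    refine (Des_card m _ _ fun v => ?_).symm
    rw [Des_map, Des_rMm hm]
  have h2 : ∀ v, rM G y v → Nat.card {u // (u, v) ∈ arcs G x0 y0 ∧ rM G x u} =
      Nat.card {u // (u, y) ∈ arcs G x0 y0 ∧ rM G x u} := by
    rintro v ⟨m, hm, rfl⟩
    refine (Des_card m _ _ fun u => ?_).symm
    rw [Des_map, Des_rMm hm]
  have h3 := Finset.sum_card_bipartiteAbove_eq_sum_card_bipartiteBelow
    (s := Finset.univ.filter fun u => rM G x u) (t := Finset.univ.filter fun v => rM G y v)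
    (fun u v => (u, v) ∈ arcs G x0 y0)
  have h4 : ∀ u ∈ Finset.univ.filter (fun u => rM G x u),
      (Finset.bipartiteAbove (fun u v => (u, v) ∈ arcs G x0 y0)
        (Finset.univ.filter fun v => rM G y v) u).card =
      Nat.card {v // (x, v) ∈ arcs G x0 y0 ∧ rM G y v} := by
    intro u hu
    rw [← h1 u (Finset.mem_filter.1 hu).2, Nat.card_eq_fintype_card, Fintype.card_subtype]
    congr 1
    ext v
    simp only [Finset.mem_bipartiteAbove, Finset.mem_filter, Finset.mem_univ, true_and]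
    exact and_comm
  have h5 : ∀ v ∈ Finset.univ.filter (fun v => rM G y v),
      (Finset.bipartiteBelow (fun u v => (u, v) ∈ arcs G x0 y0)
        (Finset.univ.filter fun u => rM G x u) v).card =
      Nat.card {u // (u, y) ∈ arcs G x0 y0 ∧ rM G x u} := by
    intro v hv
    rw [← h2 v (Finset.mem_filter.1 hv).2, Nat.card_eq_fintype_card, Fintype.card_subtype]
    congr 1
    ext u
    simp only [Finset.mem_bipartiteBelow, Finset.mem_filter, Finset.mem_univ, true_and]
    exact and_comm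
  rw [Finset.sum_congr rfl h4, Finset.sum_congr rfl h5, Finset.sum_const, Finset.sum_const,
    smul_eq_mul, smul_eq_mul] at h3
  have h6 : (Finset.univ.filter fun u => rM G x u).card =
      (Finset.univ.filter fun v => rM G y v).card := by
    have := Des_m htr x y
    rwa [Nat.card_eq_fintype_card, Fintype.card_subtype, Nat.card_eq_fintype_card,
      Fintype.card_subtype] at this
  rw [h6] at h3
  have h7 : 0 < (Finset.univ.filter fun v => rM G y v).card :=
    Finset.card_pos.2 ⟨y, Finset.mem_filter.2 ⟨Finset.mem_univ _, rM_inv.eqv.refl y⟩⟩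
  exact Nat.eq_of_mul_eq_mul_left h7 h3

/-- The classes met by the arcs starting at `x0`. -/
theorem Des_cls {x0 y0 : Ω} (htr : ∀ x y : Ω, ∃ g : G, g • x = y) {d : ℕ}
    (hd : (arcs G x0 y0).card = Fintype.card Ω * d) (hd1 : 1 ≤ d)
    (hq : Fintype.card Ω ≤ 84 * Nat.card {z // rM G x0 z}) :
    ∃ d' : ℕ, 1 ≤ d' ∧ d' ≤ 84 ∧
      d = d' * Nat.card {y // (x0, y) ∈ arcs G x0 y0 ∧ rM G y0 y} := by
  classical
  obtain ⟨s, hs⟩ : ∃ s : Setoid Ω, ∀ x y, s.r x y ↔ rM G x y :=
    ⟨⟨fun x y => rM G x y, rM_inv.eqv⟩, fun _ _ => Iff.rfl⟩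
  have hq' : ∀ x y : Ω, (Quotient.mk s x = Quotient.mk s y) ↔ rM G x y := by
    intro x y
    rw [Quotient.eq]
    exact hs x y
  let _ : Fintype (Quotient s) := Fintype.ofFinite _
  obtain ⟨N, hN⟩ : ∃ N : Finset Ω, N = Finset.univ.filter fun y => (x0, y) ∈ arcs G x0 y0 := ⟨_, rfl⟩
  have hNc : N.card = d := by
    have := Des_d htr hd x0
    rwa [Nat.card_eq_fintype_card, Fintype.card_subtype, ← hN] at this
  refine ⟨(N.image (Quotient.mk s)).card, ?_, ?_, ?_⟩
  · rw [Nat.one_le_iff_ne_zero, ← Nat.pos_iff_ne_zero, Finset.card_pos, Finset.image_nonempty,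
      ← Finset.card_pos, hNc]
    exact hd1
  · have h1 : (N.image (Quotient.mk s)).card ≤ Fintype.card (Quotient s) := Finset.card_le_univ _
    have h2 : Fintype.card Ω = Fintype.card (Quotient s) * Nat.card {z // rM G x0 z} := by
      rw [← Finset.card_univ, Finset.card_eq_sum_card_fiberwise (f := Quotient.mk s)
        (t := Finset.univ) (fun _ _ => Finset.mem_coe.2 (Finset.mem_univ _))]
      have h3 : ∀ q ∈ (Finset.univ : Finset (Quotient s)),
          (Finset.univ.filter fun x => Quotient.mk s x = q).card =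
            Nat.card {z // rM G x0 z} := by
        intro q _
        obtain ⟨y, rfl⟩ := Quotient.exists_rep q
        rw [Des_m htr x0 y, Nat.card_eq_fintype_card, Fintype.card_subtype]
        congr 1
        ext z
        simp only [Finset.mem_filter, Finset.mem_univ, true_and]
        rw [hq']
        exact ⟨fun h => rM_inv.eqv.symm h, fun h => rM_inv.eqv.symm h⟩
      rw [Finset.sum_congr rfl h3, Finset.sum_const, Finset.card_univ, smul_eq_mul]
    have h4 : 0 < Nat.card {z // rM G x0 z} := by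
      have : Nonempty {z // rM G x0 z} := ⟨⟨x0, rM_inv.eqv.refl x0⟩⟩
      exact Nat.card_pos
    rw [h2] at hq
    exact h1.trans (Nat.le_of_mul_le_mul_right hq h4)
  · rw [← hNc, Finset.card_eq_sum_card_image (Quotient.mk s) N]
    have h3 : ∀ q ∈ N.image (Quotient.mk s), (N.filter fun x => Quotient.mk s x = q).card =
        Nat.card {y // (x0, y) ∈ arcs G x0 y0 ∧ rM G y0 y} := by
      intro q hq1
      obtain ⟨y, hy, rfl⟩ := Finset.mem_image.1 hq1
      rw [hN, Finset.mem_filter] at hy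
      rw [← Des_T hy.2, Nat.card_eq_fintype_card, Fintype.card_subtype]
      congr 1
      ext z
      rw [hN, Finset.mem_filter, Finset.mem_filter, Finset.mem_filter, hq']
      exact ⟨fun h => ⟨h.1.1, h.1.2, rM_inv.eqv.symm h.2⟩,
        fun h => ⟨⟨h.1, h.2.1⟩, rM_inv.eqv.symm h.2.2⟩⟩
    rw [Finset.sum_congr rfl h3, Finset.sum_const, smul_eq_mul]

/-- Counting of the common out-neighbours. -/
theorem Des_L {x0 y0 : Ω} (htr : ∀ x y : Ω, ∃ g : G, g • x = y) {d L : ℕ}
    (hd : (arcs G x0 y0).card = Fintype.card Ω * d)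
    (hL : ∀ a : Ω, rM G x0 a → a ≠ x0 →
      Nat.card {y // (x0, y) ∈ arcs G x0 y0 ∧ (a, y) ∈ arcs G x0 y0} = L) :
    (Nat.card {z // rM G x0 z} - 1) * L =
      d * (Nat.card {y // (x0, y) ∈ arcs G x0 y0 ∧ rM G y0 y} - 1) := by
  classical
  have h3 := Finset.sum_card_bipartiteAbove_eq_sum_card_bipartiteBelow
    (s := (Finset.univ.filter fun u => rM G x0 u).erase x0)
    (t := Finset.univ.filter fun v => (x0, v) ∈ arcs G x0 y0)
    (fun u v => (u, v) ∈ arcs G x0 y0)
  have h4 : ∀ u ∈ (Finset.univ.filter fun u => rM G x0 u).erase x0,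
      (Finset.bipartiteAbove (fun u v => (u, v) ∈ arcs G x0 y0)
        (Finset.univ.filter fun v => (x0, v) ∈ arcs G x0 y0) u).card = L := by
    intro u hu
    rw [Finset.mem_erase, Finset.mem_filter] at hu
    rw [← hL u hu.2.2 hu.1, Nat.card_eq_fintype_card, Fintype.card_subtype]
    congr 1
    ext v
    simp only [Finset.mem_bipartiteAbove, Finset.mem_filter, Finset.mem_univ, true_and]
  have h5 : ∀ v ∈ Finset.univ.filter (fun v => (x0, v) ∈ arcs G x0 y0),
      (Finset.bipartiteBelow (fun u v => (u, v) ∈ arcs G x0 y0)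
        ((Finset.univ.filter fun u => rM G x0 u).erase x0) v).card =
      Nat.card {y // (x0, y) ∈ arcs G x0 y0 ∧ rM G y0 y} - 1 := by
    intro v hv
    rw [Finset.mem_filter] at hv
    rw [← Des_T hv.2, Des_tt htr x0 v, Nat.card_eq_fintype_card, Fintype.card_subtype]
    have h6 : x0 ∈ Finset.univ.filter fun u => (u, v) ∈ arcs G x0 y0 ∧ rM G x0 u :=
      Finset.mem_filter.2 ⟨Finset.mem_univ _, hv.2, rM_inv.eqv.refl x0⟩
    rw [← Finset.card_erase_of_mem h6]
    congr 1
    ext u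
    simp only [Finset.mem_bipartiteBelow, Finset.mem_filter, Finset.mem_univ, true_and,
      Finset.mem_erase]
    exact ⟨fun h => ⟨h.1.1, h.2, h.1.2⟩, fun h => ⟨⟨h.1, h.2.2⟩, h.2.1⟩⟩
  have h6 : x0 ∈ Finset.univ.filter fun u => rM G x0 u :=
    Finset.mem_filter.2 ⟨Finset.mem_univ _, rM_inv.eqv.refl x0⟩
  rw [Finset.sum_congr rfl h4, Finset.sum_congr rfl h5, Finset.sum_const, Finset.sum_const,
    smul_eq_mul, smul_eq_mul, Finset.card_erase_of_mem h6] at h3
  have h7 := Des_d htr hd x0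
  rw [Nat.card_eq_fintype_card, Fintype.card_subtype] at h7
  rw [h7] at h3
  rw [← h3, Nat.card_eq_fintype_card, Fintype.card_subtype]

end Des

variable {G : Type} [Group G] [Fintype G] {ι : Type} {Ω : Type} [MulAction G Ω] {R : Finset ι}
  {σ : ι → G} {x0 y0 : Ω}

open Classical in
/-- **The numbers of the arcs.**  `rM` is proper, all its classes have `m` elements, `t` is the number of the ends of the
arcs starting at `x0` in the orbit of `y0`.

Proof.  All `t (x, y) = card {y' : (x, y') an arc, rM y y'}`, `(x, y)` an arc, are equal to `t` (arc-transitivity), and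
`m` is the number of points of every `MS`-orbit (transitivity).  The arcs starting at `x0` are distributed
over the `MS`-orbits of their ends, `t` for each: `d = d' t`.
`d' ≤ 84`: by `hq` the number of the orbits is at most `84`.
Let `L` be the number of the common out-neighbours of `x0` and `x'`, `rM x0 x'`, `x' ≠ x0`; by `h2t` it does
not depend on `x'`.
In-degrees: for an arc `(x, y)` the number `t' = card {x' : (x', y) an arc, rM x x'}` is the same for all
arcs, and `t' = t`: the arcs between the orbit of `x` and the orbit of `y` are counted by their start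
points, each of the `m` start points has exactly `t` of them (`MS` is transitive on the orbit of `x` and
preserves the orbit of `y`), and by their end points.
Count the pairs `(x', y)` with `rM x0 x'`, `x' ≠ x0`, `(x0, y)` and `(x', y)` arcs: `(m - 1) L = d (t - 1)`.
`L + 168 ≥ d`: there is a small element `g` with `g x0 ≠ x0` (conjugate the one of `hex`), `rM x0 (g x0)`, and an
out-neighbour of `x0` fixed by `g` is an out-neighbour of `g x0`. -/
theorem des_count (h : Sys R σ x0 y0) [Fintype Ω] [DecidableEq Ω] {d : ℕ}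
    (hd : (arcs G x0 y0).card = Fintype.card Ω * d) (hp : Ppr (rM G (Ω := Ω)))
    (hex : ∃ g : G, Sml Ω 168 g ∧ ∃ x : Ω, g • x ≠ x)
    (hq : Fintype.card Ω ≤ 84 * Nat.card {z // rM G x0 z})
    (h2t : ∀ x a b : Ω, rM G x a → rM G x b → a ≠ x → b ≠ x → ∃ g : G, g • x = x ∧ g • a = b) :
    ∃ d' L : ℕ, 1 ≤ d' ∧ d' ≤ 84 ∧
      d = d' * Nat.card {y // (x0, y) ∈ arcs G x0 y0 ∧ rM G y0 y} ∧
      (Nat.card {z // rM G x0 z} - 1) * L =
        d' * Nat.card {y // (x0, y) ∈ arcs G x0 y0 ∧ rM G y0 y} *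
          (Nat.card {y // (x0, y) ∈ arcs G x0 y0 ∧ rM G y0 y} - 1) ∧
      d' * Nat.card {y // (x0, y) ∈ arcs G x0 y0 ∧ rM G y0 y} ≤ L + 168 := by
  have h00 : (x0, y0) ∈ arcs G x0 y0 := mem_arcs.2 ⟨1, one_smul _ _, one_smul _ _⟩
  have hd1 : 1 ≤ d := by
    rcases Nat.eq_zero_or_pos d with h0 | h0
    · rw [h0, Nat.mul_zero, Finset.card_eq_zero] at hd
      rw [hd] at h00
      exact absurd h00 (Finset.notMem_empty _)
    · exact h0
  obtain ⟨d', hd'1, hd'2, hd'3⟩ := Des_cls h.tr hd hd1 hq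
  obtain ⟨g, hg, hgx⟩ : ∃ g : G, Sml Ω 168 g ∧ g • x0 ≠ x0 := by
    obtain ⟨g, hg, x, hx⟩ := hex
    obtain ⟨a, rfl⟩ := h.tr x0 x
    refine ⟨a⁻¹ * g * a⁻¹⁻¹, sml_conj a⁻¹ hg, fun hh => hx ?_⟩
    rw [inv_inv, mul_smul, mul_smul, inv_smul_eq_iff] at hh
    exact hh
  have hgr : rM G x0 (g • x0) := ⟨g, Subgroup.subset_closure hg, rfl⟩
  have hL : ∀ a : Ω, rM G x0 a → a ≠ x0 →
      Nat.card {y // (x0, y) ∈ arcs G x0 y0 ∧ (a, y) ∈ arcs G x0 y0} =
        Nat.card {y // (x0, y) ∈ arcs G x0 y0 ∧ (g • x0, y) ∈ arcs G x0 y0} := by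
    intro a ha hax
    obtain ⟨b, hb1, hb2⟩ := h2t x0 a (g • x0) ha hgr hax hgx
    refine Des_card b _ _ fun z => ?_
    have e1 : (x0, b • z) ∈ arcs G x0 y0 ↔ (x0, z) ∈ arcs G x0 y0 := by
      have := Des_map (x0 := x0) (y0 := y0) b (x := x0) (y := z)
      rwa [hb1] at this
    have e2 : (g • x0, b • z) ∈ arcs G x0 y0 ↔ (a, z) ∈ arcs G x0 y0 := by
      have := Des_map (x0 := x0) (y0 := y0) b (x := a) (y := z)
      rwa [hb2] at this
    exact and_congr e1 e2
  refine ⟨d', Nat.card {y // (x0, y) ∈ arcs G x0 y0 ∧ (g • x0, y) ∈ arcs G x0 y0}, hd'1, hd'2,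
    hd'3, ?_, ?_⟩
  · rw [← hd'3]
    exact Des_L h.tr hd hL
  · rw [← hd'3]
    have h1 := Des_d h.tr hd x0
    rw [Nat.card_eq_fintype_card, Fintype.card_subtype] at h1
    rw [Nat.card_eq_fintype_card, Fintype.card_subtype]
    refine h1.symm.le.trans ?_
    unfold Sml at hg
    refine le_trans (Finset.card_le_card (t := (Finset.univ.filter fun y =>
      (x0, y) ∈ arcs G x0 y0 ∧ (g • x0, y) ∈ arcs G x0 y0) ∪
        Finset.univ.filter fun z : Ω => g • z ≠ z) ?_)
      ((Finset.card_union_le _ _).trans (Nat.add_le_add_left hg _))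
    intro y hy
    rw [Finset.mem_filter] at hy
    rw [Finset.mem_union, Finset.mem_filter, Finset.mem_filter]
    by_cases hgy : g • y = y
    · left
      refine ⟨Finset.mem_univ _, hy.2, ?_⟩
      have := (Des_map g).2 hy.2
      rwa [hgy] at this
    · exact Or.inr ⟨Finset.mem_univ _, hgy⟩

/-- **All but one.**  If exactly one point `y'` of the orbit of `y0` is not the end of an arc starting at `x0`,
the stabilizer of `x0` and `y0` fixes it: contradiction.

Proof.  `g ∈ st2 x0 y0` preserves the orbit of `y0` and the set of the ends of the arcs starting at `x0`, so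
it fixes `y'`.  `y' ≠ y0` because `(x0, y0)` is an arc.  `Sys.L2` for `rM` and `y0`, `y'`:
`2 ≤ chiJ (st2 x0 y0)`, contradicting `low`. -/
theorem des_one (h : Sys R σ x0 y0) [Fintype Ω] [DecidableEq Ω] (hp : Ppr (rM G (Ω := Ω)))
    (h1 : Nat.card {y // (x0, y) ∈ arcs G x0 y0 ∧ rM G y0 y} + 1 = Nat.card {z // rM G x0 z}) :
    False := by
  classical
  have h00 : (x0, y0) ∈ arcs G x0 y0 := mem_arcs.2 ⟨1, one_smul _ _, one_smul _ _⟩
  rw [Des_m h.tr x0 y0, Nat.card_eq_fintype_card, Fintype.card_subtype, Nat.card_eq_fintype_card,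
    Fintype.card_subtype] at h1
  have hsub : (Finset.univ.filter fun y => (x0, y) ∈ arcs G x0 y0 ∧ rM G y0 y) ⊆
      Finset.univ.filter fun z => rM G y0 z := by
    intro y hy
    rw [Finset.mem_filter] at hy ⊢
    exact ⟨hy.1, hy.2.2⟩
  have h2 := Finset.card_sdiff_of_subset hsub
  have h3 : ((Finset.univ.filter fun z => rM G y0 z) \
      (Finset.univ.filter fun y => (x0, y) ∈ arcs G x0 y0 ∧ rM G y0 y)).card = 1 := by omega
  obtain ⟨y', hy'⟩ := Finset.card_eq_one.1 h3
  have hm : ∀ z, (rM G y0 z ∧ (x0, z) ∉ arcs G x0 y0) ↔ z = y' := by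
    intro z
    rw [← Finset.mem_singleton, ← hy', Finset.mem_sdiff, Finset.mem_filter, Finset.mem_filter]
    constructor
    · rintro ⟨h4, h5⟩
      exact ⟨⟨Finset.mem_univ _, h4⟩, fun h6 => h5 h6.2.1⟩
    · rintro ⟨h4, h5⟩
      exact ⟨h4.2, fun h6 => h5 ⟨Finset.mem_univ _, h6, h4.2⟩⟩
  obtain ⟨h4, h5⟩ := (hm y').2 rfl
  have hne : y0 ≠ y' := by
    rintro rfl
    exact h5 h00
  have h6 : st2 G x0 y0 ≤ st2 G y0 y' := by
    intro g hg
    have hg1 : g • x0 = x0 := hg.1
    have hg2 : g • y0 = y0 := hg.2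
    refine ⟨hg2, ?_⟩
    show g • y' = y'
    rw [← hm]
    constructor
    · rw [← hg2, Des_rM]
      exact h4
    · intro h'
      refine h5 ((Des_map g).1 ?_)
      rw [hg1]
      exact h'
  have h7 := h.L2 rM_inv hp hne h4 h6
  have h8 := h.low
  linarith

/-- The stabilizer of the two classes. -/
def DesJ (G : Type) [Group G] [Fintype G] {Ω : Type} [Fintype Ω] [DecidableEq Ω] [MulAction G Ω]
    (x y : Ω) : Subgroup G where
  carrier := {g | rM G x (g • x) ∧ rM G y (g • y)}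
  mul_mem' := by
    rintro a b ⟨h1, h2⟩ ⟨h3, h4⟩
    refine ⟨?_, ?_⟩
    · rw [mul_smul]
      exact rM_inv.eqv.trans h1 ((Des_rM a).2 h3)
    · rw [mul_smul]
      exact rM_inv.eqv.trans h2 ((Des_rM a).2 h4)
  one_mem' := by
    refine ⟨?_, ?_⟩
    · rw [one_smul]
      exact rM_inv.eqv.refl _
    · rw [one_smul]
      exact rM_inv.eqv.refl _
  inv_mem' := by
    rintro a ⟨h1, h2⟩
    refine ⟨?_, ?_⟩
    · rw [← Des_rM a, smul_inv_smul]
      exact rM_inv.eqv.symm h1
    · rw [← Des_rM a, smul_inv_smul]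
      exact rM_inv.eqv.symm h2

theorem DesJ_MS [Fintype Ω] [DecidableEq Ω] {m : G} (hm : m ∈ MS G Ω) (x y : Ω) :
    m ∈ DesJ G x y := ⟨⟨m, hm, rfl⟩, ⟨m, hm, rfl⟩⟩

/-- The index of a point stabilizer in a subgroup whose orbit is a class. -/
theorem Des_idx [Fintype Ω] [DecidableEq Ω] (J : Subgroup G) (x : Ω)
    (h1 : ∀ g ∈ J, rM G x (g • x)) (h2 : ∀ z, rM G x z → ∃ g ∈ J, g • x = z) :
    Nat.card J = Nat.card {z // rM G x z} * Nat.card (J ⊓ stabilizer G x : Subgroup G) := by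
  have h3 : Nat.card (orbit J x) = Nat.card {z // rM G x z} := by
    refine Nat.card_congr (Equiv.subtypeEquivRight fun z => ?_)
    constructor
    · rintro ⟨g, rfl⟩
      exact h1 g.1 g.2
    · intro hz
      obtain ⟨g, hg, rfl⟩ := h2 z hz
      exact ⟨⟨g, hg⟩, rfl⟩
  have h4 : Nat.card (stabilizer J x) = Nat.card (J ⊓ stabilizer G x : Subgroup G) := by
    refine Nat.card_congr ⟨fun g => ⟨g.1.1, g.1.2, g.2⟩, fun g => ⟨⟨g.1, g.2.1⟩, g.2.2⟩, ?_, ?_⟩
    · intro g
      rfl
    · intro g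
      rfl
  rw [← h3, ← h4, ← Nat.card_prod]
  exact (Nat.card_congr (orbitProdStabilizerEquivGroup J x)).symm

/-- **All.**  If all the points of the orbit of `y0` are ends of arcs starting at `x0`: contradiction.

Proof.  All pairs `(x, y)` with `rM x0 x`, `rM y0 y` are arcs: `x = m x0` with `m ∈ MS`, and `(x0, m⁻¹ y)` is an
arc.  Let `J` be the subgroup of the `g` with `rM x0 (g x0)` and `rM y0 (g y0)`; for `a`, `b ∈ J` the pair
`(a x0, b y0)` is an arc, so `(a x0, b y0) = g (x0, y0)`, and `g ∈ J`.  `f3` with `κ1 = κ2 = m` (the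
orbits of `x0` and `y0` under `J ≥ MS` are the two `MS`-orbits) and `v1 = v2 = 4` by `Sys.tame2` and `chiJ_le`:
`4 m ^ 2 ≤ 2 m ^ 2 chiJ (st2 G x0 y0) ≤ 0`. -/
theorem des_all (h : Sys R σ x0 y0) [Fintype Ω] [DecidableEq Ω] (hp : Ppr (rM G (Ω := Ω)))
    (h2t : ∀ x a b : Ω, rM G x a → rM G x b → a ≠ x → b ≠ x → ∃ g : G, g • x = x ∧ g • a = b)
    (h28 : 28 ≤ Nat.card {z // rM G x0 z})
    (h1 : Nat.card {y // (x0, y) ∈ arcs G x0 y0 ∧ rM G y0 y} = Nat.card {z // rM G x0 z}) :
    False := by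
  classical
  have hall : ∀ y, rM G y0 y → (x0, y) ∈ arcs G x0 y0 := by
    rw [Des_m h.tr x0 y0, Nat.card_eq_fintype_card, Fintype.card_subtype, Nat.card_eq_fintype_card,
      Fintype.card_subtype] at h1
    have hsub : (Finset.univ.filter fun y => (x0, y) ∈ arcs G x0 y0 ∧ rM G y0 y) ⊆
        Finset.univ.filter fun z => rM G y0 z := by
      intro y hy
      rw [Finset.mem_filter] at hy ⊢
      exact ⟨hy.1, hy.2.2⟩
    have h2 := Finset.eq_of_subset_of_card_le hsub h1.symm.le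
    intro y hy
    have h3 : y ∈ Finset.univ.filter fun z => rM G y0 z :=
      Finset.mem_filter.2 ⟨Finset.mem_univ _, hy⟩
    rw [← h2, Finset.mem_filter] at h3
    exact h3.2.1
  have hall2 : ∀ x y, rM G x0 x → rM G y0 y → (x, y) ∈ arcs G x0 y0 := by
    rintro x y ⟨m, hm, rfl⟩ hy
    have h2 := hall (m⁻¹ • y) ((Des_rMm ((MS G Ω).inv_mem hm)).2 hy)
    have h3 := (Des_map m).2 h2
    rwa [smul_inv_smul] at h3
  have hxJ : ∀ j ∈ DesJ G x0 y0, rM G x0 (j • x0) := fun j hj => hj.1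
  have hyJ : ∀ j ∈ DesJ G x0 y0, rM G y0 (j • y0) := fun j hj => hj.2
  have hk1 := Des_idx (DesJ G x0 y0) x0 hxJ (by
    rintro z ⟨m, hm, rfl⟩
    exact ⟨m, DesJ_MS hm _ _, rfl⟩)
  have hk2 := Des_idx (DesJ G x0 y0) y0 hyJ (by
    rintro z ⟨m, hm, rfl⟩
    exact ⟨m, DesJ_MS hm _ _, rfl⟩)
  have h28' : 28 ≤ Nat.card {z // rM G y0 z} := by
    rw [← Des_m h.tr x0 y0]
    exact h28
  have hmv : ∀ x : Ω, 28 ≤ Nat.card {z // rM G x z} → ∃ j ∈ DesJ G x0 y0, j • x ≠ x := by
    intro x hx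
    by_contra hcon
    push Not at hcon
    have : Subsingleton {z // rM G x z} := by
      refine ⟨fun a b => Subtype.ext ?_⟩
      obtain ⟨m, hm, ha⟩ := a.2
      obtain ⟨m', hm', hb⟩ := b.2
      rw [← ha, ← hb, hcon m (DesJ_MS hm _ _), hcon m' (DesJ_MS hm' _ _)]
    have h5 := Finite.card_le_one_iff_subsingleton.2 this
    omega
  have key := f3 h (J := DesJ G x0 y0) (x := x0) (y := y0) (by
      intro g hg
      have hg1 : g • x0 = x0 := hg.1
      have hg2 : g • y0 = y0 := hg.2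
      refine ⟨?_, ?_⟩
      · rw [hg1]
        exact rM_inv.eqv.refl _
      · rw [hg2]
        exact rM_inv.eqv.refl _)
    (by
      intro a ha b hb
      obtain ⟨g, hg1, hg2⟩ := mem_arcs.1 (hall2 (a • x0) (b • y0) ha.1 hb.2)
      have hg1' : g • x0 = a • x0 := hg1
      have hg2' : g • y0 = b • y0 := hg2
      refine ⟨g, ⟨?_, ?_⟩, hg1', hg2'⟩
      · rw [hg1']
        exact ha.1
      · rw [hg2']
        exact hb.2) hk1 hk2 (v1 := 4) (v2 := 4) (by norm_num) (by norm_num)
    (by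
      intro j hj hne
      exact chiJ_le R σ inf_le_right (by norm_num)
        (h.tame2 _ rM_inv hp h2t x0 (j • x0) (Ne.symm hne) hj.1 h28))
    (by
      intro j hj hne
      exact chiJ_le R σ inf_le_right (by norm_num)
        (h.tame2 _ rM_inv hp h2t y0 (j • y0) (Ne.symm hne) hj.2 h28'))
    (hmv x0 h28) (hmv y0 h28')
  rw [← Des_m h.tr x0 y0] at key
  have hlow := h.low
  have hm : (28 : ℚ) ≤ (Nat.card {z // rM G x0 z} : ℚ) := by exact_mod_cast h28
  obtain ⟨q, hq⟩ : ∃ q : ℚ, q = (Nat.card {z // rM G x0 z} : ℚ) := ⟨_, rfl⟩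
  rw [← hq] at hm key
  have hq2 : 0 < q ^ 2 := by positivity
  nlinarith [mul_nonneg hq2.le (neg_nonneg.2 hlow)]

end WildT
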