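import Pool.Agent.helper44.TG.ChiB
import Pool.Agent.helper44.TG.Brn

/-! The inequality for a subgroup acting transitively on a rectangle. -/

namespace WildT

open MulAction

variable {G : Type} [Group G] [Fintype G] {ι : Type} {Ω : Type} [MulAction G Ω] {R : Finset ι}
  {σ : ι → G} {x0 y0 : Ω}

private theorem FThr_map {J K : Subgroup G} (hKJ : K ≤ J) (g : G) (u : G ⧸ K) :
    Subgroup.quotientMapOfLE hKJ (g • u) = g • Subgroup.quotientMapOfLE hKJ u := by
  obtain ⟨a, rfl⟩ := QuotientGroup.mk_surjective u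
  rfl

private theorem FThr_fib {J K : Subgroup G} (hKJ : K ≤ J) [Fintype (G ⧸ K)] [Fintype (G ⧸ J)]
    [DecidableEq (G ⧸ J)] {κ : ℕ} (h : Nat.card J = κ * Nat.card K) (w : G ⧸ J) :
    (Finset.univ.filter fun u : G ⧸ K => Subgroup.quotientMapOfLE hKJ u = w).card = κ := by
  classical
  have hsame : ∀ w : G ⧸ J,
      (Finset.univ.filter fun u : G ⧸ K => Subgroup.quotientMapOfLE hKJ u = w).card =
      (Finset.univ.filter fun u : G ⧸ K => Subgroup.quotientMapOfLE hKJ u =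
        ((1 : G) : G ⧸ J)).card := by
    intro w
    obtain ⟨g, rfl⟩ := QuotientGroup.mk_surjective w
    refine Finset.card_bij' (fun u _ => g⁻¹ • u) (fun u _ => g • u) ?_ ?_ ?_ ?_
    · intro u hu
      rw [Finset.mem_filter] at hu ⊢
      refine ⟨Finset.mem_univ _, ?_⟩
      rw [FThr_map, hu.2, MulAction.Quotient.smul_coe, smul_eq_mul, inv_mul_cancel]
    · intro u hu
      rw [Finset.mem_filter] at hu ⊢
      refine ⟨Finset.mem_univ _, ?_⟩
      rw [FThr_map, hu.2, MulAction.Quotient.smul_coe, smul_eq_mul, mul_one]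
    · intro u _
      simp
    · intro u _
      simp
  have hsum : Fintype.card (G ⧸ K) = Fintype.card (G ⧸ J) *
      (Finset.univ.filter fun u : G ⧸ K => Subgroup.quotientMapOfLE hKJ u =
        ((1 : G) : G ⧸ J)).card := by
    have h1 : (Finset.univ : Finset (G ⧸ K)).card = ∑ w : G ⧸ J,
        (Finset.univ.filter fun u : G ⧸ K => Subgroup.quotientMapOfLE hKJ u = w).card :=
      Finset.card_eq_sum_card_fiberwise (fun _ _ => Finset.mem_univ _)
    rw [Finset.card_univ] at h1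
    rw [h1, Finset.sum_congr rfl (fun w _ => hsame w), Finset.sum_const, Finset.card_univ,
      smul_eq_mul]
  rw [hsame w]
  have h2 := Subgroup.card_eq_card_quotient_mul_card_subgroup K
  have h3 := Subgroup.card_eq_card_quotient_mul_card_subgroup J
  rw [Nat.card_eq_fintype_card (α := G ⧸ K), hsum] at h2
  rw [Nat.card_eq_fintype_card (α := G ⧸ J)] at h3
  have h4 : 0 < Fintype.card (G ⧸ J) := Fintype.card_pos
  have h5 : 0 < Nat.card K := Nat.card_pos
  set m := (Finset.univ.filter fun u : G ⧸ K => Subgroup.quotientMapOfLE hKJ u =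
        ((1 : G) : G ⧸ J)).card with hm
  have h6 : Fintype.card (G ⧸ J) * (κ * Nat.card K) = Fintype.card (G ⧸ J) * (m * Nat.card K) := by
    rw [← h, ← h3, h2, mul_assoc]
  have h7 := Nat.eq_of_mul_eq_mul_left h4 h6
  exact (Nat.eq_of_mul_eq_mul_right h5 h7).symm

private theorem FThr_orbit {Z : Type} [Fintype Z] [MulAction G Z] (z0 : Z) (S : Finset Z)
    (hS : ∀ z, z ∈ S ↔ ∃ g : G, g • z0 = z) :
    ∑ z ∈ S, exz R σ z = chiJ R σ (stabilizer G z0) := by
  rw [← chiJ_orbit R σ z0]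
  apply Finset.sum_congr _ (fun _ _ => rfl)
  ext z
  rw [hS]
  simp

private theorem FThr_rel {J : Subgroup G} {a b : G} (h : ((a : G) : G ⧸ J) = (b : G ⧸ J)) :
    a⁻¹ * b ∈ J := QuotientGroup.eq.1 h

private theorem FThr_mid {J : Subgroup G} {x y : Ω} (hxy : st2 G x y ≤ J)
    (htr : ∀ a ∈ J, ∀ b ∈ J, ∃ j ∈ J, j • x = a • x ∧ j • y = b • y)
    [Fintype (G ⧸ (J ⊓ stabilizer G x))] [Fintype (G ⧸ (J ⊓ stabilizer G y))]
    [DecidableEq (G ⧸ J)] :
    ∑ p ∈ fp (Subgroup.quotientMapOfLE (inf_le_left : J ⊓ stabilizer G x ≤ J))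
      (Subgroup.quotientMapOfLE (inf_le_left : J ⊓ stabilizer G y ≤ J)), exz R σ p =
      chiJ R σ (st2 G x y) := by
  classical
  set z0 : (G ⧸ (J ⊓ stabilizer G x)) × (G ⧸ (J ⊓ stabilizer G y)) :=
    (((1 : G) : G ⧸ (J ⊓ stabilizer G x)), ((1 : G) : G ⧸ (J ⊓ stabilizer G y))) with hz0
  have hst : stabilizer G z0 = st2 G x y := by
    rw [hz0, st2_eq, MulAction.stabilizer_quotient, MulAction.stabilizer_quotient]
    ext g
    simp only [Subgroup.mem_inf]
    constructor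
    · rintro ⟨⟨_, h1⟩, _, h2⟩
      exact ⟨h1, h2⟩
    · rintro ⟨h1, h2⟩
      have h3 : g ∈ J := hxy ⟨h1, h2⟩
      exact ⟨⟨h3, h1⟩, h3, h2⟩
  rw [← hst]
  apply FThr_orbit
  rintro ⟨u, v⟩
  obtain ⟨a, rfl⟩ := QuotientGroup.mk_surjective u
  obtain ⟨b, rfl⟩ := QuotientGroup.mk_surjective v
  unfold fp
  rw [Finset.mem_filter]
  constructor
  · rintro ⟨_, h1⟩
    have h2 : a⁻¹ * b ∈ J := FThr_rel h1
    obtain ⟨j, hj, hjx, hjy⟩ := htr 1 J.one_mem _ h2
    refine ⟨a * j, ?_⟩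
    refine Prod.ext ?_ ?_
    · change ((a * j * 1 : G) : G ⧸ (J ⊓ stabilizer G x)) = ((a : G) : G ⧸ (J ⊓ stabilizer G x))
      rw [mul_one]
      apply Eq.symm
      apply QuotientGroup.eq.2
      rw [inv_mul_cancel_left]
      refine ⟨hj, ?_⟩
      change j • x = x
      rw [hjx, one_smul]
    · change ((a * j * 1 : G) : G ⧸ (J ⊓ stabilizer G y)) = ((b : G) : G ⧸ (J ⊓ stabilizer G y))
      rw [mul_one]
      apply QuotientGroup.eq.2
      refine ⟨?_, ?_⟩
      · have h3 : (a * j)⁻¹ * b = j⁻¹ * (a⁻¹ * b) := by group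
        rw [h3]
        exact J.mul_mem (J.inv_mem hj) h2
      · change ((a * j)⁻¹ * b) • y = y
        have h3 : (a * j)⁻¹ * b = j⁻¹ * (a⁻¹ * b) := by group
        rw [h3, mul_smul, ← hjy, inv_smul_smul]
  · rintro ⟨g, hg⟩
    refine ⟨Finset.mem_univ _, ?_⟩
    have hg1 : ((g * 1 : G) : G ⧸ (J ⊓ stabilizer G x)) = ((a : G) : G ⧸ (J ⊓ stabilizer G x)) :=
      congrArg Prod.fst hg
    have hg2 : ((g * 1 : G) : G ⧸ (J ⊓ stabilizer G y)) = ((b : G) : G ⧸ (J ⊓ stabilizer G y)) :=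
      congrArg Prod.snd hg
    have hg3 := congrArg (Subgroup.quotientMapOfLE (inf_le_left : J ⊓ stabilizer G x ≤ J)) hg1
    have hg4 := congrArg (Subgroup.quotientMapOfLE (inf_le_left : J ⊓ stabilizer G y ≤ J)) hg2
    exact hg3.symm.trans hg4

private theorem FThr_self (h : Sys R σ x0 y0) {J K : Subgroup G} {x : Ω}
    (hK : K = J ⊓ stabilizer G x) (hKJ : K ≤ J) {v : ℚ} (hv : 0 ≤ v)
    (hx : ∀ j ∈ J, j • x ≠ x → v ≤ chiJ R σ (J ⊓ st2 G x (j • x)))
    (hx1 : ∃ j ∈ J, j • x ≠ x)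
    [Fintype (G ⧸ K)] [DecidableEq (G ⧸ J)] :
    v - 2 ≤ ∑ p ∈ fp (Subgroup.quotientMapOfLE hKJ)
      (Subgroup.quotientMapOfLE hKJ), exz R σ p := by
  classical
  have hKm : ∀ g : G, g ∈ K ↔ g ∈ J ∧ g • x = x := by
    intro g
    rw [hK]
    exact Iff.rfl
  set q : G ⧸ K → G ⧸ J := Subgroup.quotientMapOfLE hKJ with hq
  change v - 2 ≤ ∑ p ∈ fp q q, exz R σ p
  rw [← Finset.sum_filter_add_sum_filter_not (fp q q) (fun p => p.1 = p.2)]
  have hdiag : ∑ p ∈ (fp q q).filter (fun p => p.1 = p.2), exz R σ p = chiJ R σ K := by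
    have h1 : ∑ p ∈ (fp q q).filter (fun p => p.1 = p.2), exz R σ p =
        ∑ u : G ⧸ K, exz R σ u := by
      apply Eq.symm
      refine Finset.sum_bij' (fun u _ => (u, u)) (fun p _ => p.1) ?_ ?_ ?_ ?_ ?_
      · intro u _
        rw [Finset.mem_filter]
        refine ⟨?_, rfl⟩
        unfold fp
        rw [Finset.mem_filter]
        exact ⟨Finset.mem_univ _, rfl⟩
      · intro p _
        exact Finset.mem_univ _
      · intro u _
        rfl
      · intro p hp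
        rw [Finset.mem_filter] at hp
        exact Prod.ext rfl hp.2
      · intro u _
        exact (exz_inj (f := fun u : G ⧸ K => (u, u)) (fun g z => rfl)
          (fun a b hab => (Prod.mk.inj hab).1) R σ u).symm
    rw [h1]
    have h2 : stabilizer G ((1 : G) : G ⧸ K) = K := MulAction.stabilizer_quotient K
    have h3 := FThr_orbit (R := R) (σ := σ) ((1 : G) : G ⧸ K) Finset.univ
    rw [h2] at h3
    apply h3
    intro u
    refine ⟨fun _ => ?_, fun _ => Finset.mem_univ _⟩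
    obtain ⟨a, rfl⟩ := QuotientGroup.mk_surjective u
    refine ⟨a, ?_⟩
    rw [MulAction.Quotient.smul_coe, smul_eq_mul, mul_one]
  have hoff : v ≤ ∑ p ∈ (fp q q).filter (fun p => ¬ p.1 = p.2), exz R σ p := by
    have hmem : ∀ p : (G ⧸ K) × (G ⧸ K),
        p ∈ (fp q q).filter (fun p => ¬ p.1 = p.2) ↔ q p.1 = q p.2 ∧ ¬ p.1 = p.2 := by
      intro p
      unfold fp
      rw [Finset.mem_filter, Finset.mem_filter]
      constructor
      · rintro ⟨⟨_, h1⟩, h2⟩
        exact ⟨h1, h2⟩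
      · rintro ⟨h1, h2⟩
        exact ⟨⟨Finset.mem_univ _, h1⟩, h2⟩
    apply sum_ge R σ _ _ _ hv
    · intro z hz
      rw [hmem] at hz
      obtain ⟨z1, z2⟩ := z
      obtain ⟨a, rfl⟩ := QuotientGroup.mk_surjective z1
      obtain ⟨b, rfl⟩ := QuotientGroup.mk_surjective z2
      have hj : a⁻¹ * b ∈ J := FThr_rel hz.1
      have hjx : (a⁻¹ * b) • x ≠ x := by
        intro h1
        apply hz.2
        apply QuotientGroup.eq.2
        exact (hKm _).2 ⟨hj, h1⟩
      have hz2 : (((a : G) : G ⧸ K), ((b : G) : G ⧸ K)) =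
          a • (((1 : G) : G ⧸ K), ((a⁻¹ * b : G) : G ⧸ K)) := by
        rw [Prod.smul_mk, MulAction.Quotient.smul_coe, MulAction.Quotient.smul_coe, smul_eq_mul,
          smul_eq_mul, mul_one, mul_inv_cancel_left]
      rw [hz2, chiJ_conj]
      refine chiJ_le R σ ?_ hv (hx _ hj hjx)
      rw [st2_eq, MulAction.stabilizer_quotient]
      intro g hg
      obtain ⟨hg1, hg2⟩ := hg
      have hg1 := (hKm _).1 hg1
      refine ⟨hg1.1, hg1.2, ?_⟩
      have h1 : g • ((a⁻¹ * b : G) : G ⧸ K) = ((a⁻¹ * b : G) : G ⧸ K) := hg2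
      rw [MulAction.Quotient.smul_coe, smul_eq_mul] at h1
      have h2 := QuotientGroup.eq.1 h1
      have h3 : ((g * (a⁻¹ * b))⁻¹ * (a⁻¹ * b)) • x = x := ((hKm _).1 h2).2
      change g • (a⁻¹ * b) • x = (a⁻¹ * b) • x
      rw [← mul_smul]
      rw [mul_smul, inv_smul_eq_iff] at h3
      exact h3.symm
    · intro g z hz
      rw [hmem] at hz ⊢
      refine ⟨?_, ?_⟩
      · change q (g • z.1) = q (g • z.2)
        rw [hq, FThr_map, FThr_map, ← hq, hz.1]
      · change ¬ (g • z.1 = g • z.2)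
        intro h1
        exact hz.2 (MulAction.injective g h1)
    · obtain ⟨j, hj, hjx⟩ := hx1
      refine ⟨(((1 : G) : G ⧸ K), ((j : G) : G ⧸ K)), ?_⟩
      rw [hmem]
      refine ⟨?_, ?_⟩
      · change ((1 : G) : G ⧸ J) = ((j : G) : G ⧸ J)
        apply QuotientGroup.eq.2
        rw [inv_one, one_mul]
        exact hj
      · intro h1
        have h2 := QuotientGroup.eq.1 h1
        rw [inv_one, one_mul] at h2
        exact hjx ((hKm _).1 h2).2
  have hge := h.ge K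
  rw [hdiag]
  linarith

/-- **The inequality (F3).**

Proof.  `W = G ⧸ J`, `X1 = G ⧸ (J ⊓ stabilizer x)`, `X2 = G ⧸ (J ⊓ stabilizer y)`, `p1`, `p2` the natural maps
(`Subgroup.quotientMapOfLE` or `Quotient.map'`); the fibres have `κ1`, `κ2` elements.  `burnside_ineq`.
(1) `fp p1 p2` is the orbit of the pair of the base points, whose stabilizer is
`J ⊓ stabilizer x ⊓ stabilizer y = st2 G x y` (`hxy`): a pair over `g J` is, after applying `g⁻¹`, of the form
`(a J_x, b J_y)` with `a, b ∈ J`; choose `j ∈ J` with `j x = a x`, `j y = b y` (`htr`), so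
`j J_x = a J_x`, `j J_y = b J_y`.  So its sum is `chiJ (st2 G x y)` (`chiJ_orbit`).
(2) `fp p1 p1` is the disjoint union of the diagonal and of the off-diagonal pairs.  The sum over the
diagonal is the sum over `X1` (`exz_inj` for `u ↦ (u, u)`), which is `chiJ (J ⊓ stabilizer x) ≥ -2` (`Sys.ge`,
`chiJ_orbit` for the base point).  The off-diagonal pairs form an invariant set, not empty by `hx1`; the
stabilizer of the pair `(g J_x, g j J_x)`, `j ∈ J`, `j x ≠ x`, is conjugate by `g` to the stabilizer of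
`(J_x, j J_x)`, which is contained in `J ⊓ st2 G x (j x)` and even equal to it; `chiJ_conj`, `chiJ_le`,
`hx`, `sum_ge`: the sum is at least `v1`.  So the sum over `fp p1 p1` is at least `v1 - 2`.
(3) The same for `fp p2 p2`. -/
theorem f3 (h : Sys R σ x0 y0) {J : Subgroup G} {x y : Ω} (hxy : st2 G x y ≤ J)
    (htr : ∀ a ∈ J, ∀ b ∈ J, ∃ j ∈ J, j • x = a • x ∧ j • y = b • y) {κ1 κ2 : ℕ}
    (h1 : Nat.card J = κ1 * Nat.card (J ⊓ stabilizer G x : Subgroup G))
    (h2 : Nat.card J = κ2 * Nat.card (J ⊓ stabilizer G y : Subgroup G)) {v1 v2 : ℚ}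
    (hv1 : 0 ≤ v1) (hv2 : 0 ≤ v2)
    (hx : ∀ j ∈ J, j • x ≠ x → v1 ≤ chiJ R σ (J ⊓ st2 G x (j • x)))
    (hy : ∀ j ∈ J, j • y ≠ y → v2 ≤ chiJ R σ (J ⊓ st2 G y (j • y)))
    (hx1 : ∃ j ∈ J, j • x ≠ x) (hy1 : ∃ j ∈ J, j • y ≠ y) :
    (κ2 : ℚ) ^ 2 * (v1 - 2) + (κ1 : ℚ) ^ 2 * (v2 - 2) ≤
      2 * κ1 * κ2 * chiJ R σ (st2 G x y) := by
  classical
  let _ : Fintype (G ⧸ J) := Fintype.ofFinite _
  let _ : Fintype (G ⧸ (J ⊓ stabilizer G x)) := Fintype.ofFinite _
  let _ : Fintype (G ⧸ (J ⊓ stabilizer G y)) := Fintype.ofFinite _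
  have hb := burnside_ineq
    (p1 := Subgroup.quotientMapOfLE (inf_le_left : J ⊓ stabilizer G x ≤ J))
    (p2 := Subgroup.quotientMapOfLE (inf_le_left : J ⊓ stabilizer G y ≤ J))
    (FThr_map _) (FThr_map _) (FThr_fib _ h1) (FThr_fib _ h2) R σ
  rw [FThr_mid hxy htr] at hb
  have hs1 := FThr_self h rfl (inf_le_left : J ⊓ stabilizer G x ≤ J) hv1 hx hx1
  have hs2 := FThr_self h rfl (inf_le_left : J ⊓ stabilizer G y ≤ J) hv2 hy hy1
  have hm1 := mul_le_mul_of_nonneg_left hs1 (sq_nonneg (κ2 : ℚ))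
  have hm2 := mul_le_mul_of_nonneg_left hs2 (sq_nonneg (κ1 : ℚ))
  linarith

/-- **The strict inequality.**  `e = σ c ^ k ∈ J` fixes all `j x` and moves some `j y`.

Proof.  As before with `burnside_strict` for the base point `w = J` of `G ⧸ J`: all `κ1` points over it in
`X1` are fixed (`e j J_x = j J_x` because `j⁻¹ e j ∈ J` fixes `x`), and not all `κ2` points in `X2`.
(It is best to prove both statements together.) -/
theorem f3_strict (h : Sys R σ x0 y0) {J : Subgroup G} {x y : Ω} (hxy : st2 G x y ≤ J)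
    (htr : ∀ a ∈ J, ∀ b ∈ J, ∃ j ∈ J, j • x = a • x ∧ j • y = b • y) {κ1 κ2 : ℕ}
    (h1 : Nat.card J = κ1 * Nat.card (J ⊓ stabilizer G x : Subgroup G))
    (h2 : Nat.card J = κ2 * Nat.card (J ⊓ stabilizer G y : Subgroup G)) {v1 v2 : ℚ}
    (hv1 : 0 ≤ v1) (hv2 : 0 ≤ v2)
    (hx : ∀ j ∈ J, j • x ≠ x → v1 ≤ chiJ R σ (J ⊓ st2 G x (j • x)))
    (hy : ∀ j ∈ J, j • y ≠ y → v2 ≤ chiJ R σ (J ⊓ st2 G y (j • y)))
    (hx1 : ∃ j ∈ J, j • x ≠ x) (hy1 : ∃ j ∈ J, j • y ≠ y)
    {c : ι} (hc : c ∈ R) (k : ℕ) (he : σ c ^ k ∈ J)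
    (hfix : ∀ j ∈ J, σ c ^ k • j • x = j • x) (hmv : ∃ j ∈ J, σ c ^ k • j • y ≠ j • y) :
    (κ2 : ℚ) ^ 2 * (v1 - 2) + (κ1 : ℚ) ^ 2 * (v2 - 2) <
      2 * κ1 * κ2 * chiJ R σ (st2 G x y) := by
  classical
  let _ : Fintype (G ⧸ J) := Fintype.ofFinite _
  let _ : Fintype (G ⧸ (J ⊓ stabilizer G x)) := Fintype.ofFinite _
  let _ : Fintype (G ⧸ (J ⊓ stabilizer G y)) := Fintype.ofFinite _
  have hκ1 : 0 < κ1 := by
    rcases Nat.eq_zero_or_pos κ1 with h0 | h0
    · rw [h0, zero_mul] at h1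
      exact absurd h1 (Nat.card_pos (α := J)).ne'
    · exact h0
  have hf1 : (Finset.univ.filter fun u : G ⧸ (J ⊓ stabilizer G x) =>
      Subgroup.quotientMapOfLE (inf_le_left : J ⊓ stabilizer G x ≤ J) u = ((1 : G) : G ⧸ J) ∧
        σ c ^ k • u = u).card = κ1 := by
    rw [← FThr_fib (inf_le_left : J ⊓ stabilizer G x ≤ J) h1 ((1 : G) : G ⧸ J)]
    congr 1
    apply Finset.filter_congr
    intro u _
    constructor
    · exact fun hu => hu.1
    · intro hu
      refine ⟨hu, ?_⟩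
      obtain ⟨a, rfl⟩ := QuotientGroup.mk_surjective u
      have ha : a ∈ J := by
        have h3 := FThr_rel (J := J) (a := a) (b := 1) hu
        rw [mul_one] at h3
        exact (J.inv_mem_iff).1 h3
      rw [MulAction.Quotient.smul_coe, smul_eq_mul]
      apply QuotientGroup.eq.2
      refine ⟨?_, ?_⟩
      · exact J.mul_mem (J.inv_mem (J.mul_mem he ha)) ha
      · change ((σ c ^ k * a)⁻¹ * a) • x = x
        rw [mul_smul, inv_smul_eq_iff, mul_smul]
        exact (hfix a ha).symm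
  have hf2 : (Finset.univ.filter fun u : G ⧸ (J ⊓ stabilizer G y) =>
      Subgroup.quotientMapOfLE (inf_le_left : J ⊓ stabilizer G y ≤ J) u = ((1 : G) : G ⧸ J) ∧
        σ c ^ k • u = u).card < κ2 := by
    rw [← FThr_fib (inf_le_left : J ⊓ stabilizer G y ≤ J) h2 ((1 : G) : G ⧸ J)]
    apply Finset.card_lt_card
    rw [Finset.ssubset_iff_of_subset]
    · obtain ⟨j, hj, hjy⟩ := hmv
      refine ⟨((j : G) : G ⧸ (J ⊓ stabilizer G y)), ?_, ?_⟩
      · rw [Finset.mem_filter]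
        refine ⟨Finset.mem_univ _, ?_⟩
        change ((j : G) : G ⧸ J) = ((1 : G) : G ⧸ J)
        apply QuotientGroup.eq.2
        rw [mul_one]
        exact J.inv_mem hj
      · rw [Finset.mem_filter]
        rintro ⟨_, _, h3⟩
        rw [MulAction.Quotient.smul_coe, smul_eq_mul] at h3
        have h4 := QuotientGroup.eq.1 h3
        have h5 : ((σ c ^ k * j)⁻¹ * j) • y = y := h4.2
        rw [mul_smul, inv_smul_eq_iff, mul_smul] at h5
        exact hjy h5.symm
    · intro u hu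
      rw [Finset.mem_filter] at hu ⊢
      exact ⟨hu.1, hu.2.1⟩
  have hb := burnside_strict
    (p1 := Subgroup.quotientMapOfLE (inf_le_left : J ⊓ stabilizer G x ≤ J))
    (p2 := Subgroup.quotientMapOfLE (inf_le_left : J ⊓ stabilizer G y ≤ J))
    (FThr_map _) (FThr_map _) (FThr_fib _ h1) (FThr_fib _ h2) R σ hc k ((1 : G) : G ⧸ J)
    (by
      rw [hf1]
      intro h3
      rw [mul_comm] at h3
      have h4 := Nat.eq_of_mul_eq_mul_left hκ1 h3
      omega)
  rw [FThr_mid hxy htr] at hb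
  have hs1 := FThr_self h rfl (inf_le_left : J ⊓ stabilizer G x ≤ J) hv1 hx hx1
  have hs2 := FThr_self h rfl (inf_le_left : J ⊓ stabilizer G y ≤ J) hv2 hy hy1
  have hm1 := mul_le_mul_of_nonneg_left hs1 (sq_nonneg (κ2 : ℚ))
  have hm2 := mul_le_mul_of_nonneg_left hs2 (sq_nonneg (κ1 : ℚ))
  linarith

end WildT
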