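import Pool.Agent.helper44.TG.LemT

/-! The genus estimate for blocks. -/

namespace WildT

open MulAction Equiv WildLD

variable {G : Type} [Group G] [Fintype G] {ι : Type} {Ω : Type} [MulAction G Ω] {R : Finset ι}
  {σ : ι → G} {x0 y0 : Ω}

/-- The number of the elements of `H`, counted by the values of a function whose fibres are in cosets of `U`. -/
theorem Gst_card_le {H U : Subgroup G} {T : Type} [Finite T] (F : H → T)
    (hF : ∀ a b : H, F a = F b → (a : G)⁻¹ * b ∈ U) : Nat.card H ≤ Nat.card T * Nat.card U := by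
  classical
  have hrep : ∀ t : T, ∃ a : H, (∃ a' : H, F a' = t) → F a = t := by
    intro t
    by_cases ht : ∃ a' : H, F a' = t
    · obtain ⟨a', ha'⟩ := ht
      exact ⟨a', fun _ => ha'⟩
    · exact ⟨1, fun h => absurd h ht⟩
  choose ρ hρ using hrep
  have hmem : ∀ a : H, (ρ (F a) : G)⁻¹ * a ∈ U := fun a => hF _ _ (hρ (F a) ⟨a, rfl⟩)
  let Φ : H → T × U := fun a => (F a, ⟨(ρ (F a) : G)⁻¹ * a, hmem a⟩)
  have hΦ : Function.Injective Φ := by
    intro a b hab
    have h1 : F a = F b := congrArg Prod.fst hab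
    have h2 : (ρ (F a) : G)⁻¹ * a = (ρ (F b) : G)⁻¹ * b :=
      congrArg (fun q : T × U => (q.2 : G)) hab
    rw [h1] at h2
    exact Subtype.ext (mul_left_cancel h2)
  calc Nat.card H ≤ Nat.card (T × U) := Nat.card_le_card_of_injective Φ hΦ
    _ = Nat.card T * Nat.card U := Nat.card_prod T U

omit [Fintype G] in
/-- One term of the comparison. -/
theorem Gst_term {H' U : Subgroup G} {x : Ω}
    (hU : ∀ u : G, u ∈ H' → (∀ h ∈ H', u • h • x = h • x) → u ∈ U) (s g : G) (hs : ∀ j ∈ H',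
      s ^ period s (g : G ⧸ H') • ((g * j : G) : G ⧸ (H' ⊓ stabilizer G x)) =
        ((g * j : G) : G ⧸ (H' ⊓ stabilizer G x))) :
    period s (g : G ⧸ U) ∣ period s (g : G ⧸ H') := by
  rw [← MulAction.pow_smul_eq_iff_period_dvd]
  set p := period s (g : G ⧸ H') with hp
  have h1 : s ^ p • (g : G ⧸ H') = (g : G ⧸ H') := MulAction.pow_period_smul s _
  have h2 : g⁻¹ * (s ^ p * g) ∈ H' := by
    have h3 : ((s ^ p * g : G) : G ⧸ H') = (g : G ⧸ H') := h1
    exact QuotientGroup.eq.1 h3.symm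
  have h4 : g⁻¹ * (s ^ p * g) ∈ U := by
    refine hU _ h2 ?_
    intro j hj
    have h5 : ((s ^ p * (g * j) : G) : G ⧸ (H' ⊓ stabilizer G x)) =
        ((g * j : G) : G ⧸ (H' ⊓ stabilizer G x)) := hs j hj
    have h6 : (g * j)⁻¹ * (s ^ p * (g * j)) ∈ H' ⊓ stabilizer G x := QuotientGroup.eq.1 h5.symm
    have h7 : ((g * j)⁻¹ * (s ^ p * (g * j))) • x = x := (Subgroup.mem_inf.1 h6).2
    have h8 : (s ^ p * (g * j)) • x = (g * j) • x := by
      rw [mul_smul, inv_smul_eq_iff] at h7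
      exact h7
    rw [mul_smul, inv_smul_eq_iff, ← mul_smul, mul_assoc, h8, mul_smul]
  have h9 : (g : G ⧸ U) = ((s ^ p * g : G) : G ⧸ U) := QuotientGroup.eq.2 h4
  exact h9.symm

/-- **The comparison of `H'` and `U`.**  `Bd c g`: the power `σ c ^ p`, `p` the period of `g H'`, does not fix all
points `g h E`, `h ∈ H'`.  If it is false, then `g⁻¹ σ c ^ p g` lies in `H'` and fixes all the points `h x`,
`h ∈ H'`, so it lies in `U` and the period of `g U` divides `p`.

Proof.  `exz (g H') ≥ exz (g U) - ∑ over the c with Bd of 1 / p`: if `Bd c g` is false, the period of `g U` divides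
`p`; if it is true, `1 / p ≤ 1 / period (g U) + 1 / p`.  Sum over `g` (`chiJ_sum`). -/
theorem gst_cmp {H' U : Subgroup G} {x : Ω}
    (hU : ∀ u : G, u ∈ H' → (∀ h ∈ H', u • h • x = h • x) → u ∈ U)
    (Bd : ι → G → Prop) [∀ c g, Decidable (Bd c g)]
    (hBd : ∀ c g, ¬ Bd c g → ∀ j ∈ H', σ c ^ period (σ c) (g : G ⧸ H') •
      ((g * j : G) : G ⧸ (H' ⊓ stabilizer G x)) = ((g * j : G) : G ⧸ (H' ⊓ stabilizer G x))) :
    (Nat.card U : ℚ) * chiJ R σ U - (∑ g : G, ∑ c ∈ R,
        if Bd c g then 1 / (period (σ c) (g : G ⧸ H') : ℚ) else 0) ≤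
      (Nat.card H' : ℚ) * chiJ R σ H' := by
  rw [← chiJ_sum, ← chiJ_sum, ← Finset.sum_sub_distrib]
  refine Finset.sum_le_sum fun g _ => ?_
  unfold exz
  have hterm : ∑ c ∈ R, ((1 - 1 / (period (σ c) (g : G ⧸ U) : ℚ)) -
      (if Bd c g then 1 / (period (σ c) (g : G ⧸ H') : ℚ) else 0)) ≤
      ∑ c ∈ R, (1 - 1 / (period (σ c) (g : G ⧸ H') : ℚ)) := by
    refine Finset.sum_le_sum fun c _ => ?_
    have hq : (0 : ℚ) < (period (σ c) (g : G ⧸ U) : ℚ) := by
      exact_mod_cast period_pos' (σ c) (g : G ⧸ U)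
    have hpp : 0 < period (σ c) (g : G ⧸ H') := period_pos' (σ c) (g : G ⧸ H')
    by_cases hb : Bd c g
    · rw [if_pos hb]
      have : 0 ≤ 1 / (period (σ c) (g : G ⧸ U) : ℚ) := by positivity
      linarith
    · rw [if_neg hb]
      have hd := Gst_term hU (σ c) g (hBd c g hb)
      have hle : (period (σ c) (g : G ⧸ U) : ℚ) ≤ (period (σ c) (g : G ⧸ H') : ℚ) := by
        exact_mod_cast Nat.le_of_dvd hpp hd
      have := one_div_le_one_div_of_le hq hle
      linarith
  rw [Finset.sum_sub_distrib] at hterm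
  linarith

/-- **The genus estimate.**  `r` a proper invariant equivalence relation whose classes have at most `b` elements,
`h0` an element which preserves the classes of `x` and of `y` and moves `x`, `chiJ (st2 x y) ≤ 0`.

Proof.  `H = {g : r x (g x)}`, `H' = {g ∈ H : r y (g y)}`, `E = H' ⊓ stabilizer x`,
`U = {g ∈ H : ∀ h ∈ H', g h x = h x}` (subgroups), `κ` the index of `E` in `H'`, i.e. the number of the points
`h x`, `h ∈ H'`; `κ ≤ b`.
(1) `chiJ E ≤ 0`: `st2 x y ≤ E`, `chiJ_nonpos`.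
(2) `2 ≤ chiJ U`: `U` fixes `x` and `h0 x ≠ x`; `Sys.L2`.
(3) With `Bd` = (the power moves some `g j E`) and `S = ∑ g, ∑ c, if Bd then 1 / period`: `chi_gain` for `E ≤ H'`:
`card H' * chiJ H' + (card E / card H') * S ≤ card E * chiJ E ≤ 0`, so `S ≤ - card H' * κ * chiJ H'`.
(4) `gst_cmp`: `2 card U - S ≤ card H' * chiJ H'`.  So `2 card U ≤ card H' * chiJ H' - card H' * κ * chiJ H' =
(κ - 1) card H' (- chiJ H') ≤ 2 (κ - 1) card H'` (`Sys.ge`), `card U ≤ (κ - 1) card H' ≤ b * card H'`.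
(5) `card H ≤ b ^ b * card U`: `H` acts on the maps from the set `{h x}` of at most `b` points to the class of `x`
(at most `b` points), `U` is the stabilizer of the inclusion; (fix the points one after the other).
(6) `card H' ≤ b ^ 2 * card (st2 x y)`: `H'` acts on the pairs of points of the two classes, and the
stabilizer of `(x, y)` is `st2 x y`.
(7) `card (stabilizer x) ≤ card H ≤ b ^ b * b * b ^ 2 * card (st2 x y)`. -/
theorem gest (h : Sys R σ x0 y0) [Fintype Ω] {r : Ω → Ω → Prop} (hr : Inv G r) (hp : Ppr r)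
    {b : ℕ} (hb : ∀ x, Nat.card {z // r x z} ≤ b) {x y : Ω}
    (hxy : chiJ R σ (st2 G x y) ≤ 0) {h0 : G} (h1 : r x (h0 • x)) (h2 : r y (h0 • y))
    (h3 : h0 • x ≠ x) :
    Nat.card (stabilizer G x) ≤ b ^ (b + 3) * Nat.card (st2 G x y) := by
  classical
  -- the subgroups
  have hinv : ∀ (z : Ω) (g : G), r z (g • z) → r z (g⁻¹ • z) := by
    intro z g hg
    have h4 := hr.map g⁻¹ _ _ hg
    rw [inv_smul_smul] at h4
    exact hr.eqv.symm h4
  have hmul : ∀ (z : Ω) (g g' : G), r z (g • z) → r z (g' • z) → r z ((g * g') • z) := by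
    intro z g g' hg hg'
    have h4 := hr.map g _ _ hg'
    rw [mul_smul]
    exact hr.eqv.trans hg h4
  have hone : ∀ z : Ω, r z ((1 : G) • z) := by
    intro z
    rw [one_smul]
    exact hr.eqv.refl z
  let Hc : Ω → Subgroup G := fun z =>
    { carrier := {g | r z (g • z)}
      mul_mem' := fun {a b} ha hb => hmul z a b ha hb
      one_mem' := hone z
      inv_mem' := fun {a} ha => hinv z a ha }
  have hHc : ∀ z g, g ∈ Hc z ↔ r z (g • z) := fun z g => Iff.rfl
  set H : Subgroup G := Hc x with hH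
  set H' : Subgroup G := Hc x ⊓ Hc y with hH'
  have hmH : ∀ g, g ∈ H ↔ r x (g • x) := fun g => hHc x g
  have hmH' : ∀ g, g ∈ H' ↔ r x (g • x) ∧ r y (g • y) := by
    intro g
    rw [hH', Subgroup.mem_inf, hHc, hHc]
  let U : Subgroup G :=
    { carrier := {g | g ∈ H ∧ ∀ h ∈ H', g • h • x = h • x}
      mul_mem' := by
        rintro a b ⟨ha1, ha2⟩ ⟨hb1, hb2⟩
        refine ⟨H.mul_mem ha1 hb1, ?_⟩
        intro j hj
        rw [mul_smul, hb2 j hj, ha2 j hj]
      one_mem' := ⟨H.one_mem, fun j _ => one_smul G _⟩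
      inv_mem' := by
        rintro a ⟨ha1, ha2⟩
        refine ⟨H.inv_mem ha1, ?_⟩
        intro j hj
        rw [inv_smul_eq_iff]
        exact (ha2 j hj).symm }
  have hmU : ∀ g, g ∈ U ↔ g ∈ H ∧ ∀ h ∈ H', g • h • x = h • x := fun g => Iff.rfl
  have h0m : h0 ∈ H' := (hmH' h0).2 ⟨h1, h2⟩
  have hst : st2 G x y ≤ H' ⊓ stabilizer G x := by
    intro g hg
    have hg1 : g • x = x := (Subgroup.mem_inf.1 hg).1
    have hg2 : g • y = y := (Subgroup.mem_inf.1 hg).2
    refine Subgroup.mem_inf.2 ⟨(hmH' g).2 ⟨?_, ?_⟩, hg1⟩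
    · rw [hg1]; exact hr.eqv.refl x
    · rw [hg2]; exact hr.eqv.refl y
  -- (1)
  have hE0 : chiJ R σ (H' ⊓ stabilizer G x) ≤ 0 := chiJ_nonpos R σ hst hxy
  -- (2)
  have hU2 : 2 ≤ chiJ R σ U := by
    refine h.L2 hr hp (Ne.symm h3) h1 ?_
    intro g hg
    have hg2 := ((hmU g).1 hg).2
    refine Subgroup.mem_inf.2 ⟨?_, ?_⟩
    · have := hg2 1 H'.one_mem
      rw [one_smul] at this
      exact this
    · exact hg2 h0 h0m
  -- the predicate
  let Bd : ι → G → Prop := fun c g => ¬ ∀ j ∈ H', σ c ^ period (σ c) (g : G ⧸ H') •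
      ((g * j : G) : G ⧸ (H' ⊓ stabilizer G x)) = ((g * j : G) : G ⧸ (H' ⊓ stabilizer G x))
  set S : ℚ := ∑ g : G, ∑ c ∈ R,
        if Bd c g then 1 / (period (σ c) (g : G ⧸ H') : ℚ) else 0 with hS
  have hgain : (Nat.card H' : ℚ) * chiJ R σ H' +
      ((Nat.card (H' ⊓ stabilizer G x : Subgroup G) : ℚ) / Nat.card H') * S ≤
      (Nat.card (H' ⊓ stabilizer G x : Subgroup G) : ℚ) *
        chiJ R σ (H' ⊓ stabilizer G x) := by
    refine chi_gain R σ inf_le_left Bd ?_
    intro c _ g hb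
    have hb' : ¬ ∀ j ∈ H', σ c ^ period (σ c) (g : G ⧸ H') •
      ((g * j : G) : G ⧸ (H' ⊓ stabilizer G x)) = ((g * j : G) : G ⧸ (H' ⊓ stabilizer G x)) := hb
    push Not at hb'
    exact hb'
  have hcmp : (Nat.card U : ℚ) * chiJ R σ U - S ≤ (Nat.card H' : ℚ) * chiJ R σ H' := by
    refine gst_cmp (x := x) ?_ Bd ?_
    · intro u hu hu'
      exact (hmU u).2 ⟨(hmH u).2 ((hmH' u).1 hu).1, hu'⟩
    · intro c g hb
      exact not_not.1 hb
  -- the cardinalities
  have hfin : ∀ z : Ω, Finite {w // r z w} := fun z => inferInstance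
  have hcE : Nat.card H' ≤ b * Nat.card (H' ⊓ stabilizer G x : Subgroup G) := by
    have h4 := Gst_card_le (H := H') (U := H' ⊓ stabilizer G x) (T := {z // r x z})
      (fun g => ⟨(g : G) • x, ((hmH' g).1 g.2).1⟩) ?_
    · exact h4.trans (Nat.mul_le_mul_right _ (hb x))
    · intro u v huv
      have h5 : (u : G) • x = (v : G) • x := congrArg Subtype.val huv
      refine Subgroup.mem_inf.2 ⟨H'.mul_mem (H'.inv_mem u.2) v.2, ?_⟩
      rw [MulAction.mem_stabilizer_iff, mul_smul, inv_smul_eq_iff]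
      exact h5.symm
  have hb1 : 1 ≤ b := by
    refine le_trans ?_ (hb x)
    have : Nonempty {z // r x z} := ⟨⟨x, hr.eqv.refl x⟩⟩
    exact Nat.one_le_iff_ne_zero.2 (Nat.card_ne_zero.2 ⟨this, inferInstance⟩)
  have hcH : Nat.card H ≤ b ^ b * Nat.card U := by
    have hP : Nat.card {z : Ω // ∃ j ∈ H', j • x = z} ≤ b := by
      refine le_trans ?_ (hb x)
      refine Nat.card_le_card_of_injective
        (fun z => (⟨z.1, ?_⟩ : {z // r x z})) ?_
      · obtain ⟨z, j, hj, rfl⟩ := z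
        exact ((hmH' j).1 hj).1
      · intro z z' hzz
        have hzz' : (z : Ω) = z' := Subtype.mk.inj hzz
        exact Subtype.ext hzz'
    have h4 := Gst_card_le (H := H) (U := U)
      (T := {z : Ω // ∃ j ∈ H', j • x = z} → {z // r x z})
      (fun g p => ⟨(g : G) • (p : Ω), ?_⟩) ?_
    · refine h4.trans (Nat.mul_le_mul_right _ ?_)
      rw [Nat.card_fun]
      calc Nat.card {z // r x z} ^ Nat.card {z : Ω // ∃ j ∈ H', j • x = z}
          ≤ b ^ Nat.card {z : Ω // ∃ j ∈ H', j • x = z} := Nat.pow_le_pow_left (hb x) _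
        _ ≤ b ^ b := Nat.pow_le_pow_right hb1 hP
    · obtain ⟨z, j, hj, rfl⟩ := p
      have h5 := hr.map (g : G) _ _ ((hmH' j).1 hj).1
      exact hr.eqv.trans ((hmH g).1 g.2) h5
    · intro u v huv
      refine (hmU _).2 ⟨H.mul_mem (H.inv_mem u.2) v.2, ?_⟩
      intro j hj
      have h5 := congrFun huv ⟨j • x, j, hj, rfl⟩
      have h6 : (u : G) • j • x = (v : G) • j • x := congrArg Subtype.val h5
      rw [mul_smul, inv_smul_eq_iff]
      exact h6.symm
  have hcH' : Nat.card H' ≤ b ^ 2 * Nat.card (st2 G x y) := by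
    have h4 := Gst_card_le (H := H') (U := st2 G x y) (T := {z // r x z} × {z // r y z})
      (fun g => (⟨(g : G) • x, ((hmH' g).1 g.2).1⟩, ⟨(g : G) • y, ((hmH' g).1 g.2).2⟩)) ?_
    · refine h4.trans (Nat.mul_le_mul_right _ ?_)
      rw [Nat.card_prod, pow_two]
      exact Nat.mul_le_mul (hb x) (hb y)
    · intro u v huv
      have h5 : (u : G) • x = (v : G) • x :=
        congrArg (fun q : {z // r x z} × {z // r y z} => (q.1 : Ω)) huv
      have h6 : (u : G) • y = (v : G) • y :=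
        congrArg (fun q : {z // r x z} × {z // r y z} => (q.2 : Ω)) huv
      refine Subgroup.mem_inf.2 ⟨?_, ?_⟩
      · rw [MulAction.mem_stabilizer_iff, mul_smul, inv_smul_eq_iff]
        exact h5.symm
      · rw [MulAction.mem_stabilizer_iff, mul_smul, inv_smul_eq_iff]
        exact h6.symm
  -- (4)
  have hcU : Nat.card U ≤ b * Nat.card H' := by
    have hge : -2 ≤ chiJ R σ H' := h.ge H'
    have hEpos : (0 : ℚ) < (Nat.card (H' ⊓ stabilizer G x : Subgroup G) : ℚ) := by
      exact_mod_cast Nat.card_pos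
    have hHpos : (0 : ℚ) < (Nat.card H' : ℚ) := by exact_mod_cast Nat.card_pos
    have hUpos : (0 : ℚ) < (Nat.card U : ℚ) := by exact_mod_cast Nat.card_pos
    have hcE' : (Nat.card H' : ℚ) ≤ b * (Nat.card (H' ⊓ stabilizer G x : Subgroup G) : ℚ) := by
      exact_mod_cast hcE
    have hEH : (Nat.card (H' ⊓ stabilizer G x : Subgroup G) : ℚ) ≤ (Nat.card H' : ℚ) := by
      exact_mod_cast Subgroup.card_le_of_le (inf_le_left : H' ⊓ stabilizer G x ≤ H')
    set e : ℚ := (Nat.card (H' ⊓ stabilizer G x : Subgroup G) : ℚ) with he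
    set m : ℚ := (Nat.card H' : ℚ) with hm
    set u : ℚ := (Nat.card U : ℚ) with hu
    set χ : ℚ := chiJ R σ H' with hχ
    have hB : (0 : ℚ) ≤ (b : ℚ) := by positivity
    have hB1 : (1 : ℚ) ≤ (b : ℚ) := by exact_mod_cast hb1
    have hg0 : m * χ + (e / m) * S ≤ 0 :=
      hgain.trans (mul_nonpos_of_nonneg_of_nonpos hEpos.le hE0)
    -- S ≤ - b m χ if χ ≤ 0
    have h2u : 2 * u ≤ u * chiJ R σ U := by nlinarith
    have h4 : 2 * u - S ≤ m * χ := by linarith
    -- `e * S ≤ - m * m * χ`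
    have h5 : e * S ≤ - (m * m * χ) := by
      have h6 : m * (m * χ + (e / m) * S) ≤ 0 :=
        mul_nonpos_of_nonneg_of_nonpos hHpos.le hg0
      have h7 : m * (m * χ + (e / m) * S) = m * m * χ + e * S := by
        field_simp
      linarith
    have h8 : e * (2 * u) ≤ e * S + e * (m * χ) := by
      have := mul_le_mul_of_nonneg_left h4 hEpos.le
      linarith
    have h9 : e * (2 * u) ≤ (m - e) * (m * (-χ)) := by nlinarith
    have h10 : (m - e) * (m * (-χ)) ≤ (m - e) * (m * 2) := by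
      refine mul_le_mul_of_nonneg_left ?_ (by linarith)
      exact mul_le_mul_of_nonneg_left (by linarith) hHpos.le
    have h11 : e * u ≤ e * (b * m) := by
      have h12 : (m - e) * m ≤ (b * e) * m :=
        mul_le_mul_of_nonneg_right (by linarith) hHpos.le
      nlinarith
    have h13 : u ≤ b * m := le_of_mul_le_mul_left h11 hEpos
    rw [hu, hm] at h13
    exact_mod_cast h13
  -- (7)
  have hsH : Nat.card (stabilizer G x) ≤ Nat.card H := by
    refine Subgroup.card_le_of_le ?_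
    intro g hg
    have hg1 : g • x = x := hg
    rw [hmH, hg1]
    exact hr.eqv.refl x
  calc Nat.card (stabilizer G x) ≤ Nat.card H := hsH
    _ ≤ b ^ b * Nat.card U := hcH
    _ ≤ b ^ b * (b * Nat.card H') := Nat.mul_le_mul_left _ hcU
    _ ≤ b ^ b * (b * (b ^ 2 * Nat.card (st2 G x y))) :=
        Nat.mul_le_mul_left _ (Nat.mul_le_mul_left _ hcH')
    _ = b ^ (b + 3) * Nat.card (st2 G x y) := by ring

end WildT
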