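import Pool.Agent.helper44.TG.Snt
import Pool.Agent.helper44.TG.Ari

/-! Quotients with a Galois closure of genus at most one.  (proofs: helper41) -/

namespace WildT

open MulAction Equiv WildLD

variable {G : Type} [Group G] [Fintype G] {ι : Type} {Ω : Type} [MulAction G Ω] {R : Finset ι}
  {σ : ι → G} {x0 y0 : Ω}

open Classical in
theorem LemT_card_coset (J' : Subgroup G) (j0 : G) :
    (Finset.univ.filter (fun j : G => j0⁻¹ * j ∈ J')).card = Nat.card J' := by
  have h1 : Nat.card J' = (Finset.univ.filter (fun g : G => g ∈ J')).card :=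
    Nat.subtype_card _ (fun x => by simp)
  rw [h1]
  refine Finset.card_bij (fun g _ => j0⁻¹ * g) ?_ ?_ ?_
  · intro g hg
    simpa using hg
  · intro a _ b _ hab
    exact mul_left_cancel hab
  · intro b hb
    refine ⟨j0 * b, ?_, ?_⟩
    · simpa using hb
    · simp

open Classical in
/-- **A fibre on which `σ c ^ p` acts nontrivially.**  `J' ≤ J` subgroups, `g ∈ G`, `p` the period of the coset `g J` under
`s`.  If `s ^ p` does not fix all the points of the fibre over `g J` in `G ⧸ J'`, the sum over the fibre of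
`1 / p - 1 / period` is at least `1 / p`.  Written as a sum over `J`:
`∑ j ∈ J, (1 / p - 1 / period s (g j J')) ≥ card J' / p`.

Proof.  The period of `g j J'` is a multiple of `p` (`period_map`), so all terms are nonnegative.  If `s ^ p`
moves `g j J'`, its period is at least `2 p`, and the term is at least `1 / (2 p)`; the points `g j J'` and
`s ^ p g j J' ≠ g j J'` (again in the fibre, `s ^ p g j J = g J`) are both moved.  Each of them is `g j' J'` for
exactly `card J'` elements `j' ∈ J`. -/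
theorem fibre_gain {J' J : Subgroup G} (hJ : J' ≤ J) (s g : G)
    (hmv : ∃ j ∈ J, s ^ period s (g : G ⧸ J) • ((g * j : G) : G ⧸ J') ≠ ((g * j : G) : G ⧸ J')) :
    (Nat.card J' : ℚ) / period s (g : G ⧸ J) ≤
      ∑ j ∈ Finset.univ.filter (fun j : G => j ∈ J),
        (1 / (period s (g : G ⧸ J) : ℚ) - 1 / (period s ((g * j : G) : G ⧸ J') : ℚ)) := by
  obtain ⟨j0, hj0, hne⟩ := hmv
  set p := period s (g : G ⧸ J) with hp
  have hp0 : 0 < p := period_pos' _ _
  have hpQ : (0 : ℚ) < p := by exact_mod_cast hp0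
  have hcos : ∀ j ∈ J, ((g * j : G) : G ⧸ J) = (g : G ⧸ J) := by
    intro j hj
    rw [QuotientGroup.eq]
    have : (g * j)⁻¹ * g = j⁻¹ := by group
    rw [this]
    exact J.inv_mem hj
  have hdvd : ∀ j ∈ J, p ∣ period s ((g * j : G) : G ⧸ J') := by
    intro j hj
    have h1 := period_map (f := Subgroup.quotientMapOfLE hJ)
      (fun a y => by
        induction y using QuotientGroup.induction_on with
        | H y => rfl) s ((g * j : G) : G ⧸ J')
    have h2 : Subgroup.quotientMapOfLE hJ ((g * j : G) : G ⧸ J') = ((g * j : G) : G ⧸ J) := rfl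
    rw [h2, hcos j hj] at h1
    exact h1
  have hqpos : ∀ j : G, 0 < period s ((g * j : G) : G ⧸ J') := fun j => period_pos' _ _
  have hnn : ∀ j ∈ J, (0 : ℚ) ≤ 1 / (p : ℚ) - 1 / (period s ((g * j : G) : G ⧸ J') : ℚ) := by
    intro j hj
    have h1 : p ≤ period s ((g * j : G) : G ⧸ J') := Nat.le_of_dvd (hqpos j) (hdvd j hj)
    have h2 : (1 : ℚ) / (period s ((g * j : G) : G ⧸ J') : ℚ) ≤ 1 / (p : ℚ) :=
      one_div_le_one_div_of_le hpQ (by exact_mod_cast h1)
    linarith
  have hmvd : ∀ j ∈ J, s ^ p • ((g * j : G) : G ⧸ J') ≠ ((g * j : G) : G ⧸ J') →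
      (1 : ℚ) / (2 * p) ≤ 1 / (p : ℚ) - 1 / (period s ((g * j : G) : G ⧸ J') : ℚ) := by
    intro j hj hm
    obtain ⟨q, hq⟩ := hdvd j hj
    have hq0 := hqpos j
    have hq2 : 2 ≤ q := by
      rcases Nat.lt_or_ge q 2 with h | h
      · interval_cases q
        · omega
        · exfalso
          apply hm
          have h3 : period s ((g * j : G) : G ⧸ J') = p := by omega
          rw [← h3]
          exact MulAction.pow_period_smul s _
      · exact h
    have h3 : 2 * p ≤ period s ((g * j : G) : G ⧸ J') := by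
      rw [hq]
      nlinarith
    have h4 : (1 : ℚ) / (period s ((g * j : G) : G ⧸ J') : ℚ) ≤ 1 / (2 * p : ℚ) :=
      one_div_le_one_div_of_le (by positivity) (by exact_mod_cast h3)
    have h5 : (1 : ℚ) / (p : ℚ) = 1 / (2 * p) + 1 / (2 * p) := by
      field_simp
      norm_num
    linarith
  have hsg : g⁻¹ * s ^ p * g ∈ J := by
    have h1 : s ^ p • (g : G ⧸ J) = (g : G ⧸ J) := by
      rw [hp]
      exact MulAction.pow_period_smul s _
    have h2 : ((s ^ p * g : G) : G ⧸ J) = (g : G ⧸ J) := h1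
    rw [eq_comm, QuotientGroup.eq] at h2
    rwa [← mul_assoc] at h2
  obtain ⟨j1, hj1⟩ : ∃ j1, j1 = g⁻¹ * s ^ p * g * j0 := ⟨_, rfl⟩
  have hj1J : j1 ∈ J := by
    rw [hj1]
    exact J.mul_mem hsg hj0
  have hz1 : ((g * j1 : G) : G ⧸ J') = s ^ p • ((g * j0 : G) : G ⧸ J') := by
    have h1 : g * j1 = s ^ p * (g * j0) := by
      rw [hj1]
      group
    rw [h1]
    rfl
  have hne1 : s ^ p • ((g * j1 : G) : G ⧸ J') ≠ ((g * j1 : G) : G ⧸ J') := by
    rw [hz1]
    intro h1
    exact hne (smul_left_cancel _ h1)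
  have hz01 : ((g * j1 : G) : G ⧸ J') ≠ ((g * j0 : G) : G ⧸ J') := by
    rw [hz1]
    exact hne
  have hcoe : ∀ a j : G, a⁻¹ * j ∈ J' → ((g * j : G) : G ⧸ J') = ((g * a : G) : G ⧸ J') := by
    intro a j h1
    rw [eq_comm, QuotientGroup.eq]
    have h2 : (g * a)⁻¹ * (g * j) = a⁻¹ * j := by group
    rw [h2]
    exact h1
  set T0 := Finset.univ.filter (fun j : G => j0⁻¹ * j ∈ J') with hT0
  set T1 := Finset.univ.filter (fun j : G => j1⁻¹ * j ∈ J') with hT1
  have hdis : Disjoint T0 T1 := by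
    rw [Finset.disjoint_left]
    intro j h0 h1
    rw [hT0, Finset.mem_filter] at h0
    rw [hT1, Finset.mem_filter] at h1
    exact hz01 ((hcoe j1 j h1.2).symm.trans (hcoe j0 j h0.2))
  have hmemJ : ∀ a ∈ J, ∀ j : G, a⁻¹ * j ∈ J' → j ∈ J := by
    intro a ha j h1
    have h2 : j = a * (a⁻¹ * j) := by group
    rw [h2]
    exact J.mul_mem ha (hJ h1)
  have hsub : T0 ∪ T1 ⊆ Finset.univ.filter (fun j : G => j ∈ J) := by
    intro j hj
    rw [Finset.mem_union, hT0, hT1, Finset.mem_filter, Finset.mem_filter] at hj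
    rw [Finset.mem_filter]
    rcases hj with h1 | h1
    · exact ⟨Finset.mem_univ _, hmemJ j0 hj0 j h1.2⟩
    · exact ⟨Finset.mem_univ _, hmemJ j1 hj1J j h1.2⟩
  have hsum := Finset.sum_le_sum_of_subset_of_nonneg (f := fun j : G =>
      (1 / (p : ℚ) - 1 / (period s ((g * j : G) : G ⧸ J') : ℚ))) hsub
    (fun j hj _ => hnn j (Finset.mem_filter.1 hj).2)
  refine le_trans ?_ hsum
  rw [Finset.sum_union hdis]
  have hb : ∀ a ∈ J, s ^ p • ((g * a : G) : G ⧸ J') ≠ ((g * a : G) : G ⧸ J') →
      (Nat.card J' : ℚ) * (1 / (2 * p)) ≤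
      ∑ j ∈ Finset.univ.filter (fun j : G => a⁻¹ * j ∈ J'),
        (1 / (p : ℚ) - 1 / (period s ((g * j : G) : G ⧸ J') : ℚ)) := by
    intro a ha hma
    have h1 : ∀ j ∈ Finset.univ.filter (fun j : G => a⁻¹ * j ∈ J'), (1 : ℚ) / (2 * p) ≤
        (1 / (p : ℚ) - 1 / (period s ((g * j : G) : G ⧸ J') : ℚ)) := by
      intro j hj
      have h2 := (Finset.mem_filter.1 hj).2
      rw [hcoe a j h2]
      exact hmvd a ha hma
    have h3 := Finset.sum_le_sum h1
    rw [Finset.sum_const, nsmul_eq_mul, LemT_card_coset] at h3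
    exact h3
  have h0 := hb j0 hj0 hne
  have h1 := hb j1 hj1J hne1
  have h2 : (Nat.card J' : ℚ) / p = Nat.card J' * (1 / (2 * p)) + Nat.card J' * (1 / (2 * p)) := by
    field_simp
    norm_num
  rw [h2]
  exact add_le_add h0 h1

/-- The comparison of the Euler numbers of `J' ≤ J` with a set `Bd` of pairs `(c, g)` at which there is a
gain (`fibre_gain`).

Proof.  `∑ g, exz (g J') = card J' * chiJ J'`.  Replace `g` by `g j` and average over `j ∈ J`
(`∑ g, F g = (1 / card J) ∑ g ∑ j, F (g j)`); `exz (g j J') - exz (g J) = ∑ c, (1 / period (g J) - 1 / period (g j J'))`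
(`g j J = g J`), where all terms are nonnegative, and for `(c, g) ∈ Bd` the sum over `j` is at least
`card J' / period`. -/
theorem chi_gain (R : Finset ι) (σ : ι → G) {J' J : Subgroup G} (hJ : J' ≤ J)
    (Bd : ι → G → Prop) [∀ c g, Decidable (Bd c g)]
    (hBd : ∀ c ∈ R, ∀ g, Bd c g → ∃ j ∈ J, σ c ^ period (σ c) (g : G ⧸ J) •
      ((g * j : G) : G ⧸ J') ≠ ((g * j : G) : G ⧸ J')) :
    (Nat.card J : ℚ) * chiJ R σ J +
      ((Nat.card J' : ℚ) / Nat.card J) * (∑ g : G, ∑ c ∈ R,
        if Bd c g then 1 / (period (σ c) (g : G ⧸ J) : ℚ) else 0) ≤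
      (Nat.card J' : ℚ) * chiJ R σ J' := by
  classical
  have hJpos : (0 : ℚ) < Nat.card J := by exact_mod_cast Nat.card_pos
  have hcardJ : ((Finset.univ.filter (fun j : G => j ∈ J)).card : ℚ) = (Nat.card J : ℚ) := by
    have h1 := LemT_card_coset J 1
    simp only [inv_one, one_mul] at h1
    rw [h1]
  rw [← chiJ_sum R σ J, ← chiJ_sum R σ J']
  have hshift : ∀ j : G, ∑ g : G, exz R σ ((g * j : G) : G ⧸ J') = ∑ g : G, exz R σ (g : G ⧸ J') :=
    fun j => Fintype.sum_equiv (Equiv.mulRight j) _ _ (fun _ => rfl)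
  have havg : (Nat.card J : ℚ) * ∑ g : G, exz R σ (g : G ⧸ J') =
      ∑ g : G, ∑ j ∈ Finset.univ.filter (fun j : G => j ∈ J), exz R σ ((g * j : G) : G ⧸ J') := by
    rw [Finset.sum_comm]
    rw [Finset.sum_congr rfl (fun j _ => hshift j), Finset.sum_const, nsmul_eq_mul, hcardJ]
  have havg2 : (Nat.card J : ℚ) * ∑ g : G, exz R σ (g : G ⧸ J) =
      ∑ g : G, ∑ j ∈ Finset.univ.filter (fun j : G => j ∈ J), exz R σ (g : G ⧸ J) := by
    rw [Finset.mul_sum]
    refine Finset.sum_congr rfl (fun g _ => ?_)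
    rw [Finset.sum_const, nsmul_eq_mul, hcardJ]
  have hdiff : ∀ g : G, ∀ j ∈ Finset.univ.filter (fun j : G => j ∈ J),
      exz R σ ((g * j : G) : G ⧸ J') - exz R σ (g : G ⧸ J) =
      ∑ c ∈ R, (1 / (period (σ c) (g : G ⧸ J) : ℚ) -
        1 / (period (σ c) ((g * j : G) : G ⧸ J') : ℚ)) := by
    intro g j _
    unfold exz
    rw [show ∀ a b : ℚ, (a - 2) - (b - 2) = a - b from fun a b => by ring,
      ← Finset.sum_sub_distrib]
    exact Finset.sum_congr rfl (fun c _ => by ring)
  have hterm : ∀ g : G, ∀ c ∈ R, (Nat.card J' : ℚ) *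
      (if Bd c g then 1 / (period (σ c) (g : G ⧸ J) : ℚ) else 0) ≤
      ∑ j ∈ Finset.univ.filter (fun j : G => j ∈ J), (1 / (period (σ c) (g : G ⧸ J) : ℚ) -
        1 / (period (σ c) ((g * j : G) : G ⧸ J') : ℚ)) := by
    intro g c hc
    split_ifs with hb
    · have h1 := fibre_gain hJ (σ c) g (hBd c hc g hb)
      rw [mul_one_div]
      exact h1
    · rw [mul_zero]
      refine Finset.sum_nonneg (fun j hj => ?_)
      have hjJ := (Finset.mem_filter.1 hj).2
      have h1 := period_map (f := Subgroup.quotientMapOfLE hJ)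
        (fun a y => by
          induction y using QuotientGroup.induction_on with
          | H y => rfl) (σ c) ((g * j : G) : G ⧸ J')
      have h2 : Subgroup.quotientMapOfLE hJ ((g * j : G) : G ⧸ J') = (g : G ⧸ J) := by
        have h3 : ((g * j : G) : G ⧸ J) = (g : G ⧸ J) := by
          rw [QuotientGroup.eq]
          have : (g * j)⁻¹ * g = j⁻¹ := by group
          rw [this]
          exact J.inv_mem hjJ
        exact h3
      rw [h2] at h1
      have h4 : 0 < period (σ c) (g : G ⧸ J) := period_pos' _ _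
      have h5 : period (σ c) (g : G ⧸ J) ≤ period (σ c) ((g * j : G) : G ⧸ J') :=
        Nat.le_of_dvd (period_pos' _ _) h1
      have h6 : (1 : ℚ) / (period (σ c) ((g * j : G) : G ⧸ J') : ℚ) ≤
          1 / (period (σ c) (g : G ⧸ J) : ℚ) :=
        one_div_le_one_div_of_le (by exact_mod_cast h4) (by exact_mod_cast h5)
      linarith
  have htot : (Nat.card J' : ℚ) * (∑ g : G, ∑ c ∈ R,
      if Bd c g then 1 / (period (σ c) (g : G ⧸ J) : ℚ) else 0) ≤
      (Nat.card J : ℚ) * ∑ g : G, exz R σ (g : G ⧸ J') -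
        (Nat.card J : ℚ) * ∑ g : G, exz R σ (g : G ⧸ J) := by
    rw [havg, havg2, ← Finset.sum_sub_distrib, Finset.mul_sum]
    refine Finset.sum_le_sum (fun g _ => ?_)
    rw [← Finset.sum_sub_distrib, Finset.sum_congr rfl (hdiff g), Finset.sum_comm, Finset.mul_sum]
    exact Finset.sum_le_sum (fun c hc => hterm g c hc)
  have hfin : ((Nat.card J' : ℚ) / Nat.card J) * (∑ g : G, ∑ c ∈ R,
      if Bd c g then 1 / (period (σ c) (g : G ⧸ J) : ℚ) else 0) ≤
      ∑ g : G, exz R σ (g : G ⧸ J') - ∑ g : G, exz R σ (g : G ⧸ J) := by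
    rw [div_mul_eq_mul_div, div_le_iff₀ hJpos]
    linarith
  linarith

open Classical in
theorem LemT_card_le {J : Subgroup G} {x : Ω} {Y : Type} {f : Ω → Y} {C : ℕ}
    [Fintype Ω] (hC : Nat.card {z // f z = f x} ≤ C) (hJ : ∀ g ∈ J, f (g • x) = f x) :
    Nat.card J ≤ Nat.card (stabilizer G x) * C := by
  have h1 : Nat.card J = (Finset.univ.filter (fun g : G => g ∈ J)).card :=
    Nat.subtype_card _ (fun x => by simp)
  have h2 := Finset.card_le_mul_card_image (f := fun g : G => g • x)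
    (Finset.univ.filter (fun g : G => g ∈ J)) (Nat.card (stabilizer G x)) (by
      intro a ha
      obtain ⟨g0, hg0, rfl⟩ := Finset.mem_image.1 ha
      rw [← LemT_card_coset (stabilizer G x) g0]
      refine Finset.card_le_card ?_
      intro g hg
      rw [Finset.mem_filter] at hg ⊢
      refine ⟨Finset.mem_univ _, ?_⟩
      rw [mem_stabilizer_iff, mul_smul, hg.2, inv_smul_smul])
  have h3 : ((Finset.univ.filter (fun g : G => g ∈ J)).image (fun g : G => g • x)).card ≤ C := by
    refine le_trans ?_ hC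
    have h4 : Nat.card {z // f z = f x} = (Finset.univ.filter (fun z : Ω => f z = f x)).card :=
      Nat.subtype_card _ (fun x => by simp)
    rw [h4]
    refine Finset.card_le_card ?_
    intro z hz
    obtain ⟨g, hg, rfl⟩ := Finset.mem_image.1 hz
    rw [Finset.mem_filter]
    exact ⟨Finset.mem_univ _, hJ g (Finset.mem_filter.1 hg).2⟩
  rw [h1]
  exact h2.trans (Nat.mul_le_mul_left _ h3)

/-- **Lemma T.**

Proof.  Let `K` be the kernel of the action on `Y` (normal; intransitive on `Ω` because `Y` has two points, the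
fibres are unions of `K`-orbits), `o' c` the order of `σ c` on `Y`, `x ∈ Ω`, `J = K ⊔ stabilizer x` (the elements
mapping `x` into `K x`), `J' = stabilizer x`, `k = card (K x)`, so `card J = k * card J'`, `k ≤ C` (`K x` is
contained in a fibre), `card Ω * card J' = card G`.  `chiJ J = chiJ J' = -2` (`over`, `base`).
Suppose `σ c ^ o' c ≠ 1` for some `c ∈ R` with `o' c ≤ 6`.  It lies in `K`.  For every `g` the period `p` of `g J` divides
`o' c` (`g⁻¹ σ ^ (o' c) g ∈ K ≤ J`), and `σ c ^ p` moves some `g j J'`: otherwise it fixes all the points `g j x`,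
i.e. the `K`-orbit of `g x`, and so does `σ c ^ (o' c)`, contradicting `snt`.  `chi_gain` with `Bd` = (this
`c`): `- 2 card J + (card J' / card J) * (card G / 6) ≤ - 2 card J'`; so `card G / card J ≤ 12 (k - 1)`, and
`card Ω = k * card G / card J ≤ 12 k ^ 2`.
Otherwise the order of `σ c` is `o' c` whenever `o' c ≤ 6`, and `sig` contradicts `gal`. -/
theorem lemT (h : Sys R σ x0 y0) [Fintype Ω] {Y : Type} [MulAction G Y] {f : Ω → Y} {C : ℕ}
    (hf : Quo G f C) (hs : ∑ c ∈ R, (1 - 1 / (orderOf (toPermHom G Y (σ c)) : ℚ)) ≤ 2) :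
    Fintype.card Ω ≤ 12 * C ^ 2 := by
  classical
  set K : Subgroup G := (toPermHom G Y).ker with hK
  have hKn : K.Normal := by
    rw [hK]
    infer_instance
  have hKY : ∀ m ∈ K, ∀ y : Y, m • y = y := by
    intro m hm y
    have h1 : toPermHom G Y m = 1 := hm
    have h2 := congrArg (fun e : Perm Y => e y) h1
    exact h2
  have hint : ∃ x y : Ω, ∀ m ∈ K, m • x ≠ y := by
    obtain ⟨y, y', hne⟩ := hf.two
    obtain ⟨x, rfl⟩ := hf.surj y
    obtain ⟨x', rfl⟩ := hf.surj y'
    refine ⟨x, x', fun m hm hmx => hne ?_⟩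
    rw [← hmx, hf.map, hKY m hm]
  by_cases hcase : ∃ c ∈ R, orderOf (toPermHom G Y (σ c)) ≤ 6 ∧
      σ c ^ orderOf (toPermHom G Y (σ c)) ≠ 1
  · obtain ⟨c, hc, ho6, hne⟩ := hcase
    set o := orderOf (toPermHom G Y (σ c)) with ho
    have hoK : σ c ^ o ∈ K := by
      rw [hK, MonoidHom.mem_ker, map_pow, ho]
      exact pow_orderOf_eq_one _
    obtain ⟨J, hJdef⟩ : ∃ J : Subgroup G, J = K ⊔ stabilizer G x0 := ⟨_, rfl⟩
    have hKJ : K ≤ J := hJdef ▸ le_sup_left
    have hSJ : stabilizer G x0 ≤ J := hJdef ▸ le_sup_right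
    have hJf : ∀ g ∈ J, f (g • x0) = f x0 := by
      intro g hg
      have h1 : g ∈ ((K ⊔ stabilizer G x0 : Subgroup G) : Set G) := by
        rw [← hJdef]
        exact hg
      rw [Subgroup.normal_mul] at h1
      obtain ⟨m, hm, s, hs', rfl⟩ := h1
      have h2 : s • x0 = x0 := hs'
      simp only [mul_smul, h2]
      rw [hf.map, hKY m hm]
    have hcard : Nat.card J ≤ Nat.card (stabilizer G x0) * C := LemT_card_le (hf.fib x0) hJf
    have hdvd : ∀ g : G, period (σ c) (g : G ⧸ J) ∣ o := by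
      intro g
      rw [← MulAction.pow_smul_eq_iff_period_dvd]
      have h1 : ((σ c ^ o * g : G) : G ⧸ J) = (g : G ⧸ J) := by
        rw [eq_comm, QuotientGroup.eq, ← mul_assoc]
        apply hKJ
        have h2 := hKn.conj_mem _ hoK g⁻¹
        rwa [inv_inv] at h2
      exact h1
    have hbd : ∀ c' ∈ R, ∀ g : G, c' = c → ∃ j ∈ J, σ c' ^ period (σ c') (g : G ⧸ J) •
        ((g * j : G) : G ⧸ stabilizer G x0) ≠ ((g * j : G) : G ⧸ stabilizer G x0) := by
      rintro c' - g rfl
      obtain ⟨m, hm, hmx⟩ := snt h hKn hint hc o hoK hne (g • x0)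
      refine ⟨g⁻¹ * m * g, hKJ ?_, ?_⟩
      · have h2 := hKn.conj_mem _ hm g⁻¹
        rwa [inv_inv] at h2
      · intro heq
        apply hmx
        have h3 : g * (g⁻¹ * m * g) = m * g := by group
        rw [h3] at heq
        have h4 : σ c' ^ o • ((m * g : G) : G ⧸ stabilizer G x0) =
            ((m * g : G) : G ⧸ stabilizer G x0) := by
          rw [MulAction.pow_smul_eq_iff_period_dvd] at heq ⊢
          exact heq.trans (hdvd g)
        have h5 : ((σ c' ^ o * (m * g) : G) : G ⧸ stabilizer G x0) =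
            ((m * g : G) : G ⧸ stabilizer G x0) := h4
        rw [eq_comm, QuotientGroup.eq, mem_stabilizer_iff, mul_smul, inv_smul_eq_iff] at h5
        rw [mul_smul, mul_smul] at h5
        exact h5
    have hgain := chi_gain R σ hSJ (fun c' _ => c' = c) hbd
    rw [h.over hSJ, h.base x0] at hgain
    have hsum : (Fintype.card G : ℚ) / 6 ≤ ∑ g : G, ∑ c' ∈ R,
        if c' = c then 1 / (period (σ c') (g : G ⧸ J) : ℚ) else 0 := by
      have h1 : ∀ g ∈ (Finset.univ : Finset G), (1 : ℚ) / 6 ≤ ∑ c' ∈ R,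
          if c' = c then 1 / (period (σ c') (g : G ⧸ J) : ℚ) else 0 := by
        intro g _
        rw [Finset.sum_ite_eq' R c, if_pos hc]
        have h2 : period (σ c) (g : G ⧸ J) ≤ 6 := by
          have h3 : 0 < o := by
            rw [ho]
            have h4 : IsOfFinOrder (toPermHom G Y (σ c)) :=
              (toPermHom G Y).isOfFinOrder (isOfFinOrder_of_finite (σ c))
            exact h4.orderOf_pos
          exact (Nat.le_of_dvd h3 (hdvd g)).trans ho6
        have h5 : 0 < period (σ c) (g : G ⧸ J) := period_pos' _ _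
        exact one_div_le_one_div_of_le (by exact_mod_cast h5) (by exact_mod_cast h2)
      have h2 := Finset.sum_le_sum h1
      rw [Finset.sum_const, nsmul_eq_mul, Finset.card_univ] at h2
      linarith
    have hcO : (Nat.card (stabilizer G x0) : ℚ) * Fintype.card Ω = Fintype.card G := by
      have h1 := sum_orbit (G := G) (fun _ : Ω => (1 : ℚ)) x0
      rw [Finset.filter_true_of_mem (fun z _ => h.tr x0 z)] at h1
      simpa using h1
    have hJ0 : (0 : ℚ) < Nat.card J := by exact_mod_cast Nat.card_pos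
    have hS0 : (0 : ℚ) < Nat.card (stabilizer G x0) := by exact_mod_cast Nat.card_pos
    have hcardQ : (Nat.card J : ℚ) ≤ Nat.card (stabilizer G x0) * C := by exact_mod_cast hcard
    have h6 : (Nat.card (stabilizer G x0) : ℚ) / Nat.card J * ((Fintype.card G : ℚ) / 6) ≤
        2 * Nat.card J := by
      have h7 : (Nat.card (stabilizer G x0) : ℚ) / Nat.card J * ((Fintype.card G : ℚ) / 6) ≤
          (Nat.card (stabilizer G x0) : ℚ) / Nat.card J * ∑ g : G, ∑ c' ∈ R,
          (if c' = c then 1 / (period (σ c') (g : G ⧸ J) : ℚ) else 0) :=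
        mul_le_mul_of_nonneg_left hsum (by positivity)
      linarith
    have h8 : (Nat.card (stabilizer G x0) : ℚ) * Fintype.card G ≤ 12 * (Nat.card J : ℚ) ^ 2 := by
      rw [div_mul_div_comm, div_le_iff₀ (by positivity)] at h6
      nlinarith
    have h9 : (Nat.card (stabilizer G x0) : ℚ) * Fintype.card G ≤
        12 * ((Nat.card (stabilizer G x0) : ℚ) * C) ^ 2 := by
      refine h8.trans ?_
      gcongr
    rw [← hcO] at h9
    have h10 : (Nat.card (stabilizer G x0) : ℚ) ^ 2 * Fintype.card Ω ≤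
        (Nat.card (stabilizer G x0) : ℚ) ^ 2 * (12 * (C : ℚ) ^ 2) := by
      nlinarith
    have h11 : (Fintype.card Ω : ℚ) ≤ 12 * (C : ℚ) ^ 2 :=
      le_of_mul_le_mul_left h10 (by positivity)
    exact_mod_cast h11
  · push Not at hcase
    exfalso
    have hfo : ∀ c, 0 < orderOf (toPermHom G Y (σ c)) := by
      intro c
      have h4 : IsOfFinOrder (toPermHom G Y (σ c)) :=
        (toPermHom G Y).isOfFinOrder (isOfFinOrder_of_finite (σ c))
      exact h4.orderOf_pos
    have h1 := sig R (fun c => orderOf (σ c)) (fun c => orderOf (toPermHom G Y (σ c)))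
      (fun c _ => orderOf_pos (σ c)) (fun c _ => hfo c) (by
        intro c hc h6
        exact Nat.dvd_antisymm (orderOf_dvd_of_pow_eq_one (hcase c hc h6))
          (orderOf_map_dvd (toPermHom G Y) (σ c))) hs
    have h2 := h.gal
    linarith

end WildT
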