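import Pool.Agent.helper44.TG.TwoT
import Pool.Agent.helper44.TG.Gst

/-! Large valency excludes classes with at least two points. -/

namespace WildT

open MulAction Equiv WildLD

variable {G : Type} [Group G] [Fintype G] {ι : Type} {Ω : Type} [MulAction G Ω] {R : Finset ι}
  {σ : ι → G} {x0 y0 : Ω}

/-- **Common out-neighbours.**  Proof: `w` maps the set of the out-neighbours of `z` onto the one of `w z`; it
moves at most `504 < d` points, so it fixes some out-neighbour `y` of `z`, which is an out-neighbour of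
`w z` as well.  By arc-transitivity there is `g` with `g (z, y) = (w z, y)`. -/
theorem common (h : Sys R σ x0 y0) [Fintype Ω] [DecidableEq Ω] {d : ℕ}
    (hd : (arcs G x0 y0).card = Fintype.card Ω * d) (hd1 : 504 < d) {z : Ω} {w : G}
    (hw : Sml Ω 504 w) :
    ∃ (y : Ω) (g : G), (z, y) ∈ arcs G x0 y0 ∧ g • z = w • z ∧ g • y = y := by
  classical
  have h1 := outdeg (tr_PG h.tr) (h.quo_orb h.quo_id) hd z
  by_contra hcon
  push Not at hcon
  have h2 : ((arcs G x0 y0).filter fun p => p.1 = z).card ≤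
      (Finset.univ.filter fun y : Ω => w • y ≠ y).card := by
    refine Finset.card_le_card_of_injOn (fun p => p.2) ?_ ?_
    · intro p hp
      obtain ⟨h3, h4⟩ := Finset.mem_filter.1 (Finset.mem_coe.1 hp)
      refine Finset.mem_coe.2 (Finset.mem_filter.2 ⟨Finset.mem_univ _, ?_⟩)
      intro h5
      refine hcon p.2 w ?_ rfl h5
      rw [← h4]
      exact h3
    · intro p hp q hq hpq
      have h3 := (Finset.mem_filter.1 (Finset.mem_coe.1 hp)).2
      have h4 := (Finset.mem_filter.1 (Finset.mem_coe.1 hq)).2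
      exact Prod.ext (h3.trans h4.symm) hpq
  have h3 : (Finset.univ.filter fun y : Ω => w • y ≠ y).card ≤ 504 := hw
  have h4 : ((arcs G x0 y0).filter fun p => p.1 = z).card = d := h1
  omega

/-- **Classes with at least two points.**  Proof: `exists_inner`: `z`, `w`; `common`: `y`, `g`.  `r` is proper
(`Mx.ne`).  `gest` for `(z, y)` (an arc, `arc_low`), `h0 = g`, `b = 84` (`Mx.card_le`):
`card (stabilizer z) ≤ 84 ^ 87 * card (st2 z y)`, so `d ≤ 84 ^ 87 = dmax` (`deg_eq`). -/
theorem nbr (h : Sys R σ x0 y0) [Fintype Ω] [DecidableEq Ω] {d : ℕ}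
    (hd : (arcs G x0 y0).card = Fintype.card Ω * d) {r : Ω → Ω → Prop} (hr : Mx G r)
    (hb : ∀ z : Ω, 84 * (16 * 168 ^ 2 + 1) ^ (8 * 168) < Nat.card {w // rM G z w})
    {u v : Ω} (hne : u ≠ v) (huv : r u v) : d ≤ dmax := by
  classical
  have hdm : 504 ≤ dmax := by
    unfold dmax
    calc 504 ≤ 84 ^ 2 := by norm_num
      _ ≤ 84 ^ 87 := Nat.pow_le_pow_right (by norm_num) (by norm_num)
  rcases le_or_gt d 504 with h504 | h504
  · exact h504.trans hdm
  obtain ⟨z, w, h1, h2, h3⟩ := exists_inner h.tr hr hb hne huv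
  obtain ⟨y, g, h4, h5, h6⟩ := common h hd h504 (z := z) h1
  have hp : Ppr r := by
    obtain ⟨a, b, -, hab⟩ := hr.ne
    exact ⟨a, b, hab⟩
  have h7 := gest h hr.inv hp (b := 84) (hr.card_le h.tr) (h.arc_low h4) (h0 := g)
    (by rw [h5]; exact h2) (by rw [h6]; exact hr.inv.eqv.refl y) (by rw [h5]; exact h3)
  rw [h.deg_eq hd h4] at h7
  have h8 : 0 < Nat.card (st2 G z y) := Nat.card_pos
  exact Nat.le_of_mul_le_mul_right h7 h8

end WildT
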