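import Pool.Agent.helper44.TG.BV
import Pool.Agent.helper44.TG.Nbr
import Pool.Agent.helper44.TG.Des

/-! The main theorem on groups. -/

namespace WildT

open MulAction Equiv WildLD

variable {G : Type} [Group G] [Fintype G] {ι : Type} {Ω : Type} [MulAction G Ω] {R : Finset ι}
  {σ : ι → G} {x0 y0 : Ω}

theorem Main_pow {b n : ℕ} (hb : 1 ≤ b) (hn : 2 ≤ n) : b ^ 2 ≤ b ^ n :=
  pow_le_pow_right₀ hb hn

theorem Main_dmax : 2688 ≤ dmax := by
  have h := Main_pow (b := 84) (n := 87) (by norm_num) (by norm_num)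
  unfold dmax
  exact le_trans (by norm_num) h

/-- A small element: the radius of `dichotomy` is one. -/
theorem Main_core {Y : Type} [Fintype Y] [DecidableEq Y] {G' : Subgroup (Perm Y)} (htr : Tr G')
    {D : Finset (Y × Y)} (hD : Orb G' D) {d : ℕ} (hd : D.card = Fintype.card Y * d)
    (hc : (Gam D).Connected) {g : Perm Y} (h1 : g ≠ 1) (hne : (Fx g).Nonempty)
    (hex : Fintype.card Y * ex D (Fx g) ≤ 84 * d * (Fx g).card) (hd1 : 2688 < d)
    (hn : 168 < Fintype.card Y) : (Fx g)ᶜ.card ≤ 168 := by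
  classical
  obtain ⟨_, _, ρ, hρ, hu, hb, hor⟩ := dichotomy htr hD hd hc h1 hne hex
  obtain ⟨v, _⟩ := hne
  have h2 := (Bl_one htr hD hd hc v).1
  have h3 : ρ = 1 := by
    by_contra h4
    have h5 : 2 ≤ ρ := by omega
    by_cases h6 : 2 * 1 + 2 ≤ ρ
    · have h7 := growth htr hD hc hu hb h6 v
      omega
    · have h7 : (Bl D v 1).card ≤ (Bl D v (ρ - 1)).card := by
        refine Finset.card_le_card ?_
        intro z hz
        unfold Bl at hz ⊢
        rw [Finset.mem_filter] at hz ⊢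
        exact ⟨Finset.mem_univ _, hz.2.trans (by omega)⟩
      have h8 := hb v
      have h9 : 336 * ρ ≤ 336 * 3 := Nat.mul_le_mul_left _ (by omega)
      omega
  rcases hor with h4 | h4
  · rw [h3] at h4
    exact h4
  · rw [h3] at h4
    omega

theorem Main_inj (h : Sys R σ x0 y0) : Function.Injective (toPermHom G Ω) := by
  intro g g' hg
  have h1 : ∀ x : Ω, (g⁻¹ * g') • x = x := by
    intro x
    have h2 : toPermHom G Ω g x = toPermHom G Ω g' x := by rw [hg]
    have h3 : g • x = g' • x := h2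
    rw [mul_smul, ← h3, inv_smul_smul]
  have h2 := h.faith _ h1
  exact (inv_mul_eq_one.1 h2)

theorem Main_move (h : Sys R σ x0 y0) {g : G} (hg : g ≠ 1) : ∃ x : Ω, g • x ≠ x := by
  by_contra hno
  push Not at hno
  exact hg (h.faith g hno)

/-- **A small inertia element.**

Proof.  `exists_h` for `PG G Ω`, `arcs G x0 y0` and the permutations of the `σ c` (`quo_id`, `quo_orb`, `quo_cost`,
`gal`; the order of the permutation is the order of `σ c` by `faith`): `c`, `k`.  `dichotomy` (`quo_conn`):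
`ρ`.  If `ρ ≥ 2`, then `d ≤ 2688 ≤ dmax`: `Bl_one` gives `d ≤ card (Bl 1)`; if `ρ ≤ 3`, `card (Bl 1) ≤ card (Bl (ρ - 1)) ≤
336 * 3`; if `ρ ≥ 4`, `growth` with `r = 1` gives `card (Bl 1) ≤ 2688`.  So `ρ = 1`. -/
theorem small_elt (h : Sys R σ x0 y0) [Fintype Ω] [DecidableEq Ω] {d : ℕ}
    (hd : (arcs G x0 y0).card = Fintype.card Ω * d) (hd1 : dmax < d)
    (hn : 168 < Fintype.card Ω) :
    ∃ c ∈ R, ∃ k : ℕ, σ c ^ k ≠ 1 ∧ Sml Ω 168 (σ c ^ k) := by
  have hq := h.quo_id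
  have htr := tr_PG h.tr
  have hD : Orb (PG G Ω) (arcs G x0 y0) := h.quo_orb hq
  have hc : (Gam (arcs G x0 y0)).Connected := h.quo_conn hq
  obtain ⟨hc1, hc2⟩ := h.quo_cost hq
  have hinj := Main_inj h
  have h3 : 2 < ∑ i ∈ R, (1 - 1 / (orderOf (toPermHom G Ω (σ i)) : ℚ)) := by
    have h4 : ∀ i ∈ R, (1 - 1 / (orderOf (toPermHom G Ω (σ i)) : ℚ)) =
        (1 - 1 / (orderOf (σ i) : ℚ)) := by
      intro i _
      rw [orderOf_injective (toPermHom G Ω) hinj (σ i)]
    rw [Finset.sum_congr rfl h4]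
    exact h.gal
  obtain ⟨c, hcR, k, hk1, hne, hex⟩ := exists_h htr hD hd R (fun i => toPermHom G Ω (σ i)) hc1 hc2 h3
  have h4 : 2688 < d := lt_of_le_of_lt Main_dmax hd1
  have h6 : toPermHom G Ω (σ c) ^ k = toPermHom G Ω (σ c ^ k) := (map_pow _ _ _).symm
  change toPermHom G Ω (σ c) ^ k ≠ 1 at hk1
  change (Fx (toPermHom G Ω (σ c) ^ k)).Nonempty at hne
  change Fintype.card Ω * ex (arcs G x0 y0) (Fx (toPermHom G Ω (σ c) ^ k)) ≤
    84 * d * (Fx (toPermHom G Ω (σ c) ^ k)).card at hex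
  rw [h6] at hk1 hne hex
  have h5 := Main_core htr hD hd hc hk1 hne hex h4 hn
  have h7 : σ c ^ k ≠ 1 := by
    intro h7
    apply hk1
    rw [h7, map_one]
  have h8 : (Finset.univ.filter fun z : Ω => σ c ^ k • z ≠ z) ⊆
      (Fx (toPermHom G Ω (σ c ^ k)))ᶜ := by
    intro z hz
    rw [Finset.mem_filter] at hz
    rw [Finset.mem_compl]
    unfold Fx
    rw [Finset.mem_filter]
    intro h7
    exact hz.2 h7.2
  exact ⟨c, hcR, k, h7, (Finset.card_le_card h8).trans h5⟩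

/-- The number of the orbits of the group of the small elements is at most `84`.

Proof.  If `rM` is not proper, every orbit is everything.  Otherwise `snt_card` for `M = MS` and the element
of `small_elt`: `2 card Ω ≤ 168 * card (orbit)`. -/
theorem orbits_le (h : Sys R σ x0 y0) [Fintype Ω] [DecidableEq Ω] {c : ι} (hc : c ∈ R) {k : ℕ}
    (h1 : σ c ^ k ≠ 1) (hs : Sml Ω 168 (σ c ^ k)) (x : Ω) :
    Fintype.card Ω ≤ 84 * Nat.card {z // rM G x z} := by
  classical
  have hN : Nat.card {z // rM G x z} =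
      (Finset.univ.filter fun z : Ω => ∃ m ∈ MS G Ω, m • x = z).card := by
    rw [Nat.card_eq_fintype_card, Fintype.card_subtype]
    refine congrArg Finset.card (Finset.filter_congr fun z _ => Iff.rfl)
  by_cases hp : ∃ u v : Ω, ∀ m ∈ MS G Ω, m • u ≠ v
  · have hm : σ c ^ k ∈ MS G Ω := Subgroup.subset_closure hs
    have h2 := snt_card h MS_normal hp hc k hm h1 x
    rw [hN]
    unfold Sml at hs
    have h3 : 2 * Fintype.card Ω ≤
        168 * (Finset.univ.filter fun z : Ω => ∃ m ∈ MS G Ω, m • x = z).card := by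
      refine h2.trans (Nat.mul_le_mul (le_trans (le_of_eq ?_) hs) (le_of_eq ?_))
      · congr!
      · congr!
    omega
  · push Not at hp
    have h2 : (Finset.univ.filter fun z : Ω => ∃ m ∈ MS G Ω, m • x = z) = Finset.univ := by
      rw [Finset.filter_eq_self]
      intro z _
      exact hp x z
    rw [hN, h2, Finset.card_univ]
    omega

/-- The bound for the degree. -/
def N1 : ℕ := 12 * BR * (Pp ^ 557) ^ 2 + 84 * (84 * (16 * 168 ^ 2 + 1) ^ (8 * 168)) +
  84 * (84 * 336 ^ 2 + 1) + 84 * 28 + 168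

/-- The bound as a function of `BR` and `Pp` (the dummy argument gives it the same definitional height as
`N1`, so the kernel unfolds both at once and does not evaluate `Pp`). -/
def Main_N1G (B P : ℕ) : ℕ :=
  (fun _ : ℕ => 12 * B * (P ^ 557) ^ 2 + 84 * (84 * (16 * 168 ^ 2 + 1) ^ (8 * 168)) +
    84 * (84 * 336 ^ 2 + 1) + 84 * 28 + 168) Pp

theorem Main_N1G_eq (B P : ℕ) : Main_N1G B P =
    12 * B * (P ^ 557) ^ 2 + 84 * (84 * (16 * 168 ^ 2 + 1) ^ (8 * 168)) +
    84 * (84 * 336 ^ 2 + 1) + 84 * 28 + 168 := rfl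

theorem Main_N1_eq : N1 = Main_N1G BR Pp := rfl

theorem Main_parts {n A C : ℕ} (h : A + 84 * (84 * C) + 84 * (84 * 336 ^ 2 + 1) + 84 * 28 + 168 < n) :
    A < n ∧ 84 * (84 * C) < n ∧ 84 * (84 * 336 ^ 2 + 1) < n ∧ 84 * 28 < n ∧ 168 < n := by
  omega

/-- The parts of the bound. -/
theorem Main_N1 {n : ℕ} (h : N1 < n) : 12 * BR * (Pp ^ 557) ^ 2 < n ∧
    84 * (84 * (16 * 168 ^ 2 + 1) ^ (8 * 168)) < n ∧ 84 * (84 * 336 ^ 2 + 1) < n ∧
    84 * 28 < n ∧ 168 < n := by
  rw [Main_N1_eq, Main_N1G_eq] at h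
  exact Main_parts h

theorem Main_div {n m B : ℕ} (h : 84 * B < n) (h' : n ≤ 84 * m) : B < m := by
  omega

/-- **Main theorem on groups.**

Proof.  Let `card Ω > N1`, `d` the valency (`exists_deg`).  `bv_id`: `d > dmax`.  `small_elt`, `orbits_le`: all
`MS`-orbits have more than `84 * (16 * 168 ^ 2 + 1) ^ (8 * 168)`, more than `84 * 336 ^ 2 + 1` and at least `28`
points.  `exists_Mx`: `r`.  If `r x y` for some `x ≠ y`: `nbr`.  Otherwise `r` is equality, and `two_trans` says: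
if `a ≠ b`, `a' ≠ b'` are four points of one `MS`-orbit, there is `g` with `g a = a'`, `g b = b'`.
If `rM` is not proper, `G` is doubly transitive on `Ω`, and the relation of `himp` is trivial, a
contradiction.  So `rM` is proper.  `des_count`, `des_arith` with `m = card {z // rM x0 z}`,
`t = card {y // ..}` (`1 ≤ t` because of `y0`, `t ≤ m`: the orbits of `x0` and `y0` have the same number of
points).  `t = 1`: `d = d' ≤ 84 ≤ dmax`.  `t + 1 = m`: `des_one`.  `t = m`: `des_all`. -/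
theorem main (h : Sys R σ x0 y0) [Fintype Ω]
    (himp : ∃ r : Ω → Ω → Prop, Inv G r ∧ Ppr r ∧ ∃ x y, x ≠ y ∧ r x y) :
    Fintype.card Ω ≤ N1 := by
  classical
  by_contra hlt
  have hlt1 : N1 < Fintype.card Ω := not_le.1 hlt
  obtain ⟨n1, n2, n3, n4, n5⟩ := Main_N1 hlt1
  clear hlt hlt1
  have htr := tr_PG h.tr
  have hq := h.quo_id
  have hD : Orb (PG G Ω) (arcs G x0 y0) := h.quo_orb hq
  obtain ⟨d, _, hd⟩ := exists_deg htr hD
  have hdm : dmax < d := by
    by_contra h1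
    exact absurd (bv_id h hd (not_lt.1 h1)) (not_le.2 n1)
  obtain ⟨c, hc, k, hk1, hs⟩ := small_elt h hd hdm n5
  have hor := fun x : Ω => orbits_le h hc hk1 hs x
  have hb : ∀ z : Ω, 84 * (16 * 168 ^ 2 + 1) ^ (8 * 168) < Nat.card {w // rM G z w} := by
    intro z
    exact Main_div n2 (hor z)
  have hex : ∃ g : G, Sml Ω 168 g ∧ ∃ x : Ω, g • x ≠ x := ⟨_, hs, Main_move h hk1⟩
  obtain ⟨r, hr⟩ := exists_Mx hex
  have hr1 : ∀ u v : Ω, r u v → u = v := by
    intro u v huv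
    by_contra hne
    exact absurd (nbr h hd hr hb hne huv) (not_le.2 hdm)
  have hrefl : ∀ x : Ω, rM G x x := fun x => (rM_inv (G := G) (Ω := Ω)).eqv.refl x
  have h2' : ∀ a b a' b' : Ω, rM G a b → rM G a a' → rM G a b' → a ≠ b → a' ≠ b' →
      ∃ g : G, g • a = a' ∧ g • b = b' := by
    intro a b a' b' h1 h2 h3 h4 h5
    obtain ⟨g, hg1, hg2⟩ := two_trans h.tr hr hb h1 h2 h3 (fun h6 => h4 (hr1 _ _ h6))
      (fun h6 => h5 (hr1 _ _ h6))
    exact ⟨g, hr1 _ _ hg1, hr1 _ _ hg2⟩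
  have hp : Ppr (rM G (Ω := Ω)) := by
    by_contra hno
    have h1 : ∀ x y : Ω, rM G x y := by
      intro x y
      by_contra h2
      exact hno ⟨x, y, h2⟩
    obtain ⟨r', hi, ⟨a, b, hab⟩, x, y, hxy, hrxy⟩ := himp
    have hne : a ≠ b := by
      intro he
      apply hab
      rw [he]
      exact hi.eqv.refl b
    obtain ⟨g, hg1, hg2⟩ := h2' x y a b (h1 _ _) (h1 _ _) (h1 _ _) hxy hne
    apply hab
    rw [← hg1, ← hg2]
    exact hi.map g _ _ hrxy
  have h2t : ∀ x a b : Ω, rM G x a → rM G x b → a ≠ x → b ≠ x →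
      ∃ g : G, g • x = x ∧ g • a = b := by
    intro x a b h1 h2 h3 h4
    exact h2' x a x b h1 (hrefl x) h2 (Ne.symm h3) (Ne.symm h4)
  have hm := hor x0
  have h28' := Main_div n4 hm
  have hmm := Main_div n3 hm
  clear n1 n2 n3 n4
  obtain ⟨d', L, hd1, hd84, hdt, hL1, hL2⟩ := des_count h hd hp hex hm h2t
  have hone := des_one h hp
  have hall := des_all h hp h2t
  obtain ⟨m, hm'⟩ : ∃ m : ℕ, m = Nat.card {z // rM G x0 z} := ⟨_, rfl⟩
  have ht1 : 1 ≤ Nat.card {y // (x0, y) ∈ arcs G x0 y0 ∧ rM G y0 y} := by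
    have : Nonempty {y // (x0, y) ∈ arcs G x0 y0 ∧ rM G y0 y} :=
      ⟨⟨y0, mem_orbOf _ _, hrefl y0⟩⟩
    exact Nat.card_pos
  have htm : Nat.card {y // (x0, y) ∈ arcs G x0 y0 ∧ rM G y0 y} ≤ Nat.card {z // rM G x0 z} := by
    obtain ⟨g, hg⟩ := h.tr y0 x0
    refine Nat.card_le_card_of_injective
      (fun z : {y // (x0, y) ∈ arcs G x0 y0 ∧ rM G y0 y} =>
        (⟨g • z.1, by
          have h1 := (rM_inv (G := G) (Ω := Ω)).map g _ _ z.2.2
          rw [hg] at h1
          exact h1⟩ : {z // rM G x0 z})) ?_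
    intro z z' hz
    have h1 : g • z.1 = g • z'.1 := congrArg Subtype.val hz
    exact Subtype.ext (smul_left_cancel g h1)
  obtain ⟨t, ht⟩ : ∃ t : ℕ, t = Nat.card {y // (x0, y) ∈ arcs G x0 y0 ∧ rM G y0 y} := ⟨_, rfl⟩
  rw [← hm'] at hm hL1 hone hall htm h28' hmm
  rw [← ht] at hdt hL1 hL2 hone hall ht1 htm
  rcases des_arith ht1 htm hd1 hd84 hL1 hL2 hmm with h1 | h1 | h1
  · rw [h1, mul_one] at hdt
    have h3 := lt_of_le_of_lt Main_dmax hdm
    rw [hdt] at h3
    exact absurd (h3.trans_le hd84) (by norm_num)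
  · exact hone h1
  · exact hall h28'.le h1

end WildT
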