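import Pool.Agent.helper44.TG.FThr
import Pool.Agent.helper44.TG.Arc
import Mathlib.Combinatorics.Enumerative.DoubleCounting

/-! Inertia elements of intransitive normal subgroups. -/

namespace WildT

open MulAction Equiv WildLD

variable {G : Type} [Group G] [Fintype G] {ι : Type} {Ω : Type} [MulAction G Ω] {R : Finset ι}
  {σ : ι → G} {x0 y0 : Ω}

/-- The orbit relation of a normal subgroup is invariant. -/
theorem inv_normal {Z : Type} [MulAction G Z] {M : Subgroup G} (hM : M.Normal) :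
    Inv G (fun x y : Z => ∃ m ∈ M, m • x = y) := by
  refine ⟨⟨fun x => ⟨1, M.one_mem, one_smul G x⟩, ?_, ?_⟩, ?_⟩
  · rintro x y ⟨m, hm, rfl⟩
    exact ⟨m⁻¹, M.inv_mem hm, inv_smul_smul m x⟩
  · rintro x y z ⟨m, hm, rfl⟩ ⟨m', hm', rfl⟩
    exact ⟨m' * m, M.mul_mem hm' hm, mul_smul m' m x⟩
  · rintro g x y ⟨m, hm, rfl⟩
    refine ⟨g * m * g⁻¹, hM.conj_mem m hm g, ?_⟩
    rw [← mul_smul, ← mul_smul, inv_mul_cancel_right]

/-- The pointwise stabilizer in `M` of the orbit of `x` under `M`. -/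
def SntP {Z : Type} [MulAction G Z] (M : Subgroup G) (x : Z) : Subgroup G where
  carrier := {a | a ∈ M ∧ ∀ m ∈ M, a • m • x = m • x}
  mul_mem' := by
    rintro a b ⟨ha, ha2⟩ ⟨hb, hb2⟩
    refine ⟨M.mul_mem ha hb, fun m hm => ?_⟩
    rw [mul_smul, hb2 m hm, ha2 m hm]
  one_mem' := ⟨M.one_mem, fun m _ => one_smul G _⟩
  inv_mem' := by
    rintro a ⟨ha, ha2⟩
    refine ⟨M.inv_mem ha, fun m hm => ?_⟩
    rw [inv_smul_eq_iff]
    exact (ha2 m hm).symm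

theorem SntP_conj {Z : Type} [MulAction G Z] {M : Subgroup G} (hM : M.Normal) {x : Z} {g : G}
    (hg : ∃ m ∈ M, g • x = m • x) {a : G} (ha : a ∈ SntP M x) : g * a * g⁻¹ ∈ SntP M x := by
  obtain ⟨m0, hm0, hgx⟩ := hg
  refine ⟨hM.conj_mem a ha.1 g, fun m hm => ?_⟩
  have h1 : g⁻¹ • m • x = (g⁻¹ * m * g * (g⁻¹ * m0⁻¹ * g)) • x := by
    have h2 : m0⁻¹ • g • x = x := by
      rw [hgx, inv_smul_smul]
    calc g⁻¹ • m • x = g⁻¹ • m • m0⁻¹ • g • x := by rw [h2]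
      _ = (g⁻¹ * m * g * (g⁻¹ * m0⁻¹ * g)) • x := by
        rw [smul_smul, smul_smul, smul_smul]
        congr 1
        group
  have h3 : g⁻¹ * m * g * (g⁻¹ * m0⁻¹ * g) ∈ M := by
    refine M.mul_mem ?_ ?_
    · have := hM.conj_mem m hm g⁻¹
      rwa [inv_inv] at this
    · have := hM.conj_mem m0⁻¹ (M.inv_mem hm0) g⁻¹
      rwa [inv_inv] at this
  rw [mul_smul, mul_smul, h1, ha.2 _ h3, ← h1, smul_inv_smul]

theorem SntP_inv_orb {Z : Type} [MulAction G Z] {M : Subgroup G} (hM : M.Normal) {x : Z} {g : G}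
    (hg : ∃ m ∈ M, g • x = m • x) : ∃ m ∈ M, g⁻¹ • x = m • x := by
  obtain ⟨m0, hm0, hgx⟩ := hg
  refine ⟨g⁻¹ * m0⁻¹ * g, ?_, ?_⟩
  · have := hM.conj_mem m0⁻¹ (M.inv_mem hm0) g⁻¹
    rwa [inv_inv] at this
  · rw [mul_smul, hgx, mul_smul, inv_smul_smul]

theorem SntP_conj' {Z : Type} [MulAction G Z] {M : Subgroup G} (hM : M.Normal) {x : Z} {g : G}
    (hg : ∃ m ∈ M, g • x = m • x) {a : G} (ha : a ∈ SntP M x) : g⁻¹ * a * g ∈ SntP M x := by
  have := SntP_conj hM (SntP_inv_orb hM hg) ha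
  rwa [inv_inv] at this

theorem SntP_fix {Z : Type} [MulAction G Z] {M : Subgroup G} {x : Z} {a : G}
    (ha : a ∈ SntP M x) : a • x = x := by
  have := ha.2 1 M.one_mem
  rwa [one_smul] at this

/-- The subgroup `J` of the proof of `rect`. -/
def SntJ {Z : Type} [MulAction G Z] (M : Subgroup G) (hM : M.Normal) (x y : Z) : Subgroup G where
  carrier := {g | (∃ a ∈ SntP M y, g • x = a • x) ∧ ∃ b ∈ SntP M x, g • y = b • y}
  mul_mem' := by
    rintro g g' ⟨⟨a, ha, hgx⟩, b, hb, hgy⟩ ⟨⟨a', ha', hgx'⟩, b', hb', hgy'⟩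
    refine ⟨⟨g * a' * g⁻¹ * a, mul_mem (SntP_conj hM ⟨b, hb.1, hgy⟩ ha') ha, ?_⟩,
      g * b' * g⁻¹ * b, mul_mem (SntP_conj hM ⟨a, ha.1, hgx⟩ hb') hb, ?_⟩
    · rw [mul_smul, hgx', mul_smul (g * a' * g⁻¹), ← hgx, ← mul_smul, ← mul_smul,
        inv_mul_cancel_right]
    · rw [mul_smul, hgy', mul_smul (g * b' * g⁻¹), ← hgy, ← mul_smul, ← mul_smul,
        inv_mul_cancel_right]
  one_mem' := ⟨⟨1, one_mem _, rfl⟩, 1, one_mem _, rfl⟩
  inv_mem' := by
    rintro g ⟨⟨a, ha, hgx⟩, b, hb, hgy⟩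
    refine ⟨⟨g⁻¹ * a⁻¹ * g, SntP_conj' hM ⟨b, hb.1, hgy⟩ (inv_mem ha), ?_⟩,
      g⁻¹ * b⁻¹ * g, SntP_conj' hM ⟨a, ha.1, hgx⟩ (inv_mem hb), ?_⟩
    · rw [mul_smul, hgx, mul_smul, inv_smul_smul]
    · rw [mul_smul, hgy, mul_smul, inv_smul_smul]

/-- **Rectangle of two orbits.**  `M` normal, `M1` the pointwise stabilizer of `M x` in `M`, `M2` the one of
`M y`.  If `(x, y)` is an arc, `e = σ c ^ k ∈ M1`, `e y ≠ y` and `M2` moves some point of `M x`, there is a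
contradiction.

Proof.  `J = {g : g x ∈ M2 x, g y ∈ M1 y}`.  It is a subgroup: for `g ∈ J`, `g x ∈ M x` and `g y ∈ M y`, so `g` normalises
`M1` and `M2` (`M` is normal, `g` maps `M x` and `M y` to themselves); so `g g' x ∈ g M2 x = M2 g x = M2 x`;
inverses: a finite set closed under multiplication, or `g⁻¹ M2 x = M2 g⁻¹ x`.  It contains `M1` (fixes `x`,
maps `y` into `M1 y`), `M2` and `st2 G x y`.  `J x = M2 x`, `J y = M1 y`, and for `a ∈ M2`, `b ∈ M1` the element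
`a b` maps `(x, y)` to `(a x, b y)` (`b` fixes `M x` pointwise, `a` fixes `M y` pointwise): this is `htr`.
`J y ≠ {y}` because of `e`.  `J x ≠ {x}`: some `a ∈ M2` moves some `m x`, `m ∈ M`; `m⁻¹ a m ∈ M2` (`M2` is normal in `M`)
moves `x`.  `f3_strict` with `v1 = v2 = 2` (`Sys.L2` for the relation `inv_normal`, which is proper by
`hint`), `κ1`, `κ2` the indices: `0 < 2 κ1 κ2 chiJ (st2 G x y)`, but `chiJ (st2 G x y) ≤ 0` (`arc_low`). -/
theorem rect (h : Sys R σ x0 y0) [Fintype Ω] [DecidableEq Ω] {M : Subgroup G} (hM : M.Normal)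
    (hint : ∃ x y : Ω, ∀ m ∈ M, m • x ≠ y) {x y : Ω} (hxy : (x, y) ∈ arcs G x0 y0)
    {c : ι} (hc : c ∈ R) (k : ℕ) (hk : σ c ^ k ∈ M)
    (hfix : ∀ m ∈ M, σ c ^ k • m • x = m • x) (hmv : σ c ^ k • y ≠ y)
    (h2 : ∃ a ∈ M, (∀ m ∈ M, a • m • y = m • y) ∧ ∃ m ∈ M, a • m • x ≠ m • x) : False := by
  obtain ⟨a0, ha0, ha0y, m0, hm0, ham⟩ := h2
  have hr : Inv G (fun x y : Ω => ∃ m ∈ M, m • x = y) := inv_normal hM
  have hp : Ppr (fun x y : Ω => ∃ m ∈ M, m • x = y) := by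
    obtain ⟨x', y', h'⟩ := hint
    exact ⟨x', y', fun ⟨m, hm, hmx⟩ => h' m hm hmx⟩
  have hsub : st2 G x y ≤ SntJ M hM x y := by
    intro g hg
    exact ⟨⟨1, one_mem _, by rw [one_smul]; exact hg.1⟩, 1, one_mem _, by
      rw [one_smul]; exact hg.2⟩
  have htr : ∀ a ∈ SntJ M hM x y, ∀ b ∈ SntJ M hM x y,
      ∃ j ∈ SntJ M hM x y, j • x = a • x ∧ j • y = b • y := by
    rintro a ⟨⟨a1, ha1, hax⟩, -⟩ b ⟨-, b1, hb1, hby⟩
    have e1 : (a1 * b1) • x = a1 • x := by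
      rw [mul_smul, SntP_fix hb1]
    have e2 : (a1 * b1) • y = b1 • y := by
      rw [mul_smul, ha1.2 b1 hb1.1]
    exact ⟨a1 * b1, ⟨⟨a1, ha1, e1⟩, b1, hb1, e2⟩, e1.trans hax.symm, e2.trans hby.symm⟩
  obtain ⟨κ1, h1'⟩ := Subgroup.card_dvd_of_le
    (inf_le_left : SntJ M hM x y ⊓ stabilizer G x ≤ SntJ M hM x y)
  obtain ⟨κ2, h2'⟩ := Subgroup.card_dvd_of_le
    (inf_le_left : SntJ M hM x y ⊓ stabilizer G y ≤ SntJ M hM x y)
  rw [mul_comm] at h1' h2'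
  have he : σ c ^ k ∈ SntJ M hM x y := by
    refine ⟨⟨1, one_mem _, ?_⟩, σ c ^ k, ⟨hk, hfix⟩, rfl⟩
    have := hfix 1 M.one_mem
    rwa [one_smul] at this ⊢
  have hj0 : m0⁻¹ * a0 * m0 ∈ SntP M y := SntP_conj' hM ⟨m0, hm0, rfl⟩ ⟨ha0, ha0y⟩
  have key := f3_strict h hsub htr h1' h2' (v1 := 2) (v2 := 2) (by norm_num) (by norm_num)
    (by
      rintro j ⟨⟨a, ha, hjx⟩, -⟩ hne
      exact h.L2 hr hp (Ne.symm hne) ⟨a, ha.1, hjx.symm⟩ inf_le_right)
    (by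
      rintro j ⟨-, b, hb, hjy⟩ hne
      exact h.L2 hr hp (Ne.symm hne) ⟨b, hb.1, hjy.symm⟩ inf_le_right)
    ⟨m0⁻¹ * a0 * m0, ⟨⟨m0⁻¹ * a0 * m0, hj0, rfl⟩, 1, one_mem _, by
      rw [one_smul, SntP_fix hj0]⟩, by
      rw [mul_smul, mul_smul]
      intro h'
      exact ham (by rw [inv_smul_eq_iff] at h'; exact h')⟩
    ⟨σ c ^ k, he, hmv⟩ hc k he
    (by
      rintro j ⟨⟨a, ha, hjx⟩, -⟩
      rw [hjx]
      exact hfix a ha.1)
    ⟨1, one_mem _, by rw [one_smul]; exact hmv⟩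
  have hlow := h.arc_low hxy
  have hk12 : (0 : ℚ) ≤ 2 * κ1 * κ2 := by positivity
  nlinarith [mul_nonneg hk12 (neg_nonneg.2 hlow)]

/-- **An inertia element of an intransitive normal subgroup acts nontrivially on every orbit.**

Proof.  Let `e = σ c ^ k` and `A x` the property that `e` acts nontrivially on the `M`-orbit of `x` (this
depends only on the orbit).  By `faith` some point has `A`.  Suppose some point does not.
`enter_leave` (for `f = id`, `quo_id`, `quo_orb`, `quo_conn`): arcs `(x, y)` with `¬ A x`, `A y`, and `(x2, y2)` with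
`A x2`, `¬ A y2`.  Replacing `(x, y)` by `(m x, m y)`, `m ∈ M`, we may assume `e y ≠ y`.  Let `g (x2, y2) = (x, y)`;
`a = g e g⁻¹ ∈ M` acts trivially on `M y = g M y2` and nontrivially on `M x`.  `rect`. -/
theorem snt (h : Sys R σ x0 y0) [Fintype Ω] {M : Subgroup G} (hM : M.Normal)
    (hint : ∃ x y : Ω, ∀ m ∈ M, m • x ≠ y) {c : ι} (hc : c ∈ R) (k : ℕ) (hk : σ c ^ k ∈ M)
    (h1 : σ c ^ k ≠ 1) (x : Ω) : ∃ m ∈ M, σ c ^ k • m • x ≠ m • x := by
  classical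
  by_contra hx
  obtain ⟨z, hz⟩ : ∃ z : Ω, σ c ^ k • z ≠ z := by
    by_contra hcon
    push Not at hcon
    exact h1 (h.faith _ hcon)
  obtain ⟨⟨x1, y1, hd1, hx1, hy1⟩, x2, y2, hd2, hx2, hy2⟩ :=
    enter_leave (tr_PG h.tr) (h.quo_orb h.quo_id) (h.quo_conn h.quo_id)
      (fun x : Ω => ∃ m ∈ M, σ c ^ k • m • x ≠ m • x)
      ⟨z, 1, M.one_mem, by rw [one_smul]; exact hz⟩ ⟨x, hx⟩
  simp only [id] at hd1 hd2
  obtain ⟨m1, hm1, hmy⟩ := hy1
  obtain ⟨m2, hm2, hmx⟩ := hx2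
  push Not at hx1 hy2
  obtain ⟨g1, hg1x, hg1y⟩ := mem_arcs.1 hd1
  obtain ⟨g2, hg2x, hg2y⟩ := mem_arcs.1 hd2
  simp only at hg1x hg1y hg2x hg2y
  have hd : (m1 • x1, m1 • y1) ∈ arcs G x0 y0 :=
    mem_arcs.2 ⟨m1 * g1, by rw [mul_smul, hg1x], by rw [mul_smul, hg1y]⟩
  obtain ⟨g, hg⟩ : ∃ g, g = m1 * g1 * g2⁻¹ := ⟨_, rfl⟩
  have hgx : g • x2 = m1 • x1 := by
    rw [hg, ← hg2x, ← hg1x, mul_smul, inv_smul_smul, mul_smul]
  have hgy : g • y2 = m1 • y1 := by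
    rw [hg, ← hg2y, ← hg1y, mul_smul, inv_smul_smul, mul_smul]
  refine rect h hM hint hd hc k hk ?_ hmy ⟨g * σ c ^ k * g⁻¹, hM.conj_mem _ hk g, ?_,
    g * m2 * g⁻¹, hM.conj_mem _ hm2 g, ?_⟩
  · intro m hm
    have := hx1 (m * m1) (M.mul_mem hm hm1)
    rwa [mul_smul] at this
  · intro m hm
    have h3 : g⁻¹ * m * g ∈ M := by
      have := hM.conj_mem m hm g⁻¹
      rwa [inv_inv] at this
    have h4 := hy2 _ h3
    rw [← hgy]
    have h5 : (g⁻¹ * m * g) • y2 = g⁻¹ • m • g • y2 := by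
      rw [mul_smul, mul_smul]
    rw [h5] at h4
    rw [mul_smul, mul_smul, h4, smul_inv_smul]
  · rw [← hgx]
    intro h6
    apply hmx
    have h7 : (g * m2 * g⁻¹) • g • x2 = g • m2 • x2 := by
      rw [mul_smul, inv_smul_smul, mul_smul]
    rw [h7, mul_smul, inv_smul_smul, mul_smul] at h6
    exact smul_left_cancel g h6

open Classical in
/-- The number of the orbits of `M` is at most half the support of an inertia element in `M`.

Proof.  All orbits of `M` have the same number `s` of elements (`M` normal, `G` transitive), so there are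
`card Ω / s` orbits; every orbit contains a point moved by `e = σ c ^ k` (`snt`), hence at least two (also
`e z` is moved, `e z ≠ z`, in the same orbit). -/
theorem snt_card (h : Sys R σ x0 y0) [Fintype Ω] {M : Subgroup G} (hM : M.Normal)
    (hint : ∃ x y : Ω, ∀ m ∈ M, m • x ≠ y) {c : ι} (hc : c ∈ R) (k : ℕ) (hk : σ c ^ k ∈ M)
    (h1 : σ c ^ k ≠ 1) (x : Ω) :
    2 * Fintype.card Ω ≤ (Finset.univ.filter fun z : Ω => σ c ^ k • z ≠ z).card *
      (Finset.univ.filter fun z : Ω => ∃ m ∈ M, m • x = z).card := by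
  have hr : Inv G (fun x y : Ω => ∃ m ∈ M, m • x = y) := inv_normal hM
  have hs : ∀ w : Ω, (Finset.univ.filter fun z : Ω => ∃ m ∈ M, m • z = w).card =
      (Finset.univ.filter fun z : Ω => ∃ m ∈ M, m • x = z).card := by
    intro w
    obtain ⟨g, rfl⟩ := h.tr w x
    refine Finset.card_bij (fun z _ => g • z) ?_ ?_ ?_
    · intro z hz
      rw [Finset.mem_filter] at hz ⊢
      exact ⟨Finset.mem_univ _, hr.map g _ _ (hr.eqv.symm hz.2)⟩
    · intro a _ b _ hab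
      exact smul_left_cancel g hab
    · intro z hz
      rw [Finset.mem_filter] at hz
      refine ⟨g⁻¹ • z, ?_, smul_inv_smul g z⟩
      rw [Finset.mem_filter]
      refine ⟨Finset.mem_univ _, ?_⟩
      have := hr.map g⁻¹ _ _ hz.2
      rw [inv_smul_smul] at this
      exact hr.eqv.symm this
  have hdc := Finset.sum_card_bipartiteAbove_eq_sum_card_bipartiteBelow
    (s := (Finset.univ : Finset Ω))
    (t := Finset.univ.filter fun z : Ω => σ c ^ k • z ≠ z)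
    (fun x y : Ω => ∃ m ∈ M, m • x = y)
  have h2 : ∀ z ∈ (Finset.univ : Finset Ω), 2 ≤ (Finset.bipartiteAbove
      (fun x y : Ω => ∃ m ∈ M, m • x = y)
      (Finset.univ.filter fun z : Ω => σ c ^ k • z ≠ z) z).card := by
    intro z _
    obtain ⟨m, hm, hmz⟩ := snt h hM hint hc k hk h1 z
    rw [← Finset.card_pair hmz]
    refine Finset.card_le_card ?_
    intro w hw
    rw [Finset.mem_bipartiteAbove, Finset.mem_filter]
    rw [Finset.mem_insert, Finset.mem_singleton] at hw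
    rcases hw with rfl | rfl
    · refine ⟨⟨Finset.mem_univ _, fun h' => hmz (smul_left_cancel _ h')⟩,
        σ c ^ k * m, M.mul_mem hk hm, mul_smul _ _ _⟩
    · exact ⟨⟨Finset.mem_univ _, hmz⟩, m, hm, rfl⟩
  have h3 := Finset.sum_le_sum h2
  rw [hdc] at h3
  have h4 : ∀ w ∈ (Finset.univ.filter fun z : Ω => σ c ^ k • z ≠ z),
      (Finset.bipartiteBelow (fun x y : Ω => ∃ m ∈ M, m • x = y) (Finset.univ : Finset Ω) w).card =
      (Finset.univ.filter fun z : Ω => ∃ m ∈ M, m • x = z).card := by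
    intro w _
    rw [← hs w]
    rfl
  rw [Finset.sum_congr rfl h4, Finset.sum_const, Finset.sum_const, smul_eq_mul, smul_eq_mul,
    Finset.card_univ] at h3
  rw [mul_comm]
  exact h3

end WildT
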