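import Pool.Agent.helper44.TG.Snt
import Pool.Agent.helper21.LD.SuppC

/-! The group generated by the elements of small support.  Proofs by helper59. -/

namespace WildT

open MulAction Equiv WildLD

variable {G : Type} [Group G] [Fintype G] {Ω : Type} [Fintype Ω] [DecidableEq Ω] [MulAction G Ω]

/-- At most `168` points are moved. -/
def Sml (Ω : Type) [Fintype Ω] [DecidableEq Ω] {G : Type} [Group G] [MulAction G Ω] (k : ℕ)
    (g : G) : Prop := (Finset.univ.filter fun z : Ω => g • z ≠ z).card ≤ k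

/-- The group generated by the elements moving at most `168` points. -/
def MS (G Ω : Type) [Fintype Ω] [DecidableEq Ω] [Group G] [MulAction G Ω] : Subgroup G :=
  Subgroup.closure {g : G | Sml Ω 168 g}

/-- Two points in one orbit of `MS`. -/
def rM (G : Type) {Ω : Type} [Fintype Ω] [DecidableEq Ω] [Group G] [MulAction G Ω] (x y : Ω) :
    Prop := ∃ m ∈ MS G Ω, m • x = y

theorem sml_mul {k l : ℕ} {g g' : G} (h : Sml Ω k g) (h' : Sml Ω l g') : Sml Ω (k + l) (g * g') := by
  classical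
  unfold Sml at h h' ⊢
  have h1 : (Finset.univ.filter fun z : Ω => (g * g') • z ≠ z) ⊆
      (Finset.univ.filter fun z : Ω => g • z ≠ z) ∪ (Finset.univ.filter fun z : Ω => g' • z ≠ z) := by
    intro z hz
    rw [Finset.mem_filter] at hz
    rw [Finset.mem_union, Finset.mem_filter, Finset.mem_filter]
    by_cases h2 : g' • z = z
    · left
      refine ⟨Finset.mem_univ _, fun h3 => hz.2 ?_⟩
      rw [mul_smul, h2, h3]
    · exact Or.inr ⟨Finset.mem_univ _, h2⟩
  exact (Finset.card_le_card h1).trans ((Finset.card_union_le _ _).trans (Nat.add_le_add h h'))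

theorem sml_inv {k : ℕ} {g : G} (h : Sml Ω k g) : Sml Ω k g⁻¹ := by
  classical
  unfold Sml at h ⊢
  have h1 : (Finset.univ.filter fun z : Ω => g⁻¹ • z ≠ z) ⊆
      (Finset.univ.filter fun z : Ω => g • z ≠ z) := by
    intro z hz
    rw [Finset.mem_filter] at hz ⊢
    refine ⟨Finset.mem_univ _, fun h3 => hz.2 ?_⟩
    rw [inv_smul_eq_iff, h3]
  exact (Finset.card_le_card h1).trans h

theorem sml_conj {k : ℕ} {g : G} (a : G) (h : Sml Ω k g) : Sml Ω k (a * g * a⁻¹) := by
  classical
  unfold Sml at h ⊢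
  refine le_trans (Finset.card_le_card_of_injOn (fun z => a⁻¹ • z) ?_ ?_) h
  · intro z hz
    rw [Finset.mem_coe, Finset.mem_filter] at hz ⊢
    refine ⟨Finset.mem_univ _, fun h3 => hz.2 ?_⟩
    rw [mul_smul, mul_smul, h3, smul_inv_smul]
  · intro z _ z' _ he
    exact (smul_left_cancel_iff a⁻¹).1 he

theorem MS_normal : (MS G Ω).Normal := by
  refine ⟨fun n hn g => ?_⟩
  unfold MS at hn ⊢
  induction hn using Subgroup.closure_induction with
  | mem x hx => exact Subgroup.subset_closure (sml_conj g hx)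
  | one =>
    rw [mul_one, mul_inv_cancel]
    exact Subgroup.one_mem _
  | mul x y _ _ hx hy =>
    have h1 : g * (x * y) * g⁻¹ = (g * x * g⁻¹) * (g * y * g⁻¹) := by group
    rw [h1]
    exact Subgroup.mul_mem _ hx hy
  | inv x _ hx =>
    have h1 : g * x⁻¹ * g⁻¹ = (g * x * g⁻¹)⁻¹ := by group
    rw [h1]
    exact Subgroup.inv_mem _ hx

theorem rM_inv : Inv G (rM G (Ω := Ω)) := by
  refine ⟨⟨fun x => ⟨1, Subgroup.one_mem _, one_smul _ _⟩, ?_, ?_⟩, ?_⟩
  · rintro x y ⟨m, hm, rfl⟩
    exact ⟨m⁻¹, Subgroup.inv_mem _ hm, inv_smul_smul _ _⟩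
  · rintro x y z ⟨m, hm, rfl⟩ ⟨m', hm', rfl⟩
    exact ⟨m' * m, Subgroup.mul_mem _ hm' hm, mul_smul _ _ _⟩
  · rintro g x y ⟨m, hm, rfl⟩
    refine ⟨g * m * g⁻¹, (MS_normal (G := G) (Ω := Ω)).conj_mem m hm g, ?_⟩
    rw [mul_smul, mul_smul, inv_smul_smul]

/-- `r` is a maximal invariant equivalence relation strictly finer than the relation `rM`. -/
structure Mx (G : Type) [Group G] {Ω : Type} [Fintype Ω] [DecidableEq Ω] [MulAction G Ω]
    (r : Ω → Ω → Prop) : Prop where
  inv : Inv G r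
  le : ∀ x y, r x y → rM G x y
  ne : ∃ x y, rM G x y ∧ ¬ r x y
  max : ∀ r' : Ω → Ω → Prop, Inv G r' → (∀ x y, r x y → r' x y) → (∀ x y, r' x y → rM G x y) →
    (∀ x y, r' x y → r x y) ∨ ∀ x y, rM G x y → r' x y

/-- Proof: equality is strictly finer than `rM` (there is an element of small support which is not
trivial); choose among the finitely many candidates one with the largest number of related pairs. -/
theorem exists_Mx (hex : ∃ g : G, Sml Ω 168 g ∧ ∃ x : Ω, g • x ≠ x) :
    ∃ r : Ω → Ω → Prop, Mx G r := by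
  classical
  obtain ⟨P, hP⟩ : ∃ P : (Ω → Ω → Prop) → Prop, ∀ r, P r ↔ (Inv G r ∧ (∀ x y, r x y → rM G x y) ∧
    ∃ x y, rM G x y ∧ ¬ r x y) := ⟨_, fun _ => Iff.rfl⟩
  obtain ⟨N, hN⟩ : ∃ N : (Ω → Ω → Prop) → ℕ, ∀ r, N r =
    (Finset.univ.filter fun z : Ω × Ω => r z.1 z.2).card := ⟨_, fun _ => rfl⟩
  have hb : ∀ r, N r ≤ Fintype.card (Ω × Ω) := by
    intro r
    rw [hN]
    exact Finset.card_le_univ _
  have hne : P (fun x y => x = y) := by
    rw [hP]
    refine ⟨⟨⟨fun x => rfl, fun h => h.symm, fun h h' => h.trans h'⟩, fun g x y h => by rw [h]⟩, ?_, ?_⟩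
    · rintro x y rfl
      exact ⟨1, Subgroup.one_mem _, one_smul _ _⟩
    · obtain ⟨g, hg, x, hx⟩ := hex
      exact ⟨x, g • x, ⟨g, Subgroup.subset_closure hg, rfl⟩, fun h => hx h.symm⟩
  have hk : ∃ k, ∃ r, P r ∧ Fintype.card (Ω × Ω) - N r = k := ⟨_, _, hne, rfl⟩
  obtain ⟨r, hr, hrk⟩ := Nat.find_spec hk
  have hmax : ∀ r', P r' → N r' ≤ N r := by
    intro r' hr'
    by_contra hlt
    rw [not_le] at hlt
    have h1 := hb r'
    exact Nat.find_min hk (by rw [← hrk]; omega : Fintype.card (Ω × Ω) - N r' < Nat.find hk)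
      ⟨r', hr', rfl⟩
  obtain ⟨h1, h2, h3⟩ := (hP r).1 hr
  refine ⟨r, h1, h2, h3, ?_⟩
  intro r' hi hrr' hr'M
  by_cases h4 : ∃ x y, rM G x y ∧ ¬ r' x y
  · left
    have h5 := hmax r' ((hP r').2 ⟨hi, hr'M, h4⟩)
    rw [hN, hN] at h5
    have h6 : (Finset.univ.filter fun z : Ω × Ω => r z.1 z.2) ⊆
        (Finset.univ.filter fun z : Ω × Ω => r' z.1 z.2) := by
      intro z hz
      rw [Finset.mem_filter] at hz ⊢
      exact ⟨hz.1, hrr' _ _ hz.2⟩
    have h7 := Finset.eq_of_subset_of_card_le h6 h5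
    intro x y hxy
    have h8 : (x, y) ∈ (Finset.univ.filter fun z : Ω × Ω => r' z.1 z.2) := by
      rw [Finset.mem_filter]
      exact ⟨Finset.mem_univ _, hxy⟩
    rw [← h7, Finset.mem_filter] at h8
    exact h8.2
  · right
    intro x y hxy
    by_contra h5
    exact h4 ⟨x, y, hxy, h5⟩

/-- **A small element moving a class.**

Proof.  Let `rM x y`, `¬ r x y`: `y = m x` with `m ∈ MS`.  If all small elements mapped every point to an
`r`-related point, so would the generated group, and `r x y`.  So there are `g` small and `z` with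
`¬ r z (g z)`.  By transitivity (`htr`) and conjugation (`sml_conj`) this can be achieved with a given
`z`. -/
theorem Mx.exists_move (htr : ∀ x y : Ω, ∃ g : G, g • x = y) {r : Ω → Ω → Prop} (h : Mx G r)
    (z : Ω) : ∃ g : G, Sml Ω 168 g ∧ ¬ r z (g • z) := by
  by_contra hno
  have h1 : ∀ g : G, Sml Ω 168 g → r z (g • z) := by
    intro g hg
    by_contra h2
    exact hno ⟨g, hg, h2⟩
  have h2 : ∀ g : G, Sml Ω 168 g → ∀ w : Ω, r w (g • w) := by
    intro g hg w
    obtain ⟨a, rfl⟩ := htr z w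
    have h3 := h1 (a⁻¹ * g * a⁻¹⁻¹) (sml_conj a⁻¹ hg)
    have h4 := h.inv.map a _ _ h3
    rw [inv_inv, mul_smul, mul_smul, smul_inv_smul] at h4
    exact h4
  have h3 : ∀ m ∈ MS G Ω, ∀ w : Ω, r w (m • w) := by
    intro m hm
    unfold MS at hm
    induction hm using Subgroup.closure_induction with
    | mem x hx => exact h2 x hx
    | one =>
      intro w
      rw [one_smul]
      exact h.inv.eqv.refl w
    | mul x y _ _ hx hy =>
      intro w
      rw [mul_smul]
      exact h.inv.eqv.trans (hy w) (hx (y • w))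
    | inv x _ hx =>
      intro w
      have h4 := hx (x⁻¹ • w)
      rw [smul_inv_smul] at h4
      exact h.inv.eqv.symm h4
  obtain ⟨x, y, ⟨m, hm, rfl⟩, hxy⟩ := h.ne
  exact hxy (h3 m hm x)

/-- **The classes are small.**  Proof: `exists_move`: `g` moves all the points of the class of `z`, and all
the points of the class of `g z` (if `w` is in the class of `g z` and `g w = w`, then `w = g⁻¹ w` is in the class of
`z`); these are two disjoint sets with the same number of points. -/
theorem Mx.card_le (htr : ∀ x y : Ω, ∃ g : G, g • x = y) {r : Ω → Ω → Prop} (h : Mx G r)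
    (z : Ω) : Nat.card {w // r z w} ≤ 84 := by
  classical
  obtain ⟨g, hg, hgz⟩ := h.exists_move htr z
  have hsy := fun {x y : Ω} (k : r x y) => h.inv.eqv.symm k
  have htrn := fun {x y w : Ω} (k : r x y) (k' : r y w) => h.inv.eqv.trans k k'
  obtain ⟨A, hA⟩ : ∃ A : Finset Ω, A = Finset.univ.filter fun w => r z w := ⟨_, rfl⟩
  have hmA : ∀ w, w ∈ A ↔ r z w := by
    intro w
    rw [hA, Finset.mem_filter]
    exact ⟨fun k => k.2, fun k => ⟨Finset.mem_univ _, k⟩⟩
  have hcard : Nat.card {w // r z w} = A.card := by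
    rw [Nat.card_eq_fintype_card, Fintype.card_subtype, hA]
  obtain ⟨B, hB⟩ : ∃ B : Finset Ω, B = A.image (fun w => g • w) := ⟨_, rfl⟩
  have hBc : B.card = A.card := by
    rw [hB]
    exact Finset.card_image_of_injective _ (MulAction.injective g)
  have hmB : ∀ w ∈ B, r (g • z) w := by
    intro w hw
    rw [hB, Finset.mem_image] at hw
    obtain ⟨u, hu, rfl⟩ := hw
    exact h.inv.map g _ _ ((hmA u).1 hu)
  have hdis : Disjoint A B := by
    rw [Finset.disjoint_left]
    intro w hw hw'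
    exact hgz (htrn ((hmA w).1 hw) (hsy (hmB w hw')))
  have hsub : A ∪ B ⊆ Finset.univ.filter fun w : Ω => g • w ≠ w := by
    intro w hw
    rw [Finset.mem_filter]
    refine ⟨Finset.mem_univ _, fun hfix => ?_⟩
    rcases Finset.mem_union.1 hw with k | k
    · have k1 := (hmA w).1 k
      have k2 := h.inv.map g _ _ k1
      rw [hfix] at k2
      exact hgz (htrn k1 (hsy k2))
    · have k1 := hmB w k
      have k2 := h.inv.map g⁻¹ _ _ k1
      have k3 : g⁻¹ • w = w := by rw [inv_smul_eq_iff, hfix]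
      rw [inv_smul_smul, k3] at k2
      exact hgz (htrn k2 (hsy k1))
  have h1 := Finset.card_le_card hsub
  rw [Finset.card_union_of_disjoint hdis, hBc] at h1
  unfold Sml at hg
  rw [hcard]
  omega

end WildT
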