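import Pool.Agent.helper44.TG.Cut

/-! Points which have the same distances to all far points. -/

namespace WildT

open Equiv WildLD

variable {Y : Type} [Fintype Y] [DecidableEq Y]

/-- `x` and `y` have the same distance to all the points at distance more than `R` from `x`. -/
def Twn (D : Finset (Y × Y)) (R : ℕ) (x y : Y) : Prop :=
  ∀ z, R < (Gam D).dist x z → (Gam D).dist y z = (Gam D).dist x z

/-- The balls of radius `R` around related points are equal.  Proof: if `z` is outside the ball of `x`, then
`dist y z = dist x z > R`; so the ball of `y` is contained in the ball of `x`, and they have the same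
cardinality (`Bl_card`). -/
theorem twn_ball {G : Subgroup (Perm Y)} (htr : Tr G) {D : Finset (Y × Y)} (hD : Orb G D)
    {R : ℕ} {x y : Y} (h : Twn D R x y) : Bl D y R = Bl D x R := by
  have hsub : Bl D y R ⊆ Bl D x R := by
    intro z hz
    unfold Bl at hz ⊢
    rw [Finset.mem_filter] at hz ⊢
    refine ⟨Finset.mem_univ _, ?_⟩
    by_contra hcon
    push Not at hcon
    have h1 := h z hcon
    have h2 := hz.2
    omega
  exact Finset.eq_of_subset_of_card_le hsub (le_of_eq (Bl_card htr hD x y R))

/-- Symmetry from `twn_ball`. -/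
theorem twn_eqv {G : Subgroup (Perm Y)} (htr : Tr G) {D : Finset (Y × Y)} (hD : Orb G D)
    (R : ℕ) : Equivalence (Twn D R) := by
  refine ⟨fun x z _ => rfl, ?_, ?_⟩
  · intro x y h z hz
    have hb := twn_ball htr hD h
    have h1 : R < (Gam D).dist x z := by
      by_contra hcon
      push Not at hcon
      have h2 : z ∈ Bl D x R := by
        unfold Bl
        rw [Finset.mem_filter]
        exact ⟨Finset.mem_univ _, hcon⟩
      rw [← hb] at h2
      unfold Bl at h2
      rw [Finset.mem_filter] at h2
      have h3 := h2.2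
      omega
    exact (h z h1).symm
  · intro x y w hxy hyw z hz
    have h1 := hxy z hz
    have h2 := hyw z (by omega)
    omega

/-- Invariance under automorphisms: `autD_dist`. -/
theorem twn_map {D : Finset (Y × Y)} {R : ℕ} {g : Perm Y} (hg : g ∈ AutD D) {x y : Y}
    (h : Twn D R x y) : Twn D R (g x) (g y) := by
  intro z hz
  have e : g (g⁻¹ z) = z := g.apply_symm_apply z
  rw [← e, autD_dist hg] at hz ⊢
  rw [autD_dist hg]
  exact h _ hz

/-- Related points have distance at most `R`: otherwise `dist y y = dist x y > R`. -/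
theorem twn_dist {D : Finset (Y × Y)} {R : ℕ} {x y : Y} (h : Twn D R x y) :
    (Gam D).dist x y ≤ R := by
  by_contra hcon
  push Not at hcon
  have h1 := h y hcon
  rw [SimpleGraph.dist_self] at h1
  omega

/-- The classes are contained in balls, whose cardinality is at most `(2 d + 1) ^ R` (`Bl_pow`,
`Bl_one`). -/
theorem twn_card {G : Subgroup (Perm Y)} (htr : Tr G) {D : Finset (Y × Y)} (hD : Orb G D)
    (hc : (Gam D).Connected) {d : ℕ} (hd : D.card = Fintype.card Y * d) (R : ℕ) (x : Y) :
    Nat.card {z // Twn D R x z} ≤ (2 * d + 1) ^ R := by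
  classical
  have h1 : Nat.card {z // Twn D R x z} ≤ (Bl D x R).card := by
    rw [Nat.card_eq_fintype_card, Fintype.card_subtype]
    refine Finset.card_le_card ?_
    intro z hz
    rw [Finset.mem_filter] at hz
    unfold Bl
    rw [Finset.mem_filter]
    exact ⟨Finset.mem_univ _, twn_dist hz.2⟩
  refine h1.trans ((Bl_pow htr hD hc x R).trans ?_)
  exact Nat.pow_le_pow_left (Bl_one htr hD hd hc x).2 R

/-- If there are more than `(2 d + 1) ^ R` points, the ends of an arc are not related.

Proof.  Otherwise the ends of all arcs are related (`Orb.tr`, `twn_map` for elements of `G ≤ AutD D`), so by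
connectedness all points are related, and the whole set is contained in a ball of radius `R`. -/
theorem twn_arc {G : Subgroup (Perm Y)} (htr : Tr G) {D : Finset (Y × Y)} (hD : Orb G D)
    (hc : (Gam D).Connected) {d : ℕ} (hd : D.card = Fintype.card Y * d) {R : ℕ}
    (hb : (2 * d + 1) ^ R < Fintype.card Y) {x y : Y} (hxy : (x, y) ∈ D) : ¬ Twn D R x y := by
  intro hcon
  have heq := twn_eqv htr hD R
  have hG : ∀ g ∈ G, g ∈ AutD D := fun g hg => (autD_orb hD).1 hg
  have harc : ∀ u v, (u, v) ∈ D → Twn D R u v := by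
    intro u v huv
    obtain ⟨g, hg, h1, h2⟩ := hD.tr (x, y) hxy (u, v) huv
    have h3 := twn_map (hG g hg) hcon
    have e1 : g x = u := h1
    have e2 : g y = v := h2
    rwa [e1, e2] at h3
  have hadj : ∀ u v, (Gam D).Adj u v → Twn D R u v := by
    intro u v huv
    unfold Gam at huv
    rw [SimpleGraph.fromRel_adj] at huv
    rcases huv.2 with h | h
    · exact harc u v h
    · exact heq.symm (harc v u h)
  have hwalk : ∀ (u v : Y) (_ : (Gam D).Walk u v), Twn D R u v := by
    intro u v p
    induction p with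
    | nil => exact heq.refl _
    | cons h _ ih => exact heq.trans (hadj _ _ h) ih
  have hall : ∀ z, z ∈ Bl D x R := by
    intro z
    obtain ⟨p⟩ := hc.preconnected x z
    unfold Bl
    rw [Finset.mem_filter]
    exact ⟨Finset.mem_univ _, twn_dist (hwalk x z p)⟩
  have h1 : Fintype.card Y ≤ (Bl D x R).card := by
    rw [← Finset.card_univ]
    exact Finset.card_le_card fun z _ => hall z
  have h2 := (Bl_pow htr hD hc x R).trans
    (Nat.pow_le_pow_left (Bl_one htr hD hd hc x).2 R)
  omega

/-- The automorphisms which map every point to a related point form a normal subgroup of the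
automorphism group.  -/
theorem exists_NN {G : Subgroup (Perm Y)} (htr : Tr G) {D : Finset (Y × Y)} (hD : Orb G D)
    (R : ℕ) : ∃ NN : Subgroup (Perm Y), (∀ g, g ∈ NN ↔ g ∈ AutD D ∧ ∀ x, Twn D R x (g x)) ∧
      ∀ a ∈ AutD D, ∀ g ∈ NN, a * g * a⁻¹ ∈ NN := by
  have heq := twn_eqv htr hD R
  refine ⟨⟨⟨⟨{g | g ∈ AutD D ∧ ∀ x, Twn D R x (g x)}, ?_⟩, ?_⟩, ?_⟩, ?_, ?_⟩
  · intro a b ha hb
    refine ⟨(AutD D).mul_mem ha.1 hb.1, fun x => ?_⟩
    exact heq.trans (hb.2 x) (ha.2 (b x))
  · exact ⟨(AutD D).one_mem, fun x => heq.refl x⟩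
  · intro a ha
    refine ⟨(AutD D).inv_mem ha.1, fun x => ?_⟩
    have h1 := ha.2 (a⁻¹ x)
    have e : a (a⁻¹ x) = x := a.apply_symm_apply x
    rw [e] at h1
    exact heq.symm h1
  · intro g
    exact Iff.rfl
  · intro a ha g hg
    refine ⟨(AutD D).mul_mem ((AutD D).mul_mem ha hg.1) ((AutD D).inv_mem ha), fun x => ?_⟩
    have h1 := twn_map ha (hg.2 (a⁻¹ x))
    have e : a (a⁻¹ x) = x := a.apply_symm_apply x
    rw [e] at h1
    exact h1

/-- A local automorphism maps every point to a related one.

Proof.  If `g x = x`, nothing to prove.  If `g x ≠ x` and `dist x z > R`, then `z` is not moved by `g` (`hR`), so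
`dist (g x) z = dist (g x) (g z) = dist x z`. -/
theorem twn_local {D : Finset (Y × Y)} {g : Perm Y} (hg : g ∈ AutD D) {R : ℕ}
    (hR : ∀ u v, g u ≠ u → g v ≠ v → (Gam D).dist u v ≤ R)
    {G : Subgroup (Perm Y)} (htr : Tr G) (hD : Orb G D) (x : Y) : Twn D R x (g x) := by
  by_cases hx : g x = x
  · rw [hx]
    exact (twn_eqv htr hD R).refl x
  · intro z hz
    have h1 : g z = z := by
      by_contra hcon
      have h2 := hR x z hx hcon
      omega
    calc (Gam D).dist (g x) z = (Gam D).dist (g x) (g z) := by rw [h1]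
      _ = (Gam D).dist x z := autD_dist hg x z

end WildT
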