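import Pool.Agent.helper44.TG.Sup

/-! Double transitivity on the classes. -/

namespace WildT

open MulAction Equiv WildLD

variable {G : Type} [Group G] [Fintype G] {Ω : Type} [Fintype Ω] [DecidableEq Ω] [MulAction G Ω]

/-- **Small support for group actions** (the theorem `small_support` of WildLD).  `H` acts transitively on
`Y`, every `H`-invariant equivalence relation is trivial, `h ∈ H` acts nontrivially and moves at most `k`
points, and `Y` has more than `(16 k ^ 2 + 1) ^ (8 k)` points: then `H` is doubly transitive.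

Proof.  The image of `H` in `Perm Y`. -/
theorem support_act {H : Type} [Group H] {Y : Type} [Fintype Y] [DecidableEq Y] [MulAction H Y]
    (htr : ∀ x y : Y, ∃ g : H, g • x = y)
    (hpr : ∀ r : Y → Y → Prop, Inv H r → (∀ x y, r x y → x = y) ∨ ∀ x y, r x y)
    {h : H} {k : ℕ} (h1 : ∃ x : Y, h • x ≠ x)
    (hk : (Finset.univ.filter fun y : Y => h • y ≠ y).card ≤ k)
    (hb : (16 * k ^ 2 + 1) ^ (8 * k) < Fintype.card Y) :
    ∀ a b a' b' : Y, a ≠ b → a' ≠ b' → ∃ g : H, g • a = a' ∧ g • b = b' := by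
  by_contra hcon
  have hprim : WildJ.Prim (MulAction.toPermHom H Y).range := by
    intro R hR hinv
    apply hpr R
    refine ⟨hR, fun g x y hxy => ?_⟩
    exact hinv (MulAction.toPermHom H Y g) ⟨g, rfl⟩ x y hxy
  have htr' : Tr (MulAction.toPermHom H Y).range := by
    intro x y
    obtain ⟨g, hg⟩ := htr x y
    exact ⟨MulAction.toPermHom H Y g, ⟨g, rfl⟩, hg⟩
  have h2 : ¬ ∀ a b a' b' : Y, a ≠ b → a' ≠ b' →
      ∃ g ∈ (MulAction.toPermHom H Y).range, g a = a' ∧ g b = b' := by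
    intro h2
    apply hcon
    intro a b a' b' hab hab'
    obtain ⟨_, ⟨g, rfl⟩, hg1, hg2⟩ := h2 a b a' b' hab hab'
    exact ⟨g, hg1, hg2⟩
  have h3 : MulAction.toPermHom H Y h ≠ 1 := by
    intro h3
    obtain ⟨x, hx⟩ := h1
    apply hx
    have h4 : (MulAction.toPermHom H Y h) x = x := by rw [h3]; rfl
    exact h4
  have h4 : (Fx (MulAction.toPermHom H Y h))ᶜ.card ≤ k := by
    refine le_trans (le_of_eq ?_) hk
    congr 1
    ext y
    simp only [Fx, Finset.mem_compl, Finset.mem_filter, Finset.mem_univ, true_and]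
    rfl
  have h5 := small_support hprim htr' h2 (h := MulAction.toPermHom H Y h) ⟨h, rfl⟩ h3 h4
  exact absurd hb (not_lt.mpr h5)

theorem TwoT_refl (x : Ω) : rM G x x := (rM_inv (G := G) (Ω := Ω)).eqv.refl x

theorem TwoT_symm {x y : Ω} (h : rM G x y) : rM G y x := (rM_inv (G := G) (Ω := Ω)).eqv.symm h

theorem TwoT_trans {x y z : Ω} (h : rM G x y) (h' : rM G y z) : rM G x z :=
  (rM_inv (G := G) (Ω := Ω)).eqv.trans h h'

theorem TwoT_map (g : G) {x y : Ω} (h : rM G x y) : rM G (g • x) (g • y) :=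
  (rM_inv (G := G) (Ω := Ω)).map g x y h

theorem TwoT_MS {m : G} (hm : m ∈ MS G Ω) (x : Ω) : rM G x (m • x) := ⟨m, hm, rfl⟩

theorem TwoT_mem {g : G} (hg : Sml Ω 168 g) : g ∈ MS G Ω := Subgroup.subset_closure hg

/-- The setwise stabilizer of the orbit of `a`. -/
def TwoT_H (G : Type) [Group G] {Ω : Type} [Fintype G] [Fintype Ω] [DecidableEq Ω] [MulAction G Ω]
    (a : Ω) : Subgroup G where
  carrier := {g | rM G a (g • a)}
  mul_mem' := by
    intro g g' h h'
    have h1 : rM G (g • a) (g • g' • a) := TwoT_map g h'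
    show rM G a ((g * g') • a)
    rw [mul_smul]
    exact TwoT_trans h h1
  one_mem' := by
    show rM G a ((1 : G) • a)
    rw [one_smul]
    exact TwoT_refl a
  inv_mem' := by
    intro g h
    have h1 : rM G (g⁻¹ • a) (g⁻¹ • g • a) := TwoT_map g⁻¹ h
    rw [inv_smul_smul] at h1
    exact TwoT_symm h1

theorem TwoT_H_orb {a z : Ω} (hz : rM G a z) {g : G} (hg : g ∈ TwoT_H G a) : rM G a (g • z) :=
  TwoT_trans (show rM G a (g • a) from hg) (TwoT_map g hz)

theorem TwoT_mem_H {a z : Ω} (hz : rM G a z) {g : G} (hg : rM G a (g • z)) : g ∈ TwoT_H G a :=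
  show rM G a (g • a) from TwoT_trans hg (TwoT_symm (TwoT_map g hz))

/-- The setoid on the orbit of `a`. -/
def TwoT_S {r : Ω → Ω → Prop} (hr : Inv G r) (a : Ω) : Setoid {z : Ω // rM G a z} where
  r := fun z w => r z.1 w.1
  iseqv := ⟨fun z => hr.eqv.refl z.1, fun h => hr.eqv.symm h, fun h h' => hr.eqv.trans h h'⟩

/-- The classes in the orbit of `a`. -/
def TwoT_Y {r : Ω → Ω → Prop} (hr : Inv G r) (a : Ω) : Type := Quotient (TwoT_S hr a)

/-- The class of a point. -/
def TwoT_mk {r : Ω → Ω → Prop} (hr : Inv G r) (a : Ω) (z : Ω) (hz : rM G a z) : TwoT_Y hr a :=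
  Quotient.mk (TwoT_S hr a) ⟨z, hz⟩

theorem TwoT_eq {r : Ω → Ω → Prop} (hr : Inv G r) {a z w : Ω} (hz : rM G a z) (hw : rM G a w) :
    TwoT_mk hr a z hz = TwoT_mk hr a w hw ↔ r z w :=
  ⟨fun h => Quotient.exact (s := TwoT_S hr a) h, fun h => Quotient.sound (s := TwoT_S hr a) h⟩

theorem TwoT_ind {r : Ω → Ω → Prop} (hr : Inv G r) {a : Ω} (y : TwoT_Y hr a) :
    ∃ z, ∃ hz : rM G a z, TwoT_mk hr a z hz = y := by
  obtain ⟨z, hz⟩ := Quotient.exists_rep (s := TwoT_S hr a) y
  exact ⟨z.1, z.2, hz⟩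

/-- The action on the classes. -/
instance TwoT_act {r : Ω → Ω → Prop} (hr : Inv G r) (a : Ω) :
    MulAction (TwoT_H G a) (TwoT_Y hr a) where
  smul g y := Quotient.map (sa := TwoT_S hr a) (sb := TwoT_S hr a)
    (fun z : {z : Ω // rM G a z} => (⟨(g : G) • z.1, TwoT_H_orb z.2 g.2⟩ : {z : Ω // rM G a z}))
    (fun z w h => hr.map (g : G) z.1 w.1 h) y
  one_smul := by
    intro y
    obtain ⟨z, hz, rfl⟩ := TwoT_ind hr y
    apply Quotient.sound (s := TwoT_S hr a)
    show r ((1 : G) • z) z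
    rw [one_smul]
    exact hr.eqv.refl z
  mul_smul := by
    intro g g' y
    obtain ⟨z, hz, rfl⟩ := TwoT_ind hr y
    apply Quotient.sound (s := TwoT_S hr a)
    show r (((g : G) * (g' : G)) • z) ((g : G) • (g' : G) • z)
    rw [mul_smul]
    exact hr.eqv.refl _

theorem TwoT_smul {r : Ω → Ω → Prop} (hr : Inv G r) {a z : Ω} (hz : rM G a z) (g : TwoT_H G a) :
    g • TwoT_mk hr a z hz = TwoT_mk hr a ((g : G) • z) (TwoT_H_orb hz g.2) := rfl

theorem TwoT_mk_congr {r : Ω → Ω → Prop} (hr : Inv G r) {a z w : Ω} (hz : rM G a z)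
    (e : z = w) : TwoT_mk hr a z hz = TwoT_mk hr a w (e ▸ hz) := by
  subst e
  rfl

theorem TwoT_prim {r : Ω → Ω → Prop} (h : Mx G r) (a : Ω)
    (q : TwoT_Y h.inv a → TwoT_Y h.inv a → Prop) (hq : Inv (TwoT_H G a) q) :
    (∀ x y, q x y → x = y) ∨ ∀ x y, q x y := by
  have hr := h.inv
  set r' : Ω → Ω → Prop := fun x y => rM G x y ∧ ∀ (g : G) (x' y' : Ω) (hx : rM G a x')
    (hy : rM G a y'), x' = g • x → y' = g • y → q (TwoT_mk h.inv a x' hx) (TwoT_mk h.inv a y' hy)
    with hr'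
  have hinv : Inv G r' := by
    refine ⟨⟨?_, ?_, ?_⟩, ?_⟩
    · intro x
      refine ⟨TwoT_refl x, ?_⟩
      rintro g x' y' hx hy e1 e2
      subst e1
      subst e2
      exact hq.eqv.refl _
    · rintro x y ⟨h1, h2⟩
      refine ⟨TwoT_symm h1, ?_⟩
      intro g x' y' hx hy e1 e2
      exact hq.eqv.symm (h2 g y' x' hy hx e2 e1)
    · rintro x y z ⟨h1, h2⟩ ⟨h3, h4⟩
      refine ⟨TwoT_trans h1 h3, ?_⟩
      intro g x' z' hx hz e1 e2
      have hy : rM G a (g • y) := by
        rw [e1] at hx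
        exact TwoT_trans hx (TwoT_map g h1)
      exact hq.eqv.trans (h2 g x' (g • y) hx hy e1 rfl) (h4 g (g • y) z' hy hz rfl e2)
    · rintro g x y ⟨h1, h2⟩
      refine ⟨TwoT_map g h1, ?_⟩
      intro g' x' y' hx hy e1 e2
      refine h2 (g' * g) x' y' hx hy ?_ ?_
      · rw [e1, mul_smul]
      · rw [e2, mul_smul]
  have hle : ∀ x y, r x y → r' x y := by
    intro x y hxy
    refine ⟨h.le x y hxy, ?_⟩
    intro g x' y' hx hy e1 e2
    have h1 : r x' y' := by
      rw [e1, e2]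
      exact hr.map g x y hxy
    rw [(TwoT_eq h.inv hx hy).mpr h1]
    exact hq.eqv.refl _
  rcases h.max r' hinv hle (fun x y hxy => hxy.1) with h1 | h1
  · left
    intro X Y hXY
    obtain ⟨x, hx, rfl⟩ := TwoT_ind h.inv X
    obtain ⟨y, hy, rfl⟩ := TwoT_ind h.inv Y
    rw [TwoT_eq]
    apply h1
    refine ⟨TwoT_trans (TwoT_symm hx) hy, ?_⟩
    intro g x' y' hx' hy' e1 e2
    subst e1
    subst e2
    have hg : g ∈ TwoT_H G a := TwoT_mem_H hx hx'
    exact hq.map ⟨g, hg⟩ _ _ hXY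
  · right
    intro X Y
    obtain ⟨x, hx, rfl⟩ := TwoT_ind h.inv X
    obtain ⟨y, hy, rfl⟩ := TwoT_ind h.inv Y
    have h2 := (h1 x y (TwoT_trans (TwoT_symm hx) hy)).2 1 x y hx hy (one_smul G x).symm
      (one_smul G y).symm
    exact h2

theorem TwoT_card (htr : ∀ x y : Ω, ∃ g : G, g • x = y) {r : Ω → Ω → Prop} (h : Mx G r) (a : Ω)
    [Fintype (TwoT_Y h.inv a)] :
    Nat.card {w // rM G a w} ≤ 84 * Fintype.card (TwoT_Y h.inv a) := by
  classical
  haveI : Fintype {w // rM G a w} := Fintype.ofFinite _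
  rw [Nat.card_eq_fintype_card]
  let f : {w // rM G a w} → TwoT_Y h.inv a := fun w => TwoT_mk h.inv a w.1 w.2
  have h1 : (Finset.univ : Finset {w // rM G a w}).card
      ≤ 84 * (Finset.univ : Finset (TwoT_Y h.inv a)).card := by
    apply Finset.card_le_mul_card_image_of_maps_to (f := f) (fun _ _ => Finset.mem_univ _)
    intro y _
    obtain ⟨z, hz, rfl⟩ := TwoT_ind h.inv y
    have h2 := h.card_le htr z
    haveI : Fintype {w // r z w} := Fintype.ofFinite _
    rw [Nat.card_eq_fintype_card, ← Finset.card_univ] at h2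
    refine le_trans ?_ h2
    refine Finset.card_le_card_of_surjOn
      (fun w : {w // r z w} => (⟨w.1, TwoT_trans hz (h.le z w.1 w.2)⟩ : {w // rM G a w})) ?_
    intro w hw
    rw [Finset.mem_coe, Finset.mem_filter] at hw
    have h3 : r z w.1 := h.inv.eqv.symm ((TwoT_eq h.inv w.2 hz).mp hw.2)
    exact ⟨⟨w.1, h3⟩, Finset.mem_coe.mpr (Finset.mem_univ _), rfl⟩
  rw [Finset.card_univ, Finset.card_univ] at h1
  exact h1

/-- **Double transitivity on the classes in one orbit of `MS`.**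

Proof.  Let `Δ` be the orbit of `a`, `H` the setwise stabilizer of `Δ` in `G` (a subgroup, contains `MS`), `Y` the set
of the `r`-classes in `Δ` (for instance the quotient of the subtype `{z // rM G a z}` by the restriction of
`r`), with the action of `H`.  It is transitive because of `MS`.  Every `H`-invariant equivalence relation on
`Y` gives a relation `r'` on `Ω`: `r' x y` iff `rM x y` and for some (equivalently all) `g ∈ G` with
`g x ∈ Δ` the classes of `g x` and `g y` are related; it is an invariant equivalence relation between `r` and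
`rM`, so by `Mx.max` it is `r` or `rM`, and the relation on `Y` is trivial.  `exists_move` for `z = a`: a small `g`,
`¬ r a (g a)`; `g ∈ MS ≤ H` acts nontrivially on `Y`, and it moves at most `168` classes (a moved class
consists of moved points).  The number of the classes in `Δ` is at least `card Δ / 84`
(`Mx.card_le`).  `support_act` with `k = 168`. -/
theorem two_trans (htr : ∀ x y : Ω, ∃ g : G, g • x = y) {r : Ω → Ω → Prop} (h : Mx G r)
    (hb : ∀ z : Ω, 84 * (16 * 168 ^ 2 + 1) ^ (8 * 168) < Nat.card {w // rM G z w})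
    {a b a' b' : Ω} (h1 : rM G a b) (h2 : rM G a a') (h3 : rM G a b') (h4 : ¬ r a b)
    (h5 : ¬ r a' b') : ∃ g : G, r (g • a) a' ∧ r (g • b) b' := by
  classical
  haveI : Finite (TwoT_Y h.inv a) :=
    Finite.of_surjective (fun z : {z : Ω // rM G a z} => TwoT_mk h.inv a z.1 z.2)
      (fun y => by obtain ⟨z, hz, e⟩ := TwoT_ind h.inv y; exact ⟨⟨z, hz⟩, e⟩)
  haveI : Fintype (TwoT_Y h.inv a) := Fintype.ofFinite _
  have htrY : ∀ x y : TwoT_Y h.inv a, ∃ g : TwoT_H G a, g • x = y := by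
    intro X Y
    obtain ⟨x, hx, rfl⟩ := TwoT_ind h.inv X
    obtain ⟨y, hy, rfl⟩ := TwoT_ind h.inv Y
    obtain ⟨m, hm, e⟩ := TwoT_trans (TwoT_symm hx) hy
    have hmH : m ∈ TwoT_H G a := TwoT_MS hm a
    refine ⟨⟨m, hmH⟩, ?_⟩
    rw [TwoT_smul, TwoT_eq]
    show r (m • x) y
    rw [e]
    exact h.inv.eqv.refl y
  obtain ⟨g, hg, hgr⟩ := h.exists_move htr a
  have hgH : g ∈ TwoT_H G a := TwoT_MS (TwoT_mem hg) a
  have hmv : ∃ x : TwoT_Y h.inv a, (⟨g, hgH⟩ : TwoT_H G a) • x ≠ x := by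
    refine ⟨TwoT_mk h.inv a a (TwoT_refl a), ?_⟩
    rw [TwoT_smul, Ne, TwoT_eq]
    intro hc
    exact hgr (h.inv.eqv.symm hc)
  have hk : (Finset.univ.filter fun y : TwoT_Y h.inv a =>
      (⟨g, hgH⟩ : TwoT_H G a) • y ≠ y).card ≤ 168 := by
    refine le_trans ?_ hg
    choose f hf1 hf2 using fun y : TwoT_Y h.inv a => TwoT_ind h.inv y
    refine Finset.card_le_card_of_injOn f ?_ ?_
    · intro y hy
      rw [Finset.mem_coe, Finset.mem_filter] at hy
      rw [Finset.mem_coe, Finset.mem_filter]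
      refine ⟨Finset.mem_univ _, fun hc => hy.2 ?_⟩
      rw [← hf2 y, TwoT_smul, TwoT_eq]
      show r (g • f y) (f y)
      rw [hc]
      exact h.inv.eqv.refl _
    · intro y _ y' _ e
      rw [← hf2 y, ← hf2 y', TwoT_eq, e]
      exact h.inv.eqv.refl _
  have hc : (16 * 168 ^ 2 + 1) ^ (8 * 168) < Fintype.card (TwoT_Y h.inv a) := by
    have h6 := TwoT_card htr h a
    have h7 := hb a
    generalize (16 * 168 ^ 2 + 1) ^ (8 * 168) = N at h7 ⊢
    omega
  obtain ⟨g0, hg1, hg2⟩ := support_act htrY (TwoT_prim h a) hmv hk hc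
    (TwoT_mk h.inv a a (TwoT_refl a)) (TwoT_mk h.inv a b h1) (TwoT_mk h.inv a a' h2)
    (TwoT_mk h.inv a b' h3) (by rw [Ne, TwoT_eq]; exact h4) (by rw [Ne, TwoT_eq]; exact h5)
  rw [TwoT_smul, TwoT_eq] at hg1 hg2
  exact ⟨g0, hg1, hg2⟩

/-- **Small elements between any two classes of an orbit.**  Proof: `exists_move`: small `g` with
`¬ r u (g u)`; `rM u (g u)` because `g ∈ MS`.  `two_trans` for `(u, g u)` and `(u, v)`: `g0` with `r (g0 u) u`,
`r (g0 g u) v`; the conjugate `g0 g g0⁻¹` is small and maps the class of `g0 u`, i.e. of `u`, to the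
class of `v`. -/
theorem small_between (htr : ∀ x y : Ω, ∃ g : G, g • x = y) {r : Ω → Ω → Prop} (h : Mx G r)
    (hb : ∀ z : Ω, 84 * (16 * 168 ^ 2 + 1) ^ (8 * 168) < Nat.card {w // rM G z w})
    {u v : Ω} (h1 : rM G u v) : ∃ g : G, Sml Ω 168 g ∧ r (g • u) v := by
  by_cases huv : r u v
  · refine ⟨1, ?_, ?_⟩
    · show (Finset.univ.filter fun z : Ω => (1 : G) • z ≠ z).card ≤ 168
      have h2 : (Finset.univ.filter fun z : Ω => (1 : G) • z ≠ z) = ∅ := by
        apply Finset.filter_false_of_mem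
        intro z _ hz
        exact hz (one_smul G z)
      rw [h2, Finset.card_empty]
      exact Nat.zero_le _
    · rw [one_smul]
      exact huv
  · obtain ⟨g, hg, hgr⟩ := h.exists_move htr u
    obtain ⟨g0, hg1, hg2⟩ := two_trans htr h hb (TwoT_MS (TwoT_mem hg) u) (TwoT_refl u) h1 hgr huv
    refine ⟨g0 * g * g0⁻¹, sml_conj g0 hg, ?_⟩
    have h2 := h.inv.map (g0 * g * g0⁻¹) _ _ hg1
    rw [← mul_smul, show g0 * g * g0⁻¹ * g0 = g0 * g by group, mul_smul] at h2
    exact h.inv.eqv.trans (h.inv.eqv.symm h2) hg2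

theorem TwoT_sml_one (k : ℕ) : Sml Ω k (1 : G) := by
  show (Finset.univ.filter fun z : Ω => (1 : G) • z ≠ z).card ≤ k
  have h2 : (Finset.univ.filter fun z : Ω => (1 : G) • z ≠ z) = ∅ := by
    apply Finset.filter_false_of_mem
    intro z _ hz
    exact hz (one_smul G z)
  rw [h2, Finset.card_empty]
  exact Nat.zero_le _

theorem TwoT_sml_mono {k l : ℕ} (hkl : k ≤ l) {g : G} (h : Sml Ω k g) : Sml Ω l g :=
  le_trans h hkl

/-- **A small element mapping a point of a class to another point of the same class** (if the classes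
have at least two points).

Proof.  Let `u ≠ v`, `r u v`, and suppose every `w` with `Sml (3 * 168) w` and `r u (w z)` for a point `z` with
`r u z` fixes `z`.  Claim: for `m ∈ MS`, `z` in the orbit of `u`, and small `s`, `s'` with `r u (s z)`, `r u (s' m z)`:
`s z = s' m z`.  Induction on `m ∈ MS = closure` (`Subgroup.closure_induction`): for a generator `m` (or its
inverse) the element `s' m s⁻¹` has support at most `3 * 168` and maps `s z` to `s' m z`, both in the class of
`u`; for a product `m m'` choose a small `s''` with `r u (s'' m' z)` (`small_between`).  For `m` with `m u = v`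
(`Mx.le`) and `s = s' = 1` this gives `u = v`. -/
theorem exists_inner (htr : ∀ x y : Ω, ∃ g : G, g • x = y) {r : Ω → Ω → Prop} (h : Mx G r)
    (hb : ∀ z : Ω, 84 * (16 * 168 ^ 2 + 1) ^ (8 * 168) < Nat.card {w // rM G z w})
    {u v : Ω} (hne : u ≠ v) (huv : r u v) :
    ∃ (z : Ω) (w : G), Sml Ω 504 w ∧ r z (w • z) ∧ w • z ≠ z := by
  by_contra hcon
  push Not at hcon
  have claim : ∀ m ∈ MS G Ω, ∀ z : Ω, rM G u z → ∀ s s' : G, Sml Ω 168 s → Sml Ω 168 s' →
      r u (s • z) → r u (s' • m • z) → s • z = s' • m • z := by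
    intro m hm
    refine Subgroup.closure_induction (p := fun m _ => ∀ z : Ω, rM G u z → ∀ s s' : G,
      Sml Ω 168 s → Sml Ω 168 s' → r u (s • z) → r u (s' • m • z) → s • z = s' • m • z)
      ?_ ?_ ?_ ?_ hm
    · intro x hx z hz s s' hs hs' h1 h2
      have h3 : Sml Ω 504 (s' * x * s⁻¹) := by
        have h4 := sml_mul (sml_mul hs' hx) (sml_inv hs)
        exact h4
      have e : (s' * x * s⁻¹) • s • z = s' • x • z := by
        rw [mul_smul, mul_smul, inv_smul_smul]
      have h4 := hcon (s • z) (s' * x * s⁻¹) h3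
      rw [e] at h4
      exact (h4 (h.inv.eqv.trans (h.inv.eqv.symm h1) h2)).symm
    · intro z hz s s' hs hs' h1 h2
      rw [one_smul] at h2 ⊢
      have h3 : Sml Ω 504 (s' * s⁻¹) :=
        TwoT_sml_mono (by norm_num) (sml_mul hs' (sml_inv hs))
      have e : (s' * s⁻¹) • s • z = s' • z := by
        rw [mul_smul, inv_smul_smul]
      have h4 := hcon (s • z) (s' * s⁻¹) h3
      rw [e] at h4
      exact (h4 (h.inv.eqv.trans (h.inv.eqv.symm h1) h2)).symm
    · intro x y hx hy ihx ihy z hz s s' hs hs' h1 h2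
      have hyz : rM G u (y • z) := TwoT_trans hz (TwoT_MS hy z)
      obtain ⟨s'', hs'', h3⟩ := small_between htr h hb (TwoT_symm hyz)
      have h3' : r u (s'' • y • z) := h.inv.eqv.symm h3
      have e1 := ihy z hz s s'' hs hs'' h1 h3'
      rw [mul_smul] at h2 ⊢
      have e2 := ihx (y • z) hyz s'' s' hs'' hs' h3' h2
      rw [e1, e2]
    · intro x hx ih z hz s s' hs hs' h1 h2
      have hxz : rM G u (x⁻¹ • z) :=
        TwoT_trans hz (TwoT_MS (Subgroup.inv_mem _ hx) z)
      have e1 := ih (x⁻¹ • z) hxz s' s hs' hs h2 (by rw [smul_inv_smul]; exact h1)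
      rw [smul_inv_smul] at e1
      exact e1.symm
  obtain ⟨m, hm, e⟩ := h.le u v huv
  have h1 := claim m hm u (TwoT_refl u) 1 1 (TwoT_sml_one 168) (TwoT_sml_one 168)
    (by rw [one_smul]; exact h.inv.eqv.refl u) (by rw [one_smul, e]; exact huv)
  rw [one_smul, one_smul, e] at h1
  exact hne h1

end WildT
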